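import Pool.Agent.R692.ERW1

open MeasureTheory ProbabilityTheory Filter Topology
open scoped ENNReal

namespace R692.ERW

/-- drift of the `i`-th trial -/
noncomputable def dr (p : ℕ → unitInterval) (i : ℕ) : ℝ := 2 * (p i : ℝ) - 1

/-- cumulative drift -/
noncomputable def SS (p : ℕ → unitInterval) (n : ℕ) : ℝ := ∑ i ∈ Finset.range n, dr p i

lemma SS_succ (p : ℕ → unitInterval) (n : ℕ) : SS p (n+1) = SS p n + dr p n := by
  simp [SS, Finset.sum_range_succ]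

/-- exact first moment identity at finite time -/
lemma EE_first (p : ℕ → unitInterval) (x n : ℕ) :
    EE p x n (fun s => (s.1 : ℝ) - s.2 - SS p (s.1 + s.2)) = 0 := by
  induction n with
  | zero => rw [EE_zero]; simp [SS]
  | succ n ih =>
    rw [EE_succ, ← ih]
    refine EE_congr _ _ _ _ _ (fun s f _ _ h3 => ?_)
    simp only
    split_ifs with h
    · have e1 : s + 1 + f = (s + f) + 1 := by ring
      have e2 : s + (f + 1) = (s + f) + 1 := by ring
      rw [e1, e2, SS_succ, h3 h]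
      unfold dr
      push_cast
      ring
    · rfl

lemma EE_nonneg (p : ℕ → unitInterval) (x n : ℕ) (G : ℕ × ℕ → ℝ) (h : ∀ s, 0 ≤ G s) :
    0 ≤ EE p x n G := integral_nonneg (fun _ => h _)

/-- exponential supermartingale bound -/
lemma EE_exp (p : ℕ → unitInterval) (x : ℕ) (σ : ℝ) (hσ : |σ| ≤ 1) (n : ℕ) :
    EE p x n (fun s => (1 + σ) ^ s.1 * (1 - σ) ^ s.2) ≤
      Real.exp (∑ i ∈ Finset.range n, |dr p i|) := by
  have h1 : 0 ≤ 1 + σ := by linarith [(abs_le.1 hσ).1]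
  have h2 : 0 ≤ 1 - σ := by linarith [(abs_le.1 hσ).2]
  induction n with
  | zero => rw [EE_zero]; simp
  | succ n ih =>
    rw [EE_succ, Finset.sum_range_succ, Real.exp_add]
    have h3 : EE p x n (fun s => if s.2 < x then
        (p n : ℝ) * ((1 + σ) ^ (s.1 + 1) * (1 - σ) ^ s.2) +
          (1 - p n) * ((1 + σ) ^ s.1 * (1 - σ) ^ (s.2 + 1))
        else (1 + σ) ^ s.1 * (1 - σ) ^ s.2) ≤
        EE p x n (fun s => Real.exp |dr p n| * ((1 + σ) ^ s.1 * (1 - σ) ^ s.2)) := by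
      refine EE_mono _ _ _ _ _ (fun s f _ _ _ => ?_)
      simp only
      have h4 : 0 ≤ (1 + σ) ^ s * (1 - σ) ^ f := by positivity
      have h5 : 1 + |dr p n| ≤ Real.exp |dr p n| := by
        linarith [Real.add_one_le_exp |dr p n|]
      split_ifs with h
      · have e : (p n : ℝ) * ((1 + σ) ^ (s + 1) * (1 - σ) ^ f) +
          (1 - p n) * ((1 + σ) ^ s * (1 - σ) ^ (f + 1)) =
          (1 + σ * dr p n) * ((1 + σ) ^ s * (1 - σ) ^ f) := by
          unfold dr; ring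
        rw [e]
        refine mul_le_mul_of_nonneg_right ?_ h4
        refine le_trans ?_ h5
        have : σ * dr p n ≤ |σ| * |dr p n| := by
          rw [← abs_mul]; exact le_abs_self _
        nlinarith [abs_nonneg (dr p n), abs_nonneg σ]
      · have : 1 ≤ Real.exp |dr p n| := by
          have := abs_nonneg (dr p n)
          linarith
        nlinarith
    refine h3.trans ?_
    rw [EE_const_mul, mul_comm]
    exact mul_le_mul_of_nonneg_right ih (Real.exp_pos _).le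

/-- `(1+σ)^m` dominates the fourth power -/
lemma pow_four_le (σ : ℝ) (h0 : 0 ≤ σ) (h1 : σ ≤ 1) (m : ℕ) :
    (σ * m) ^ 4 ≤ 256 * (1 + σ) ^ m := by
  obtain ⟨k, r, hr, rfl⟩ : ∃ k r : ℕ, r < 4 ∧ m = k * 4 + r :=
    ⟨m / 4, m % 4, Nat.mod_lt _ (by norm_num), by omega⟩
  have hb : 1 + (k:ℝ) * σ ≤ (1 + σ) ^ k := one_add_mul_le_pow (by linarith) k
  have h2 : ((1 : ℝ) + k * σ) ^ 4 ≤ (1 + σ) ^ (k * 4) := by
    rw [pow_mul]
    exact pow_le_pow_left₀ (by positivity) hb 4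
  have h3 : (1 + σ) ^ (k * 4) ≤ (1 + σ) ^ (k * 4 + r) :=
    pow_le_pow_right₀ (by linarith) (by omega)
  have h4 : σ * ((k * 4 + r : ℕ) : ℝ) ≤ 4 * (1 + k * σ) := by
    have : (r : ℝ) ≤ 4 := by exact_mod_cast hr.le
    push_cast
    nlinarith
  have h5 : (σ * ((k * 4 + r : ℕ) : ℝ)) ^ 4 ≤ (4 * (1 + k * σ)) ^ 4 :=
    pow_le_pow_left₀ (by positivity) h4 4
  calc (σ * ((k * 4 + r : ℕ) : ℝ)) ^ 4 ≤ (4 * (1 + k * σ)) ^ 4 := h5
    _ = 256 * (1 + k * σ) ^ 4 := by ring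
    _ ≤ 256 * (1 + σ) ^ (k * 4 + r) := by linarith

lemma pointwise_four (σ : ℝ) (h0 : 0 ≤ σ) (h1 : σ ≤ 1) (x s f : ℕ) (hf : f ≤ x)
    (hx : (x : ℝ) * σ ^ 2 ≤ 1 / 2) :
    (σ * ((s:ℝ) - f)) ^ 4 ≤ 512 * ((1 + σ) ^ s * (1 - σ) ^ f + (1 - σ) ^ s * (1 + σ) ^ f) := by
  have key : ∀ k : ℕ, k ≤ x → (1 : ℝ) / 2 ≤ ((1 + σ) * (1 - σ)) ^ k := by
    intro k hk
    have hb : 1 + (k : ℝ) * (-σ ^ 2) ≤ (1 + (-σ ^ 2)) ^ k :=
      one_add_mul_le_pow (by nlinarith) k
    have e : (1 + σ) * (1 - σ) = 1 + (-σ ^ 2) := by ring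
    rw [e]
    have : (k : ℝ) * σ ^ 2 ≤ x * σ ^ 2 := by
      apply mul_le_mul_of_nonneg_right _ (by positivity)
      exact_mod_cast hk
    linarith
  have p1 : 0 ≤ 1 - σ := by linarith
  have p2 : 0 ≤ 1 + σ := by linarith
  rcases le_total f s with h | h
  · obtain ⟨m, rfl⟩ := Nat.exists_eq_add_of_le h
    have e : (((f + m : ℕ) : ℝ) - f) = m := by push_cast; ring
    rw [e]
    have h2 := pow_four_le σ h0 h1 m
    have h3 := key f hf
    have e2 : (1 + σ) ^ (f + m) * (1 - σ) ^ f = ((1 + σ) * (1 - σ)) ^ f * (1 + σ) ^ m := by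
      rw [pow_add, mul_pow]; ring
    have h4 : 0 ≤ (1 - σ) ^ (f + m) * (1 + σ) ^ f := by positivity
    have h5 : (0:ℝ) ≤ (1 + σ) ^ m := by positivity
    rw [e2]
    nlinarith
  · obtain ⟨m, rfl⟩ := Nat.exists_eq_add_of_le h
    have e : (σ * ((s : ℝ) - ((s + m : ℕ) : ℝ))) ^ 4 = (σ * m) ^ 4 := by push_cast; ring
    rw [e]
    have h2 := pow_four_le σ h0 h1 m
    have h3 := key s (by omega)
    have e2 : (1 - σ) ^ s * (1 + σ) ^ (s + m) = ((1 + σ) * (1 - σ)) ^ s * (1 + σ) ^ m := by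
      rw [pow_add, mul_pow]; ring
    have h4 : 0 ≤ (1 + σ) ^ s * (1 - σ) ^ (s + m) := by positivity
    have h5 : (0:ℝ) ≤ (1 + σ) ^ m := by positivity
    rw [e2]
    nlinarith

/-- Fourth moment bound. -/
lemma EE_four (p : ℕ → unitInterval) (A : ℝ)
    (hA : ∀ n, ∑ i ∈ Finset.range n, |dr p i| ≤ A) (x : ℕ) (hx : 1 ≤ x) (n : ℕ) :
    EE p x n (fun s => ((s.1 : ℝ) - s.2) ^ 4) ≤ (4096 * Real.exp A) * (x:ℝ) ^ 2 := by
  have hx' : (1:ℝ) ≤ x := by exact_mod_cast hx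
  set σ : ℝ := Real.sqrt (1 / (2 * x)) with hσ
  have hσ2 : σ ^ 2 = 1 / (2 * x) := Real.sq_sqrt (by positivity)
  have hσ0 : 0 < σ := Real.sqrt_pos.2 (by positivity)
  have hσ1 : σ ≤ 1 := by
    have : σ ^ 2 ≤ 1 := by
      rw [hσ2, div_le_one (by positivity)]; linarith
    nlinarith
  have hxσ : (x : ℝ) * σ ^ 2 ≤ 1 / 2 := by
    rw [hσ2]
    apply le_of_eq
    field_simp
  have habs : |σ| ≤ 1 := by rw [abs_of_pos hσ0]; exact hσ1
  have h1 : EE p x n (fun s => (σ * ((s.1 : ℝ) - s.2)) ^ 4) ≤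
      EE p x n (fun s => 512 * ((1 + σ) ^ s.1 * (1 - σ) ^ s.2 +
        (1 + (-σ)) ^ s.1 * (1 - (-σ)) ^ s.2)) := by
    refine EE_mono _ _ _ _ _ (fun s f hf _ _ => ?_)
    have := pointwise_four σ hσ0.le hσ1 x s f hf hxσ
    simpa [sub_eq_add_neg] using this
  have h2 : EE p x n (fun s => 512 * ((1 + σ) ^ s.1 * (1 - σ) ^ s.2 +
        (1 + (-σ)) ^ s.1 * (1 - (-σ)) ^ s.2)) ≤ 512 * (2 * Real.exp A) := by
    rw [EE_const_mul, EE_add]
    have e1 := EE_exp p x σ habs n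
    have e2 := EE_exp p x (-σ) (by rwa [abs_neg]) n
    have e3 : Real.exp (∑ i ∈ Finset.range n, |dr p i|) ≤ Real.exp A :=
      Real.exp_le_exp.2 (hA n)
    linarith
  have h3 : EE p x n (fun s => (σ * ((s.1 : ℝ) - s.2)) ^ 4) =
      σ ^ 4 * EE p x n (fun s => ((s.1 : ℝ) - s.2) ^ 4) := by
    rw [← EE_const_mul]
    refine EE_congr _ _ _ _ _ (fun s f _ _ _ => ?_)
    simp only
    ring
  rw [h3] at h1
  have h4 : σ ^ 4 = 1 / (4 * (x:ℝ) ^ 2) := by
    have : σ ^ 4 = (σ ^ 2) ^ 2 := by ring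
    rw [this, hσ2]
    field_simp
    ring
  rw [h4] at h1
  have h5 := h1.trans h2
  rw [div_mul_eq_mul_div, one_mul, div_le_iff₀ (by positivity)] at h5
  nlinarith [Real.exp_pos A]

/-- Second moment recursion. -/
lemma EE_second (p : ℕ → unitInterval) (x : ℕ) (V : ℝ)
    (hV : ∀ n, EE p x n (fun s => |(s.1 : ℝ) - s.2|) ≤ V) (n : ℕ) :
    |EE p x n (fun s => ((s.1 : ℝ) - s.2) ^ 2 - (s.1 + s.2))| ≤
      2 * V * ∑ i ∈ Finset.range n, |dr p i| := by
  induction n with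
  | zero => rw [EE_zero]; simp
  | succ n ih =>
    have h1 : EE p x (n+1) (fun s => ((s.1 : ℝ) - s.2) ^ 2 - (s.1 + s.2)) =
        EE p x n (fun s => ((s.1 : ℝ) - s.2) ^ 2 - (s.1 + s.2)) +
        EE p x n (fun s => if s.2 < x then 2 * dr p n * ((s.1 : ℝ) - s.2) else 0) := by
      rw [EE_succ, ← EE_add]
      refine EE_congr _ _ _ _ _ (fun s f _ _ _ => ?_)
      simp only
      split_ifs
      · unfold dr; push_cast; ring
      · simp
    have h2 : |EE p x n (fun s => if s.2 < x then 2 * dr p n * ((s.1 : ℝ) - s.2) else 0)| ≤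
        EE p x n (fun s => (2 * |dr p n|) * |(s.1 : ℝ) - s.2|) := by
      unfold EE
      refine (abs_integral_le_integral_abs).trans ?_
      refine integral_mono (integrable_st p x n (fun s => |if s.2 < x then 2 * dr p n * ((s.1 : ℝ) - s.2) else 0|))
        (integrable_st p x n (fun s => (2 * |dr p n|) * |(s.1 : ℝ) - s.2|)) (fun b => ?_)
      simp only
      split_ifs
      · rw [abs_mul, abs_mul]; simp
      · rw [abs_zero]; positivity
    rw [EE_const_mul] at h2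
    rw [h1, Finset.sum_range_succ]
    have h3 := hV n
    have h4 : 2 * |dr p n| * EE p x n (fun s => |(s.1 : ℝ) - s.2|) ≤ 2 * |dr p n| * V :=
      mul_le_mul_of_nonneg_left h3 (by positivity)
    calc _ ≤ _ := abs_add_le _ _
      _ ≤ 2 * V * ∑ i ∈ Finset.range n, |dr p i| + 2 * |dr p n| * V := by linarith
      _ = _ := by ring

/-- First absolute moment bound from the fourth moment. -/
lemma EE_abs (p : ℕ → unitInterval) (A : ℝ)
    (hA : ∀ n, ∑ i ∈ Finset.range n, |dr p i| ≤ A) (x : ℕ) (hx : 1 ≤ x) (n : ℕ) :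
    EE p x n (fun s => |(s.1 : ℝ) - s.2|) ≤ (1 + 4096 * Real.exp A) * Real.sqrt x := by
  have hx' : (1:ℝ) ≤ x := by exact_mod_cast hx
  have hs : 0 < Real.sqrt x := Real.sqrt_pos.2 (by linarith)
  have hs2 : Real.sqrt x ^ 2 = x := Real.sq_sqrt (by linarith)
  have h1 : EE p x n (fun s => |(s.1 : ℝ) - s.2|) ≤
      EE p x n (fun s => Real.sqrt x + (1 / Real.sqrt x ^ 3) * ((s.1 : ℝ) - s.2) ^ 4) := by
    refine EE_mono _ _ _ _ _ (fun s f _ _ _ => ?_)
    simp only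
    set y := |(s : ℝ) - f| with hy
    have e : ((s:ℝ) - f) ^ 4 = y ^ 4 := by
      rw [hy]; rw [show (4:ℕ) = 2 * 2 by norm_num, pow_mul, pow_mul, sq_abs]
    rw [e]
    have hy0 : 0 ≤ y := abs_nonneg _
    rcases le_total y (Real.sqrt x) with h | h
    · have : 0 ≤ 1 / Real.sqrt x ^ 3 * y ^ 4 := by positivity
      linarith
    · have : y ≤ 1 / Real.sqrt x ^ 3 * y ^ 4 := by
        rw [div_mul_eq_mul_div, one_mul, le_div_iff₀ (by positivity)]
        have : Real.sqrt x ^ 3 ≤ y ^ 3 := pow_le_pow_left₀ hs.le h 3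
        nlinarith
      linarith
  refine h1.trans ?_
  rw [EE_add, EE_const, EE_const_mul]
  have h2 := EE_four p A hA x hx n
  have h3 : 1 / Real.sqrt x ^ 3 * EE p x n (fun s => ((s.1 : ℝ) - s.2) ^ 4) ≤
      1 / Real.sqrt x ^ 3 * ((4096 * Real.exp A) * (x:ℝ) ^ 2) :=
    mul_le_mul_of_nonneg_left h2 (by positivity)
  have h4 : 1 / Real.sqrt x ^ 3 * ((4096 * Real.exp A) * (x:ℝ) ^ 2) =
      (4096 * Real.exp A) * Real.sqrt x := by
    have : (x:ℝ) ^ 2 = Real.sqrt x ^ 3 * Real.sqrt x := by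
      rw [← pow_succ]
      rw [show (3 + 1 : ℕ) = 2 * 2 by norm_num, pow_mul, hs2]
    rw [this]
    field_simp
  linarith

end R692.ERW
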