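import Pool.Agent.R692.ERW2

open MeasureTheory ProbabilityTheory Filter Topology
open scoped ENNReal

namespace R692.ERW

lemma abs_SS_le (p : ℕ → unitInterval) (A : ℝ)
    (hA : ∀ n, ∑ i ∈ Finset.range n, |dr p i| ≤ A) (n : ℕ) : |SS p n| ≤ A :=
  (Finset.abs_sum_le_sum_abs _ _).trans (hA n)

lemma EE_tau (p : ℕ → unitInterval) (A : ℝ)
    (hA : ∀ n, ∑ i ∈ Finset.range n, |dr p i| ≤ A) (x n : ℕ) :
    EE p x n (fun s => (s.1 : ℝ) + s.2) ≤ 2 * x + A := by
  have h1 : EE p x n (fun s => (s.1 : ℝ) + s.2) ≤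
      EE p x n (fun s => ((s.1 : ℝ) - s.2 - SS p (s.1 + s.2)) + (2 * x + A)) := by
    refine EE_mono _ _ _ _ _ (fun s f hf _ _ => ?_)
    simp only
    have := (abs_le.1 (abs_SS_le p A hA (s + f))).2
    have h2 : (f : ℝ) ≤ x := by exact_mod_cast hf
    linarith
  have h2 := EE_add p x n (fun s => (s.1 : ℝ) - s.2 - SS p (s.1 + s.2)) (fun _ => 2 * (x:ℝ) + A)
  rw [EE_first, EE_const] at h2
  linarith

lemma measurable_st (x n : ℕ) : Measurable (fun b : ℕ → Bool => st x b n) :=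
  measurable_dep n _ (fun b b' h => st_dep x n b b' h)

lemma fails_dep (n : ℕ) (b b' : ℕ → Bool) (h : ∀ i < n, b i = b' i) :
    fails b n = fails b' n := by
  induction n with
  | zero => simp [fails_zero]
  | succ n ih =>
    rw [fails_succ, fails_succ, ih (fun i hi => h i (by omega)), h n (by omega)]

lemma measurable_fails (n : ℕ) : Measurable (fun b : ℕ → Bool => fails b n) :=
  measurable_dep n _ (fun b b' h => fails_dep n b b' h)

lemma prob_fails (p : ℕ → unitInterval) (A : ℝ)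
    (hA : ∀ n, ∑ i ∈ Finset.range n, |dr p i| ≤ A) (x n : ℕ) :
    (n : ℝ) * (coins p).real {b | fails b n < x} ≤ 2 * x + A := by
  refine le_trans ?_ (EE_tau p A hA x n)
  have h1 : (n : ℝ) * (coins p).real {b | fails b n < x} =
      EE p x n (fun s => if s.2 < x then (n : ℝ) else 0) := by
    unfold EE
    have e : (fun b : ℕ → Bool => if (st x b n).2 < x then (n:ℝ) else 0) =
        ({b | fails b n < x} : Set (ℕ → Bool)).indicator (fun _ => (n:ℝ)) := by
      ext b
      simp only [Set.indicator_apply, Set.mem_ofPred_eq, st_lt_iff]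
    have hms : MeasurableSet {b : ℕ → Bool | fails b n < x} :=
      measurable_fails n measurableSet_Iio
    rw [e, integral_indicator_const _ hms]
    rw [smul_eq_mul, mul_comm]
  rw [h1]
  refine EE_mono _ _ _ _ _ (fun s f hf _ h3 => ?_)
  simp only
  split_ifs with h
  · have := h3 h
    exact_mod_cast this.ge
  · positivity

lemma ae_fails (p : ℕ → unitInterval) (A : ℝ)
    (hA : ∀ n, ∑ i ∈ Finset.range n, |dr p i| ≤ A) :
    ∀ᵐ b ∂(coins p), ∀ x, ∃ N, x ≤ fails b N := by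
  rw [ae_all_iff]
  intro x
  rw [ae_iff]
  have hsub : ∀ n, {b : ℕ → Bool | ¬ ∃ N, x ≤ fails b N} ⊆ {b | fails b n < x} := by
    intro n b hb
    simp only [Set.mem_ofPred_eq, not_exists, not_le] at hb ⊢
    exact hb n
  have h1 : ∀ n : ℕ, (n : ℝ) * (coins p).real {b : ℕ → Bool | ¬ ∃ N, x ≤ fails b N} ≤
      2 * x + A := by
    intro n
    refine le_trans ?_ (prob_fails p A hA x n)
    exact mul_le_mul_of_nonneg_left (measureReal_mono (hsub n)) (by positivity)
  by_contra hne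
  have hpos : 0 < (coins p).real {b : ℕ → Bool | ¬ ∃ N, x ≤ fails b N} :=
    ENNReal.toReal_pos hne (measure_ne_top _ _)
  obtain ⟨n, hn⟩ := exists_nat_gt ((2 * x + A) /
    (coins p).real {b : ℕ → Bool | ¬ ∃ N, x ≤ fails b N})
  rw [div_lt_iff₀ hpos] at hn
  linarith [h1 n]

lemma U_of_bounded (x : ℕ) (b : ℕ → Bool) (h : ¬ ∃ N, x ≤ fails b N) : U x b = 0 := by
  push Not at h
  apply Set.Infinite.ncard
  -- fails is bounded, hence eventually constant
  have hfin : ∃ M, ∀ n ≥ M, fails b n = fails b M := by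
    by_contra hc
    push Not at hc
    have : ∀ k : ℕ, ∃ n, k ≤ fails b n := by
      intro k
      induction k with
      | zero => exact ⟨0, Nat.zero_le _⟩
      | succ k ih =>
        obtain ⟨n, hn⟩ := ih
        obtain ⟨m, hm, hne⟩ := hc n
        refine ⟨m, ?_⟩
        have := fails_mono b hm
        omega
    obtain ⟨n, hn⟩ := this x
    exact absurd (h n) (by omega)
  obtain ⟨M, hM⟩ := hfin
  refine Set.infinite_of_forall_exists_gt (fun a => ⟨max a M + 1, ?_, by omega⟩)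
  refine ⟨?_, h _⟩
  have h1 := hM (max a M + 1) (by omega)
  have h2 := hM (max a M + 1 + 1) (by omega)
  rw [fails_succ, h1] at h2
  by_contra hb
  simp [hb] at h2

lemma measurable_U (x : ℕ) : Measurable (U x) := by
  have hg : ∀ n, Measurable (fun b : ℕ → Bool => if x ≤ fails b n then (st x b n).1 else 0) :=
    fun n => measurable_dep n _ (fun b b' h => by rw [fails_dep n b b' h, st_dep x n b b' h])
  refine measurable_of_tendsto_metrizable hg ?_
  rw [tendsto_pi_nhds]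
  intro b
  by_cases h : ∃ N, x ≤ fails b N
  · obtain ⟨N, hN⟩ := h
    refine tendsto_const_nhds.congr' ?_
    filter_upwards [eventually_ge_atTop N] with n hn
    have h1 : x ≤ fails b n := hN.trans (fails_mono b hn)
    rw [if_pos h1, st_eq_U x b n h1]
  · rw [U_of_bounded x b h]
    refine tendsto_const_nhds.congr' ?_
    filter_upwards with n
    rw [if_neg (fun h1 => h ⟨n, h1⟩)]

lemma U_zero (b : ℕ → Bool) : U 0 b = 0 := by simp [U]

/-- bound for the fourth power of the number of trials -/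
lemma EE_tau_four (p : ℕ → unitInterval) (A : ℝ)
    (hA : ∀ n, ∑ i ∈ Finset.range n, |dr p i| ≤ A) (x : ℕ) (hx : 1 ≤ x) (n : ℕ) :
    EE p x n (fun s => (1 + (s.1 : ℝ) + s.2) ^ 4) ≤
      8 * ((1 + 2 * x) ^ 4 + (4096 * Real.exp A) * (x:ℝ) ^ 2) := by
  have h1 : EE p x n (fun s => (1 + (s.1 : ℝ) + s.2) ^ 4) ≤
      EE p x n (fun s => 8 * ((1 + 2 * x) ^ 4 + ((s.1 : ℝ) - s.2) ^ 4)) := by
    refine EE_mono _ _ _ _ _ (fun s f hf _ _ => ?_)
    simp only
    set y := |(s : ℝ) - f| with hy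
    have e : ((s:ℝ) - f) ^ 4 = y ^ 4 := by
      rw [hy]; rw [show (4:ℕ) = 2 * 2 by norm_num, pow_mul, pow_mul, sq_abs]
    rw [e]
    have hy0 : 0 ≤ y := abs_nonneg _
    have h2 : (f : ℝ) ≤ x := by exact_mod_cast hf
    have h3 : 1 + (s : ℝ) + f ≤ (1 + 2 * x) + y := by
      have := le_abs_self ((s:ℝ) - f)
      rw [hy]; linarith
    have h4 : (1 + (s : ℝ) + f) ^ 4 ≤ ((1 + 2 * x) + y) ^ 4 :=
      pow_le_pow_left₀ (by positivity) h3 4
    refine h4.trans ?_
    have key : ∀ a c : ℝ, (a + c) ^ 4 ≤ 8 * (a ^ 4 + c ^ 4) := by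
      intro a c
      nlinarith [sq_nonneg (a - c), sq_nonneg (a + c), sq_nonneg (a ^ 2 - c ^ 2),
        mul_nonneg (sq_nonneg (a - c)) (sq_nonneg (a + c)), mul_nonneg (sq_nonneg (a - c)) (sq_nonneg a),
        mul_nonneg (sq_nonneg (a - c)) (sq_nonneg c), sq_nonneg (a * (a - c)), sq_nonneg (c * (a - c)),
        sq_nonneg ((a - c) ^ 2)]
    exact key _ _
  refine h1.trans ?_
  rw [EE_const_mul, EE_add, EE_const]
  have := EE_four p A hA x hx n
  linarith

lemma ae_tendsto (p : ℕ → unitInterval) (A : ℝ)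
    (hA : ∀ n, ∑ i ∈ Finset.range n, |dr p i| ≤ A) (x : ℕ) :
    ∀ᵐ b ∂(coins p), ∀ᶠ n in atTop, st x b n = (U x b, x) := by
  filter_upwards [ae_fails p A hA] with b hb
  obtain ⟨N, hN⟩ := hb x
  filter_upwards [eventually_ge_atTop N] with n hn
  exact st_eq_U x b n (hN.trans (fails_mono b hn))

lemma integrable_four (p : ℕ → unitInterval) (A : ℝ)
    (hA : ∀ n, ∑ i ∈ Finset.range n, |dr p i| ≤ A) (x : ℕ) :
    Integrable (fun b => (1 + (U x b : ℝ) + x) ^ 4) (coins p) := by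
  rcases Nat.eq_zero_or_pos x with rfl | hx
  · simp [U_zero]
  have hm : Measurable (fun b => (1 + (U x b : ℝ) + x) ^ 4) := by
    have := measurable_U x
    fun_prop
  refine ⟨hm.aestronglyMeasurable, ?_⟩
  rw [hasFiniteIntegral_iff_ofReal (Eventually.of_forall (fun b => by positivity))]
  have h1 : ∀ᵐ b ∂(coins p), ENNReal.ofReal ((1 + (U x b : ℝ) + x) ^ 4) =
      liminf (fun n => ENNReal.ofReal ((1 + ((st x b n).1 : ℝ) + (st x b n).2) ^ 4)) atTop := by
    filter_upwards [ae_tendsto p A hA x] with b hb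
    symm
    apply Tendsto.liminf_eq
    refine tendsto_const_nhds.congr' ?_
    filter_upwards [hb] with n hn
    rw [hn]
  rw [lintegral_congr_ae h1]
  have h2 : ∀ n, ∫⁻ b, ENNReal.ofReal ((1 + ((st x b n).1 : ℝ) + (st x b n).2) ^ 4) ∂(coins p) ≤
      ENNReal.ofReal (8 * ((1 + 2 * x) ^ 4 + (4096 * Real.exp A) * (x:ℝ) ^ 2)) := by
    intro n
    rw [← ofReal_integral_eq_lintegral_ofReal
      (integrable_st p x n (fun s => (1 + (s.1 : ℝ) + s.2) ^ 4))
      (Eventually.of_forall (fun b => by positivity))]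
    exact ENNReal.ofReal_le_ofReal (EE_tau_four p A hA x hx n)
  refine lt_of_le_of_lt (lintegral_liminf_le (fun n => ?_)) ?_
  · exact (measurable_dep n (fun b => ENNReal.ofReal ((1 + ((st x b n).1 : ℝ) + (st x b n).2) ^ 4))
      (fun b b' h => by simp only [st_dep x n b b' h]))
  · refine lt_of_le_of_lt ?_ (ENNReal.ofReal_lt_top
      (r := 8 * ((1 + 2 * x) ^ 4 + (4096 * Real.exp A) * (x:ℝ) ^ 2)))
    refine liminf_le_of_le (by isBoundedDefault) (fun c hc => ?_)
    obtain ⟨n, hn⟩ := hc.exists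
    exact hn.trans (h2 n)

lemma EE_tendsto (p : ℕ → unitInterval) (A : ℝ)
    (hA : ∀ n, ∑ i ∈ Finset.range n, |dr p i| ≤ A) (x : ℕ) (G : ℕ × ℕ → ℝ) (K : ℝ)
    (hG : ∀ s f : ℕ, |G (s, f)| ≤ K * (1 + s + f) ^ 4) (hK : 0 ≤ K) :
    Tendsto (fun n => EE p x n G) atTop (𝓝 (∫ b, G (U x b, x) ∂(coins p))) := by
  unfold EE
  refine tendsto_integral_of_dominated_convergence
    (fun b => K * (1 + (U x b : ℝ) + x) ^ 4) (fun n => ?_) ?_ (fun n => ?_) ?_
  · exact (integrable_st p x n G).aestronglyMeasurable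
  · exact (integrable_four p A hA x).const_mul K
  · filter_upwards [ae_fails p A hA] with b hb
    obtain ⟨N, hN⟩ := hb x
    rw [Real.norm_eq_abs]
    have h1 := hG (st x b n).1 (st x b n).2
    refine h1.trans ?_
    apply mul_le_mul_of_nonneg_left _ hK
    have h2 : ((st x b n).1 : ℝ) ≤ U x b := by exact_mod_cast st_fst_le_U x b N hN n
    have h3 : ((st x b n).2 : ℝ) ≤ x := by exact_mod_cast st_le x b n
    exact pow_le_pow_left₀ (by positivity) (by linarith) 4
  · filter_upwards [ae_tendsto p A hA x] with b hb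
    refine tendsto_const_nhds.congr' ?_
    filter_upwards [hb] with n hn
    rw [hn]

lemma integrable_of_bound (p : ℕ → unitInterval) (A : ℝ)
    (hA : ∀ n, ∑ i ∈ Finset.range n, |dr p i| ≤ A) (x : ℕ) (G : ℕ → ℝ) (K : ℝ)
    (hG : ∀ s : ℕ, |G s| ≤ K * (1 + s + x) ^ 4) :
    Integrable (fun b => G (U x b)) (coins p) := by
  refine Integrable.mono' ((integrable_four p A hA x).const_mul K) ?_ ?_
  · exact ((measurable_of_countable G).comp (measurable_U x)).aestronglyMeasurable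
  · filter_upwards with b
    rw [Real.norm_eq_abs]
    exact hG _

/-- First moment identity. -/
lemma first_moment (p : ℕ → unitInterval) (A : ℝ)
    (hA : ∀ n, ∑ i ∈ Finset.range n, |dr p i| ≤ A) (x : ℕ) :
    ∫ b, ((U x b : ℝ) - x) ∂(coins p) = ∫ b, SS p (U x b + x) ∂(coins p) := by
  have hA0 : 0 ≤ A := (abs_nonneg _).trans (abs_SS_le p A hA 0)
  have hb : ∀ s f : ℕ, (1:ℝ) + s + f ≤ (1 + s + f) ^ 4 := by
    intro s f
    have : (1:ℝ) ≤ 1 + s + f := by
      have : (0:ℝ) ≤ (s:ℝ) + f := by positivity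
      linarith
    calc (1:ℝ) + s + f = (1 + s + f) ^ 1 := by ring
      _ ≤ (1 + s + f) ^ 4 := pow_le_pow_right₀ this (by norm_num)
  have h1 := EE_tendsto p A hA x (fun s => (s.1 : ℝ) - s.2 - SS p (s.1 + s.2)) (1 + A)
    (fun s f => by
      simp only
      have h2 := abs_SS_le p A hA (s + f)
      have h3 : |(s:ℝ) - f| ≤ s + f := by
        rw [abs_le]; constructor <;> linarith [(Nat.cast_nonneg s : (0:ℝ) ≤ s), (Nat.cast_nonneg f : (0:ℝ) ≤ f)]
      have h4 := abs_sub ((s:ℝ) - f) (SS p (s + f))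
      have h5 := hb s f
      have h6 : (1:ℝ) ≤ (1 + s + f) ^ 4 := by
        have : (0:ℝ) ≤ (s:ℝ) + f := by positivity
        linarith
      nlinarith) (by linarith)
  have h2 : (fun n => EE p x n (fun s => (s.1 : ℝ) - s.2 - SS p (s.1 + s.2))) = fun _ => 0 := by
    ext n; exact EE_first p x n
  rw [h2] at h1
  have h3 := tendsto_nhds_unique h1 tendsto_const_nhds
  rw [integral_sub] at h3
  · linarith
  · refine integrable_of_bound p A hA x (fun s => (s:ℝ) - x) 1 (fun s => ?_)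
    have h5 := hb s x
    have h3 : |(s:ℝ) - x| ≤ s + x := by
        rw [abs_le]; constructor <;> linarith [(Nat.cast_nonneg s : (0:ℝ) ≤ s), (Nat.cast_nonneg x : (0:ℝ) ≤ x)]
    linarith
  · refine integrable_of_bound p A hA x (fun s => SS p (s + x)) A (fun s => ?_)
    have h2 := abs_SS_le p A hA (s + x)
    have h5 := hb s x
    have h6 : (1:ℝ) ≤ (1 + s + x) ^ 4 := by
        have : (0:ℝ) ≤ (s:ℝ) + x := by positivity
        linarith
    nlinarith

/-- Second moment estimate. -/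
lemma second_moment (p : ℕ → unitInterval) (A : ℝ)
    (hA : ∀ n, ∑ i ∈ Finset.range n, |dr p i| ≤ A) (x : ℕ) (hx : 1 ≤ x) :
    |∫ b, (((U x b : ℝ) - x) ^ 2 - (U x b + x)) ∂(coins p)| ≤
      2 * ((1 + 4096 * Real.exp A) * Real.sqrt x) * A := by
  have hA0 : 0 ≤ A := (abs_nonneg _).trans (abs_SS_le p A hA 0)
  have h1 := EE_tendsto p A hA x (fun s => ((s.1 : ℝ) - s.2) ^ 2 - (s.1 + s.2)) 2
    (fun s f => by
      simp only
      have h0 : (0:ℝ) ≤ (s:ℝ) + f := by positivity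
      have h2 : ((s:ℝ) - f) ^ 2 ≤ (1 + s + f) ^ 2 := by
        nlinarith [(Nat.cast_nonneg s : (0:ℝ) ≤ s), (Nat.cast_nonneg f : (0:ℝ) ≤ f)]
      have h3 : ((1:ℝ) + s + f) ^ 2 ≤ (1 + s + f) ^ 4 :=
        pow_le_pow_right₀ (by linarith) (by norm_num)
      have h4 : ((1:ℝ) + s + f) ^ 1 ≤ (1 + s + f) ^ 4 :=
        pow_le_pow_right₀ (by linarith) (by norm_num)
      rw [pow_one] at h4
      rw [abs_le]
      constructor <;> nlinarith [sq_nonneg ((s:ℝ) - f)]) (by norm_num)
  refine le_of_tendsto h1.abs (Eventually.of_forall (fun n => ?_))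
  refine (EE_second p x _ (EE_abs p A hA x hx) n).trans ?_
  exact mul_le_mul_of_nonneg_left (hA n) (by positivity)

/-- Fourth moment estimate. -/
lemma fourth_moment (p : ℕ → unitInterval) (A : ℝ)
    (hA : ∀ n, ∑ i ∈ Finset.range n, |dr p i| ≤ A) (x : ℕ) (hx : 1 ≤ x) :
    ∫ b, ((U x b : ℝ) - x) ^ 4 ∂(coins p) ≤ (4096 * Real.exp A) * (x:ℝ) ^ 2 := by
  have h1 := EE_tendsto p A hA x (fun s => ((s.1 : ℝ) - s.2) ^ 4) 1
    (fun s f => by
      simp only
      have h0 : (0:ℝ) ≤ (s:ℝ) + f := by positivity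
      have h3 : |(s:ℝ) - f| ≤ 1 + s + f := by
        rw [abs_le]; constructor <;> linarith [(Nat.cast_nonneg s : (0:ℝ) ≤ s), (Nat.cast_nonneg f : (0:ℝ) ≤ f)]
      rw [abs_pow, one_mul]
      exact pow_le_pow_left₀ (abs_nonneg _) h3 4) (by norm_num)
  exact le_of_tendsto h1 (Eventually.of_forall (fun n => EE_four p A hA x hx n))

end R692.ERW
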