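import Pool.Agent.R692.ERW3

open MeasureTheory ProbabilityTheory Filter Topology
open scoped ENNReal

namespace R692.ERW

/-! ### the environment -/

/-- partial sums of the drifts -/
noncomputable def S0 : ℕ → ℝ
  | 0 => 0
  | 1 => 1 / 2
  | (n+2) => 1 + 4 / Real.log ((n + 2 : ℕ) + Real.exp 16)

lemma log_ge (y : ℝ) (hy : 0 ≤ y) : 16 ≤ Real.log (y + Real.exp 16) := by
  rw [Real.le_log_iff_exp_le (by positivity)]
  linarith

lemma S0_ge_two (n : ℕ) (hn : 2 ≤ n) : S0 n = 1 + 4 / Real.log (n + Real.exp 16) := by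
  obtain ⟨m, rfl⟩ := Nat.exists_eq_add_of_le hn
  rw [add_comm 2 m]
  rfl

lemma S0_bounds (n : ℕ) (hn : 2 ≤ n) : 1 ≤ S0 n ∧ S0 n ≤ 5 / 4 := by
  rw [S0_ge_two n hn]
  have := log_ge n (by positivity)
  constructor
  · have : 0 ≤ 4 / Real.log (n + Real.exp 16) := by positivity
    linarith
  · have : 4 / Real.log (n + Real.exp 16) ≤ 1 / 4 := by
      rw [div_le_div_iff₀ (by linarith) (by norm_num)]
      linarith
    linarith

lemma S0_anti (n m : ℕ) (hn : 2 ≤ n) (hm : n ≤ m) : S0 m ≤ S0 n := by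
  rw [S0_ge_two n hn, S0_ge_two m (hn.trans hm)]
  have h1 := log_ge n (by positivity)
  have h2 : Real.log (n + Real.exp 16) ≤ Real.log (m + Real.exp 16) := by
    apply Real.log_le_log (by positivity)
    have : (n:ℝ) ≤ m := by exact_mod_cast hm
    linarith
  have : 4 / Real.log (m + Real.exp 16) ≤ 4 / Real.log (n + Real.exp 16) :=
    div_le_div_of_nonneg_left (by norm_num) (by linarith) h2
  linarith

lemma S0_zero : S0 0 = 0 := rfl
lemma S0_one : S0 1 = 1 / 2 := rfl

lemma S0_nonneg (n : ℕ) : 0 ≤ S0 n := by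
  match n with
  | 0 => rw [S0_zero]
  | 1 => rw [S0_one]; norm_num
  | (m+2) => linarith [(S0_bounds (m+2) (by omega)).1]

lemma S0_step (n : ℕ) : -(1/4) ≤ S0 (n+1) - S0 n ∧ S0 (n+1) - S0 n ≤ 3 / 4 := by
  match n with
  | 0 => rw [S0_zero, S0_one]; norm_num
  | 1 =>
    have := S0_bounds 2 le_rfl
    rw [S0_one]
    constructor <;> linarith
  | (m+2) =>
    have h1 := S0_bounds (m+2) (by omega)
    have h2 := S0_bounds (m+2+1) (by omega)
    constructor <;> linarith

/-- the cookie environment: `env i` is the strength of the `(i+1)`-st cookie -/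
noncomputable def env (i : ℕ) : unitInterval :=
  ⟨(1 + (S0 (i+1) - S0 i)) / 2, by
    have := S0_step i
    constructor <;> linarith⟩

lemma env_elliptic (i : ℕ) : 1 / 8 ≤ (env i : ℝ) ∧ (env i : ℝ) ≤ 1 - 1 / 8 := by
  have := S0_step i
  simp only [env]
  constructor <;> linarith

lemma dr_env (i : ℕ) : dr env i = S0 (i+1) - S0 i := by
  simp only [dr, env]; ring

lemma SS_env (n : ℕ) : SS env n = S0 n := by
  induction n with
  | zero => simp [SS, S0_zero]
  | succ n ih => rw [SS_succ, ih, dr_env]; ring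

lemma sum_abs_env (n : ℕ) : ∑ i ∈ Finset.range n, |dr env i| ≤ 3 / 2 := by
  have h2 : ∀ m : ℕ, ∑ i ∈ Finset.range (m+2), |dr env i| = 2 * S0 2 - S0 (m+2) := by
    intro m
    induction m with
    | zero =>
      rw [Finset.sum_range_succ, Finset.sum_range_succ, Finset.sum_range_zero, dr_env, dr_env]
      have := S0_bounds 2 le_rfl
      rw [S0_zero, S0_one, abs_of_nonneg (by norm_num), abs_of_nonneg (by linarith)]
      ring
    | succ m ih =>
      rw [Finset.sum_range_succ, ih, dr_env, abs_of_nonpos]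
      · ring
      · have := S0_anti (m+2) (m+2+1) (by omega) (by omega)
        linarith
  have h3 : ∑ i ∈ Finset.range n, |dr env i| ≤ ∑ i ∈ Finset.range (n+2), |dr env i| :=
    Finset.sum_le_sum_of_subset_of_nonneg (Finset.range_mono (by omega))
      (fun i _ _ => abs_nonneg _)
  rw [h2] at h3
  have h4 := S0_bounds 2 le_rfl
  have h5 := S0_bounds (n+2) (by omega)
  linarith

/-! ### first two moments -/

/-- `ρ(x) = E[U(x) - x]` -/
noncomputable def rho (x : ℕ) : ℝ := ∫ b, ((U x b : ℝ) - x) ∂(coins env)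

/-- `E[(U(x)-x)^2]` -/
noncomputable def sec (x : ℕ) : ℝ := ∫ b, ((U x b : ℝ) - x) ^ 2 ∂(coins env)

lemma rho_eq (x : ℕ) : rho x = ∫ b, S0 (U x b + x) ∂(coins env) := by
  rw [rho, first_moment env (3/2) sum_abs_env]
  simp_rw [SS_env]

lemma S0_abs (n : ℕ) : |S0 n| ≤ 3 / 2 := by
  have := abs_SS_le env (3/2) sum_abs_env n
  rwa [SS_env] at this

lemma one_le_four (s x : ℕ) : (1:ℝ) ≤ (1 + s + x) ^ 4 := by
  apply one_le_pow₀
  have : (0:ℝ) ≤ (s:ℝ) + x := by positivity
  linarith

lemma self_le_four (s x : ℕ) : (1:ℝ) + s + x ≤ (1 + s + x) ^ 4 := by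
  have : (1:ℝ) ≤ 1 + s + x := by
    have : (0:ℝ) ≤ (s:ℝ) + x := by positivity
    linarith
  calc (1:ℝ) + s + x = (1 + s + x) ^ 1 := by ring
    _ ≤ (1 + s + x) ^ 4 := pow_le_pow_right₀ this (by norm_num)

lemma integrable_bdd (x : ℕ) (G : ℕ → ℝ) (K : ℝ) (hG : ∀ s, |G s| ≤ K) :
    Integrable (fun b => G (U x b)) (coins env) := by
  refine integrable_of_bound env (3/2) sum_abs_env x G K (fun s => ?_)
  have h0 : 0 ≤ K := (abs_nonneg _).trans (hG 0)
  have h1 := one_le_four s x
  nlinarith [hG s]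

lemma rho_ge (x : ℕ) (hx : 2 ≤ x) : 1 ≤ rho x := by
  rw [rho_eq]
  have h1 : ∫ b, (1:ℝ) ∂(coins env) ≤ ∫ b, S0 (U x b + x) ∂(coins env) := by
    refine integral_mono (integrable_const _)
      (integrable_bdd x (fun s => S0 (s + x)) (3/2) (fun s => S0_abs _)) (fun b => ?_)
    exact (S0_bounds _ (by omega)).1
  simpa using h1

lemma rho_le (x : ℕ) (hx : 2 ≤ x) : rho x ≤ S0 x := by
  rw [rho_eq]
  have h1 : ∫ b, S0 (U x b + x) ∂(coins env) ≤ ∫ b, S0 x ∂(coins env) := by
    refine integral_mono (integrable_bdd x (fun s => S0 (s + x)) (3/2) (fun s => S0_abs _))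
      (integrable_const _) (fun b => ?_)
    exact S0_anti _ _ hx (by omega)
  simpa using h1

lemma integrable_U (x : ℕ) : Integrable (fun b => (U x b : ℝ)) (coins env) :=
  integrable_of_bound env (3/2) sum_abs_env x (fun s => (s:ℝ)) 1 (fun s => by
    have := self_le_four s x
    rw [abs_of_nonneg (by positivity)]
    have : (0:ℝ) ≤ x := by positivity
    linarith)

lemma integral_U (x : ℕ) : ∫ b, (U x b : ℝ) ∂(coins env) = x + rho x := by
  rw [rho, integral_sub (integrable_U x) (integrable_const _)]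
  simp

lemma integrable_sq (x : ℕ) : Integrable (fun b => ((U x b : ℝ) - x) ^ 2) (coins env) :=
  integrable_of_bound env (3/2) sum_abs_env x (fun s => ((s:ℝ) - x) ^ 2) 1 (fun s => by
    have h0 : (0:ℝ) ≤ (s:ℝ) + x := by positivity
    have h2 : ((s:ℝ) - x) ^ 2 ≤ (1 + s + x) ^ 2 := by
      nlinarith [(Nat.cast_nonneg s : (0:ℝ) ≤ s), (Nat.cast_nonneg x : (0:ℝ) ≤ x)]
    have h3 : ((1:ℝ) + s + x) ^ 2 ≤ (1 + s + x) ^ 4 :=
        pow_le_pow_right₀ (by linarith) (by norm_num)
    rw [abs_of_nonneg (by positivity)]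
    linarith)

/-- constant in the second moment estimate -/
noncomputable def C2 : ℝ := 2 * ((1 + 4096 * Real.exp (3/2))) * (3/2)

lemma sec_bound (x : ℕ) (hx : 1 ≤ x) : |sec x - (2 * x + rho x)| ≤ C2 * Real.sqrt x := by
  have h1 := second_moment env (3/2) sum_abs_env x hx
  have h2 : ∫ b, (((U x b : ℝ) - x) ^ 2 - (U x b + x)) ∂(coins env) =
      sec x - (2 * x + rho x) := by
    have hi : Integrable (fun b => (U x b : ℝ) + x) (coins env) :=
      (integrable_U x).add (integrable_const _)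
    rw [integral_sub (integrable_sq x) hi,
      integral_add (integrable_U x) (integrable_const _), integral_U]
    simp [sec]
    ring
  rw [h2] at h1
  refine h1.trans (le_of_eq ?_)
  unfold C2
  ring

lemma tendsto_S0 : Tendsto S0 atTop (𝓝 1) := by
  have h1 : Tendsto (fun n : ℕ => 1 + 4 / Real.log (n + Real.exp 16)) atTop (𝓝 (1 + 0)) := by
    apply Tendsto.const_add
    apply Tendsto.div_atTop tendsto_const_nhds
    exact Real.tendsto_log_atTop.comp (tendsto_atTop_add_const_right _ _ tendsto_natCast_atTop_atTop)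
  rw [add_zero] at h1
  refine h1.congr' ?_
  filter_upwards [eventually_ge_atTop 2] with n hn
  rw [S0_ge_two n hn]

lemma tendsto_rho : Tendsto rho atTop (𝓝 1) := by
  refine tendsto_of_tendsto_of_tendsto_of_le_of_le' tendsto_const_nhds tendsto_S0 ?_ ?_
  · filter_upwards [eventually_ge_atTop 2] with n hn using rho_ge n hn
  · filter_upwards [eventually_ge_atTop 2] with n hn using rho_le n hn

lemma tendsto_mu : Tendsto (fun x : ℕ => (∫ b, (U x b : ℝ) ∂(coins env)) / x) atTop (𝓝 1) := by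
  have h1 : Tendsto (fun x : ℕ => 1 + rho x / x) atTop (𝓝 (1 + 0)) :=
    (tendsto_rho.div_atTop tendsto_natCast_atTop_atTop).const_add 1
  rw [add_zero] at h1
  refine h1.congr' ?_
  filter_upwards [eventually_ge_atTop 1] with x hx
  rw [integral_U]
  have : (x:ℝ) ≠ 0 := by positivity
  field_simp

lemma tendsto_sec : Tendsto (fun x : ℕ => sec x / x) atTop (𝓝 2) := by
  have h1 : Tendsto (fun x : ℕ => (2 + rho x / x) - C2 / Real.sqrt x) atTop (𝓝 (2 + 0 - 0)) := by
    refine ((tendsto_rho.div_atTop tendsto_natCast_atTop_atTop).const_add 2).sub ?_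
    exact tendsto_const_nhds.div_atTop (Real.tendsto_sqrt_atTop.comp tendsto_natCast_atTop_atTop)
  have h2 : Tendsto (fun x : ℕ => (2 + rho x / x) + C2 / Real.sqrt x) atTop (𝓝 (2 + 0 + 0)) := by
    refine ((tendsto_rho.div_atTop tendsto_natCast_atTop_atTop).const_add 2).add ?_
    exact tendsto_const_nhds.div_atTop (Real.tendsto_sqrt_atTop.comp tendsto_natCast_atTop_atTop)
  simp only [add_zero, sub_zero] at h1 h2
  have key : ∀ x : ℕ, 1 ≤ x → |sec x / x - (2 + rho x / x)| ≤ C2 / Real.sqrt x := by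
    intro x hx
    have hx' : (0:ℝ) < x := by exact_mod_cast hx
    have h3 := sec_bound x hx
    have e : sec x / x - (2 + rho x / x) = (sec x - (2 * x + rho x)) / x := by
      field_simp
    rw [e, abs_div, abs_of_pos hx', div_le_div_iff₀ hx' (Real.sqrt_pos.2 hx')]
    have hs : Real.sqrt x * Real.sqrt x = x := Real.mul_self_sqrt hx'.le
    calc _ ≤ C2 * Real.sqrt x * Real.sqrt x :=
          mul_le_mul_of_nonneg_right h3 (Real.sqrt_nonneg _)
      _ = C2 * x := by rw [mul_assoc, hs]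
  refine tendsto_of_tendsto_of_tendsto_of_le_of_le' h1 h2 ?_ ?_
  · filter_upwards [eventually_ge_atTop 1] with x hx
    have := (abs_le.1 (key x hx)).1
    linarith
  · filter_upwards [eventually_ge_atTop 1] with x hx
    have := (abs_le.1 (key x hx)).2
    linarith

lemma tendsto_theta : Tendsto (fun x : ℕ => 2 * rho x / (sec x / x)) atTop (𝓝 1) := by
  have := (tendsto_rho.const_mul 2).div tendsto_sec (by norm_num)
  norm_num at this
  exact this

/-! ### the Lyapunov function `1 / log (y + e)` -/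

lemma lyap_point (X d : ℝ) (hX : Real.exp 1 ≤ X) (hd : Real.exp 1 ≤ X + d) :
    1 / Real.log (X + d) ≤ 1 / Real.log X - (d / X) / Real.log X ^ 2 +
      (d / X) ^ 2 * (1 / (2 * Real.log X ^ 2) + 1 / Real.log X ^ 3) + 16 * |d / X| ^ 3 := by
  have hX0 : 0 < X := lt_of_lt_of_le (Real.exp_pos 1) hX
  have hXd0 : 0 < X + d := lt_of_lt_of_le (Real.exp_pos 1) hd
  set L := Real.log X with hL
  have hL1 : 1 ≤ L := by rw [hL, Real.le_log_iff_exp_le hX0]; exact hX
  set δ := d / X with hδ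
  set u := Real.log (1 + δ) with hu
  have h1δ : 0 < 1 + δ := by
    have : 1 + δ = (X + d) / X := by rw [hδ]; field_simp
    rw [this]; positivity
  have hlog : Real.log (X + d) = L + u := by
    have : X + d = X * (1 + δ) := by rw [hδ]; field_simp
    rw [this, Real.log_mul hX0.ne' h1δ.ne']
  have hLu : 1 ≤ L + u := by rw [← hlog, Real.le_log_iff_exp_le hXd0]; exact hd
  rw [hlog]
  have hL0 : 0 < L := by linarith
  have hLu0 : 0 < L + u := by linarith
  have ident : 1 / (L + u) = 1 / L - u / L ^ 2 + u ^ 2 / L ^ 3 - u ^ 3 / (L ^ 3 * (L + u)) := by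
    field_simp
    ring
  have i1 : 0 ≤ 1 / L := by positivity
  have iL2 : 1 / L ^ 2 ≤ 1 := by
    rw [div_le_one (by positivity)]; exact one_le_pow₀ hL1
  have iL3 : 1 / L ^ 3 ≤ 1 := by
    rw [div_le_one (by positivity)]; exact one_le_pow₀ hL1
  have iL2' : 0 ≤ 1 / L ^ 2 := by positivity
  have iL3' : 0 ≤ 1 / L ^ 3 := by positivity
  have split : δ ^ 2 * (1 / (2 * L ^ 2) + 1 / L ^ 3) = (δ ^ 2 / 2) * (1 / L ^ 2) + δ ^ 2 * (1 / L ^ 3) := by
    field_simp
  rw [split]
  rcases le_or_gt 0 δ with h0 | h0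
  · -- nonnegative increments
    have hu0 : 0 ≤ u := Real.log_nonneg (by linarith)
    have hu1 : u ≤ δ := by
      have := Real.log_le_sub_one_of_pos h1δ
      linarith
    have hu2 : δ - δ ^ 2 / 2 ≤ u := by
      have h2 := Real.le_log_one_add_of_nonneg h0
      refine le_trans ?_ h2
      rw [le_div_iff₀ (by linarith)]
      nlinarith [pow_nonneg h0 3]
    have h3 : 0 ≤ u ^ 3 / (L ^ 3 * (L + u)) := by positivity
    have h4 : u ^ 2 / L ^ 3 ≤ δ ^ 2 * (1 / L ^ 3) := by
      rw [div_eq_mul_one_div]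
      apply mul_le_mul_of_nonneg_right _ iL3'
      nlinarith
    have h5 : - (u / L ^ 2) ≤ -(δ / L ^ 2) + (δ ^ 2 / 2) * (1 / L ^ 2) := by
      rw [div_eq_mul_one_div u, div_eq_mul_one_div δ]
      nlinarith
    have h6 : 0 ≤ 16 * |δ| ^ 3 := by positivity
    rw [ident]
    linarith
  · rcases le_or_gt (-(1/2)) δ with h2 | h2
    · -- moderate negative increments
      set t := -δ with ht
      have ht0 : 0 < t := by linarith
      have ht1 : t ≤ 1 / 2 := by linarith
      have habs : |δ| = t := abs_of_neg h0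
      have hser := Real.abs_log_sub_add_sum_range_le (x := t) (by rw [abs_of_pos ht0]; linarith) 2
      rw [Finset.sum_range_succ, Finset.sum_range_succ, Finset.sum_range_zero,
        abs_of_pos ht0] at hser
      have hut : Real.log (1 - t) = u := by rw [hu, ht]; ring_nf
      rw [hut] at hser
      have hden : t ^ (2+1) / (1 - t) ≤ 2 * t ^ 3 := by
        rw [div_le_iff₀ (by linarith)]
        have := mul_nonneg (pow_pos ht0 3).le (by linarith : (0:ℝ) ≤ 1 - 2 * t)
        have e : t ^ (2+1) = t ^ 3 := by norm_num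
        rw [e]
        linarith
      have hu_lo : -(t + t ^ 2 / 2 + 2 * t ^ 3) ≤ u := by
        have := (abs_le.1 (hser.trans hden)).1
        norm_num at this
        linarith
      have hu_neg : u ≤ 0 := Real.log_nonpos (by linarith) (by linarith)
      set v := -u with hv
      have hv0 : 0 ≤ v := by linarith
      have hv1 : v ≤ t + t ^ 2 / 2 + 2 * t ^ 3 := by linarith
      have q2 : t ^ 2 ≤ t * (1/2) := by
        have := mul_le_mul_of_nonneg_left ht1 ht0.le
        calc t ^ 2 = t * t := by ring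
          _ ≤ t * (1/2) := this
      have q3 : t ^ 3 ≤ t ^ 2 * (1/2) := by
        have := mul_le_mul_of_nonneg_left ht1 (pow_pos ht0 2).le
        calc t ^ 3 = t ^ 2 * t := by ring
          _ ≤ t ^ 2 * (1/2) := this
      have q4 : t ^ 4 ≤ t ^ 3 * (1/2) := by
        have := mul_le_mul_of_nonneg_left ht1 (pow_pos ht0 3).le
        calc t ^ 4 = t ^ 3 * t := by ring
          _ ≤ t ^ 3 * (1/2) := this
      have r3 : 0 < t ^ 3 := pow_pos ht0 3
      have hv2 : v ≤ t + (3/2) * t ^ 2 := by linarith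
      have hv3 : v ≤ (7/4) * t := by linarith
      have hvsq : v ^ 2 ≤ t ^ 2 + 5 * t ^ 3 := by
        have h9 : v ^ 2 ≤ (t + (3/2) * t ^ 2) ^ 2 := pow_le_pow_left₀ hv0 hv2 2
        have e9 : (t + (3/2) * t ^ 2) ^ 2 = t ^ 2 + 3 * t ^ 3 + (9/4) * t ^ 4 := by ring
        rw [e9] at h9
        linarith
      have hvcu : v ^ 3 ≤ 6 * t ^ 3 := by
        have h9 : v ^ 3 ≤ ((7/4) * t) ^ 3 := pow_le_pow_left₀ hv0 hv3 3
        have e9 : ((7/4) * t) ^ 3 = (343/64) * t ^ 3 := by ring
        rw [e9] at h9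
        linarith
      have e1 : u ^ 3 / (L ^ 3 * (L + u)) = -(v ^ 3 / (L ^ 3 * (L + u))) := by
        rw [hv]; ring
      have e2 : v ^ 3 / (L ^ 3 * (L + u)) ≤ v ^ 3 := by
        apply div_le_self (pow_nonneg hv0 3)
        have h9 : 1 ≤ L ^ 3 := one_le_pow₀ hL1
        exact one_le_mul_of_one_le_of_one_le h9 hLu
      have e3 : u ^ 2 / L ^ 3 = v ^ 2 * (1 / L ^ 3) := by rw [hv]; ring
      have e4 : u / L ^ 2 = - (v * (1 / L ^ 2)) := by rw [hv]; ring
      have e5 : δ / L ^ 2 = - (t * (1 / L ^ 2)) := by rw [ht]; ring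
      have e6 : δ ^ 2 = t ^ 2 := by rw [ht]; ring
      rw [ident, e1, e3, e4, e5, e6, habs]
      have a1 : v * (1 / L ^ 2) ≤ (t + t ^ 2 / 2) * (1 / L ^ 2) + 2 * t ^ 3 := by
        have : v * (1 / L ^ 2) ≤ (t + t ^ 2 / 2 + 2 * t ^ 3) * (1 / L ^ 2) :=
          mul_le_mul_of_nonneg_right hv1 iL2'
        have h7 : 2 * t ^ 3 * (1 / L ^ 2) ≤ 2 * t ^ 3 * 1 :=
          mul_le_mul_of_nonneg_left iL2 (by positivity)
        linarith
      have a2 : v ^ 2 * (1 / L ^ 3) ≤ t ^ 2 * (1 / L ^ 3) + 5 * t ^ 3 := by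
        have : v ^ 2 * (1 / L ^ 3) ≤ (t ^ 2 + 5 * t ^ 3) * (1 / L ^ 3) :=
          mul_le_mul_of_nonneg_right hvsq iL3'
        have h7 : 5 * t ^ 3 * (1 / L ^ 3) ≤ 5 * t ^ 3 * 1 :=
          mul_le_mul_of_nonneg_left iL3 (by positivity)
        linarith
      have h8 : 0 < t ^ 3 := by positivity
      linarith
    · -- large negative increments
      have h3 : 1 / (L + u) ≤ 1 := by
        rw [div_le_one hLu0]; exact hLu
      have h4 : 1 / 8 ≤ |δ| ^ 3 := by
        have : 1 / 2 ≤ |δ| := by rw [abs_of_neg h0]; linarith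
        calc (1:ℝ) / 8 = (1/2) ^ 3 := by norm_num
          _ ≤ |δ| ^ 3 := pow_le_pow_left₀ (by norm_num) this 3
      have h5 : 0 ≤ -(δ / L ^ 2) := by
        rw [div_eq_mul_one_div]
        nlinarith
      have h6 : 0 ≤ (δ ^ 2 / 2) * (1 / L ^ 2) := by positivity
      have h7 : 0 ≤ δ ^ 2 * (1 / L ^ 3) := by positivity
      linarith

end R692.ERW
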