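import Pool.Agent.R692.ERW4

open MeasureTheory ProbabilityTheory Filter Topology
open scoped ENNReal

namespace R692.ERW

/-- tangent line bound for `1/log` -/
lemma inv_log_tangent (y m : ℝ) (hy : 1 < y) (hm : 1 < m) :
    1 / Real.log m - (y - m) / (m * Real.log m ^ 2) ≤ 1 / Real.log y := by
  have hL : 0 < Real.log m := Real.log_pos hm
  have hLy : 0 < Real.log y := Real.log_pos hy
  have hm0 : 0 < m := by linarith
  have hy0 : 0 < y := by linarith
  have h1 : Real.log y ≤ Real.log m + (y - m) / m := by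
    have h2 : Real.log (y / m) ≤ y / m - 1 := Real.log_le_sub_one_of_pos (by positivity)
    rw [Real.log_div hy0.ne' hm0.ne'] at h2
    have : (y - m) / m = y / m - 1 := by field_simp
    linarith
  set L := Real.log m with hLdef
  set u := (y - m) / m with hu
  have h3 : 0 < L + u := lt_of_lt_of_le hLy h1
  have h4 : 1 / (L + u) ≤ 1 / Real.log y := one_div_le_one_div_of_le hLy h1
  refine le_trans ?_ h4
  have e : (y - m) / (m * L ^ 2) = u / L ^ 2 := by rw [hu]; field_simp
  rw [e, le_div_iff₀ h3]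
  have : (1 / L - u / L ^ 2) * (L + u) = 1 - (u / L) ^ 2 := by
    field_simp
    ring
  rw [this]
  have := sq_nonneg (u / L)
  linarith

/-- quantitative lower bound of the drift -/
lemma rho_lower (x : ℕ) (hx : 2 ≤ x) : 1 + 4 / Real.log (2 * x + 2 + Real.exp 16) ≤ rho x := by
  set m : ℝ := 2 * x + 2 + Real.exp 16 with hm
  have hE : 0 < Real.exp 16 := Real.exp_pos _
  have hm1 : 1 < m := by
    have : (0:ℝ) ≤ x := by positivity
    linarith
  have hlogm : 16 ≤ Real.log m := by
    rw [hm]; exact log_ge (2 * x + 2) (by positivity)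
  rw [rho_eq]
  have h1 : ∫ b, (1 + 4 * (1 / Real.log m - (((U x b : ℝ) + (x + Real.exp 16)) - m) / (m * Real.log m ^ 2)))
      ∂(coins env) ≤ ∫ b, S0 (U x b + x) ∂(coins env) := by
    refine integral_mono ?_ (integrable_bdd x (fun s => S0 (s + x)) (3/2) (fun s => S0_abs _))
      (fun b => ?_)
    · refine (integrable_const _).add (Integrable.const_mul ?_ _)
      refine (integrable_const _).sub (Integrable.div_const ?_ _)
      exact ((integrable_U x).add (integrable_const _)).sub (integrable_const _)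
    · simp only
      rw [S0_ge_two _ (by omega)]
      have hy : (1:ℝ) < (U x b : ℝ) + (x + Real.exp 16) := by
        have h2 : (2:ℝ) ≤ x := by exact_mod_cast hx
        have : (0:ℝ) ≤ U x b := by positivity
        linarith
      have h3 := inv_log_tangent _ m hy hm1
      have e : ((U x b + x : ℕ) : ℝ) + Real.exp 16 = (U x b : ℝ) + (x + Real.exp 16) := by
        push_cast; ring
      rw [e]
      have e2 : 4 / Real.log ((U x b : ℝ) + (x + Real.exp 16)) =
        4 * (1 / Real.log ((U x b : ℝ) + (x + Real.exp 16))) := by ring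
      rw [e2]
      linarith
  refine le_trans ?_ h1
  have hiU := integrable_U x
  have i1 : Integrable (fun b => (U x b : ℝ) + (x + Real.exp 16)) (coins env) :=
    hiU.add (integrable_const _)
  have i2 : Integrable (fun b => (U x b : ℝ) + (x + Real.exp 16) - m) (coins env) :=
    i1.sub (integrable_const _)
  have i3 : Integrable (fun b => ((U x b : ℝ) + (x + Real.exp 16) - m) / (m * Real.log m ^ 2))
    (coins env) := i2.div_const _
  have i4 : Integrable (fun b => 1 / Real.log m -
    ((U x b : ℝ) + (x + Real.exp 16) - m) / (m * Real.log m ^ 2)) (coins env) :=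
    (integrable_const _).sub i3
  have e_int : ∫ b, ((U x b : ℝ) + (x + Real.exp 16) - m) / (m * Real.log m ^ 2) ∂(coins env) =
      (↑x + rho x + (↑x + Real.exp 16) - m) / (m * Real.log m ^ 2) := by
    rw [integral_div, integral_sub i1 (integrable_const _),
      integral_add hiU (integrable_const _), integral_U]
    simp only [integral_const, smul_eq_mul, probReal_univ, one_mul]
  rw [integral_add (integrable_const _) (i4.const_mul 4), integral_const_mul,
    integral_sub (integrable_const _) i3, e_int]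
  simp only [integral_const, smul_eq_mul, probReal_univ, one_mul]
  have hr : rho x ≤ 2 := by
    have := rho_le x hx
    have := (S0_bounds x hx).2
    linarith
  have hneg : (↑x + rho x + (↑x + Real.exp 16) - m) / (m * Real.log m ^ 2) ≤ 0 := by
    apply div_nonpos_of_nonpos_of_nonneg
    · rw [hm]; linarith
    · positivity
  have e3 : 4 / Real.log m = 4 * (1 / Real.log m) := by ring
  rw [e3]
  linarith

/-- fourth moment constant -/
noncomputable def C4 : ℝ := 4096 * Real.exp (3/2)

lemma integrable_fourth (x : ℕ) : Integrable (fun b => ((U x b : ℝ) - x) ^ 4) (coins env) :=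
  integrable_of_bound env (3/2) sum_abs_env x (fun s => ((s:ℝ) - x) ^ 4) 1 (fun s => by
    have h0 : (0:ℝ) ≤ (s:ℝ) + x := by positivity
    have h3 : |(s:ℝ) - x| ≤ 1 + s + x := by
        rw [abs_le]; constructor <;> linarith [(Nat.cast_nonneg s : (0:ℝ) ≤ s), (Nat.cast_nonneg x : (0:ℝ) ≤ x)]
    rw [abs_pow, one_mul]
    exact pow_le_pow_left₀ (abs_nonneg _) h3 4)

/-- pointwise bound of the Lyapunov function by a polynomial in the increment -/
lemma lyap_poly (x s : ℕ) (hx : 1 ≤ x) :
    1 / Real.log (s + Real.exp 1) ≤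
      (1 / Real.log (x + Real.exp 1) + 16 * (x * Real.sqrt x) / (x + Real.exp 1) ^ 3)
      + (-(1 / ((x + Real.exp 1) * Real.log (x + Real.exp 1) ^ 2))) * ((s:ℝ) - x)
      + ((1 / (2 * Real.log (x + Real.exp 1) ^ 2) + 1 / Real.log (x + Real.exp 1) ^ 3) /
          (x + Real.exp 1) ^ 2) * ((s:ℝ) - x) ^ 2
      + (16 / (Real.sqrt x * (x + Real.exp 1) ^ 3)) * ((s:ℝ) - x) ^ 4 := by
  have hx' : (1:ℝ) ≤ x := by exact_mod_cast hx
  have he : 0 < Real.exp 1 := Real.exp_pos 1
  set X : ℝ := x + Real.exp 1 with hX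
  have hXpos : 0 < X := by positivity
  set d : ℝ := (s:ℝ) - x with hd
  have hsX : (s:ℝ) + Real.exp 1 = X + d := by rw [hX, hd]; ring
  have h1 := lyap_point X d (by rw [hX]; linarith) (by rw [← hsX]; linarith [(Nat.cast_nonneg s : (0:ℝ) ≤ s)])
  rw [hsX]
  refine h1.trans ?_
  have hs : 0 < Real.sqrt x := Real.sqrt_pos.2 (by linarith)
  have hs2 : Real.sqrt x * Real.sqrt x = x := Real.mul_self_sqrt (by linarith)
  -- cube bound
  have hcube : |d| ^ 3 ≤ x * Real.sqrt x + d ^ 4 / Real.sqrt x := by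
    have e : d ^ 4 = |d| ^ 4 := by
      rw [show (4:ℕ) = 2 * 2 by norm_num, pow_mul, pow_mul, sq_abs]
    rw [e]
    have hd0 := abs_nonneg d
    rcases le_total |d| (Real.sqrt x) with h | h
    · have h2 : |d| ^ 3 ≤ Real.sqrt x ^ 3 := pow_le_pow_left₀ hd0 h 3
      have h3 : Real.sqrt x ^ 3 = x * Real.sqrt x := by
        calc Real.sqrt x ^ 3 = (Real.sqrt x * Real.sqrt x) * Real.sqrt x := by ring
          _ = _ := by rw [hs2]
      have h4 : 0 ≤ |d| ^ 4 / Real.sqrt x := by positivity
      linarith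
    · have h2 : |d| ^ 3 ≤ |d| ^ 4 / Real.sqrt x := by
        rw [le_div_iff₀ hs]
        calc |d| ^ 3 * Real.sqrt x ≤ |d| ^ 3 * |d| :=
              mul_le_mul_of_nonneg_left h (by positivity)
          _ = |d| ^ 4 := by ring
      have h4 : 0 ≤ (x:ℝ) * Real.sqrt x := by positivity
      linarith
  have h5 : 16 * |d / X| ^ 3 ≤ 16 * (x * Real.sqrt x) / X ^ 3 + (16 / (Real.sqrt x * X ^ 3)) * d ^ 4 := by
    rw [abs_div, abs_of_pos hXpos, div_pow]
    have e : 16 * (x * Real.sqrt x) / X ^ 3 + (16 / (Real.sqrt x * X ^ 3)) * d ^ 4 =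
        16 * ((x * Real.sqrt x + d ^ 4 / Real.sqrt x) / X ^ 3) := by
      field_simp
    rw [e]
    have : |d| ^ 3 / X ^ 3 ≤ (x * Real.sqrt x + d ^ 4 / Real.sqrt x) / X ^ 3 :=
      div_le_div_of_nonneg_right hcube (by positivity)
    linarith
  have e2 : (d / X) / Real.log X ^ 2 = (1 / (X * Real.log X ^ 2)) * d := by
    rw [div_div]; ring
  have e3 : (d / X) ^ 2 * (1 / (2 * Real.log X ^ 2) + 1 / Real.log X ^ 3) =
    ((1 / (2 * Real.log X ^ 2) + 1 / Real.log X ^ 3) / X ^ 2) * d ^ 2 := by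
    rw [div_pow]; ring
  rw [e2, e3]
  linarith

/-- the Lyapunov function -/
noncomputable def lf (s : ℕ) : ℝ := 1 / Real.log (s + Real.exp 1)

lemma lf_log_ge (s : ℕ) : 1 ≤ Real.log (s + Real.exp 1) := by
  rw [Real.le_log_iff_exp_le (by positivity)]
  linarith [(Nat.cast_nonneg s : (0:ℝ) ≤ s)]

lemma lf_pos (s : ℕ) : 0 < lf s := by
  have := lf_log_ge s
  unfold lf
  positivity

lemma lf_le_one (s : ℕ) : lf s ≤ 1 := by
  have := lf_log_ge s
  unfold lf
  rw [div_le_one (by linarith)]
  exact this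

lemma lf_strict (s t : ℕ) (h : s < t) : lf t < lf s := by
  have h1 := lf_log_ge s
  unfold lf
  apply one_div_lt_one_div_of_lt (by linarith)
  apply Real.log_lt_log (by positivity)
  have : (s:ℝ) < t := by exact_mod_cast h
  linarith

lemma lf_anti (s t : ℕ) (h : s ≤ t) : lf t ≤ lf s := by
  rcases h.eq_or_lt with rfl | h
  · exact le_rfl
  · exact (lf_strict s t h).le

lemma integrable_lf (x : ℕ) : Integrable (fun b => lf (U x b)) (coins env) :=
  integrable_bdd x lf 1 (fun s => by rw [abs_of_pos (lf_pos s)]; exact lf_le_one s)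

lemma eventually_log (C : ℝ) : ∀ᶠ x : ℕ in atTop,
    C * Real.log (x + Real.exp 1) ^ 3 ≤ Real.sqrt (x + Real.exp 1) ∧
    Real.log (2 * x + 2 + Real.exp 16) ≤ (4/3) * Real.log (x + Real.exp 1) := by
  have ht : Tendsto (fun x : ℕ => (x:ℝ) + Real.exp 1) atTop atTop :=
    tendsto_atTop_add_const_right _ _ tendsto_natCast_atTop_atTop
  have h1 : ∀ᶠ y : ℝ in atTop, C * Real.log y ^ 3 ≤ Real.sqrt y := by
    have ho := isLittleO_log_rpow_rpow_atTop (s := 1/2) 3 (by norm_num)
    have hc := ho.def (c := 1 / (|C| + 1)) (by positivity)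
    filter_upwards [hc, eventually_ge_atTop (1:ℝ)] with y hy hy1
    have hl : 0 ≤ Real.log y := Real.log_nonneg hy1
    rw [Real.norm_of_nonneg (Real.rpow_nonneg hl _),
      Real.norm_of_nonneg (Real.rpow_nonneg (by linarith) _)] at hy
    have e : Real.log y ^ (3:ℝ) = Real.log y ^ 3 := by
      rw [← Real.rpow_natCast]; norm_num
    rw [e, ← Real.sqrt_eq_rpow, one_div_mul_eq_div, le_div_iff₀ (by positivity)] at hy
    have h3 : 0 ≤ Real.log y ^ 3 := by positivity
    calc C * Real.log y ^ 3 ≤ |C| * Real.log y ^ 3 :=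
          mul_le_mul_of_nonneg_right (le_abs_self C) h3
      _ ≤ Real.log y ^ 3 * (|C| + 1) := by linarith
      _ ≤ _ := hy
  have h2 : ∀ᶠ y : ℝ in atTop, 3 * Real.log (2 + Real.exp 16) ≤ Real.log y :=
    Real.tendsto_log_atTop.eventually_ge_atTop _
  filter_upwards [ht.eventually h1, ht.eventually h2] with x hx1 hx2
  refine ⟨hx1, ?_⟩
  have he : 1 ≤ Real.exp 1 := Real.one_le_exp (by norm_num)
  have hE : 0 < Real.exp 16 := Real.exp_pos _
  have hx0 : (0:ℝ) ≤ x := by positivity
  have h3 : (2 * x + 2 + Real.exp 16 : ℝ) ≤ (x + Real.exp 1) * (2 + Real.exp 16) := by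
    nlinarith [mul_nonneg hx0 hE.le, mul_nonneg (sub_nonneg.2 he) hE.le]
  have h4 : Real.log (2 * x + 2 + Real.exp 16) ≤
      Real.log ((x + Real.exp 1) * (2 + Real.exp 16)) :=
    Real.log_le_log (by positivity) h3
  rw [Real.log_mul (by positivity) (by positivity)] at h4
  linarith

/-- The Lyapunov inequality. -/
lemma lyap : ∃ x1 : ℕ, ∀ x ≥ x1, ∫ b, lf (U x b) ∂(coins env) ≤ lf x := by
  obtain ⟨x1, hx1⟩ := eventually_atTop.1 (eventually_log ((3/2) * C2 + 16 * (1 + C4)))
  refine ⟨max x1 2, fun x hx => ?_⟩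
  have hx2 : 2 ≤ x := le_trans (le_max_right _ _) hx
  obtain ⟨hC, hlog⟩ := hx1 x (le_trans (le_max_left _ _) hx)
  have hx' : (2:ℝ) ≤ x := by exact_mod_cast hx2
  have he : 1 ≤ Real.exp 1 := Real.one_le_exp (by norm_num)
  set X : ℝ := x + Real.exp 1 with hX
  have hXpos : 0 < X := by positivity
  set L := Real.log X with hL
  have hL1 : 1 ≤ L := lf_log_ge x
  set r := Real.sqrt X with hr
  have hr0 : 0 < r := Real.sqrt_pos.2 hXpos
  have hr2 : r * r = X := Real.mul_self_sqrt hXpos.le
  set q := Real.sqrt x with hq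
  have hq0 : 0 < q := Real.sqrt_pos.2 (by linarith)
  have hq2 : q * q = x := Real.mul_self_sqrt (by linarith)
  have hqr : q ≤ r := Real.sqrt_le_sqrt (by rw [hX]; linarith)
  have hC2 : 0 ≤ C2 := by unfold C2; positivity
  have hC4 : 0 ≤ C4 := by unfold C4; positivity
  -- integrate the polynomial bound
  set α := 1 / L + 16 * (x * q) / X ^ 3 with hα
  set β := -(1 / (X * L ^ 2)) with hβ
  set γ := (1 / (2 * L ^ 2) + 1 / L ^ 3) / X ^ 2 with hγ
  set κ := 16 / (q * X ^ 3) with hκ
  have i1 : Integrable (fun b => (U x b : ℝ) - x) (coins env) :=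
    (integrable_U x).sub (integrable_const _)
  have i2 := integrable_sq x
  have i4 := integrable_fourth x
  have h1 : ∫ b, lf (U x b) ∂(coins env) ≤
      ∫ b, (α + β * ((U x b : ℝ) - x) + γ * ((U x b : ℝ) - x) ^ 2 + κ * ((U x b : ℝ) - x) ^ 4)
        ∂(coins env) := by
    refine integral_mono (integrable_lf x) ?_ (fun b => ?_)
    · exact (((integrable_const _).add (i1.const_mul _)).add (i2.const_mul _)).add (i4.const_mul _)
    · exact lyap_poly x (U x b) (by omega)
  have h2 : ∫ b, (α + β * ((U x b : ℝ) - x) + γ * ((U x b : ℝ) - x) ^ 2 + κ * ((U x b : ℝ) - x) ^ 4)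
        ∂(coins env) = α + β * rho x + γ * sec x + κ * ∫ b, ((U x b : ℝ) - x) ^ 4 ∂(coins env) := by
    have j1 : Integrable (fun b => α + β * ((U x b : ℝ) - x)) (coins env) :=
      (integrable_const _).add (i1.const_mul _)
    have j2 : Integrable (fun b => α + β * ((U x b : ℝ) - x) + γ * ((U x b : ℝ) - x) ^ 2)
      (coins env) := j1.add (i2.const_mul _)
    rw [integral_add j2 (i4.const_mul _), integral_add j1 (i2.const_mul _),
      integral_add (integrable_const _) (i1.const_mul _), integral_const_mul, integral_const_mul,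
      integral_const_mul]
    simp [rho, sec]
  rw [h2] at h1
  refine h1.trans ?_
  have hrho1 := rho_lower x hx2
  have hrho2 : rho x ≤ 2 := by
    have := rho_le x hx2
    have := (S0_bounds x hx2).2
    linarith
  have hsec : sec x ≤ 2 * X + C2 * r := by
    have h3 := (abs_le.1 (sec_bound x (by omega))).2
    have h4 : C2 * Real.sqrt x ≤ C2 * r := mul_le_mul_of_nonneg_left hqr hC2
    have h5 : (2:ℝ) * x + rho x ≤ 2 * X := by rw [hX]; linarith
    linarith
  have hfour : ∫ b, ((U x b : ℝ) - x) ^ 4 ∂(coins env) ≤ C4 * (x:ℝ) ^ 2 :=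
    fourth_moment env (3/2) sum_abs_env x (by omega)
  have hL0 : 0 < L := by linarith
  have hγ0 : 0 ≤ γ := by rw [hγ]; positivity
  have hκ0 : 0 ≤ κ := by rw [hκ]; positivity
  -- the drift lower bound in terms of L
  have hdrift : 1 + 3 / L ≤ rho x := by
    refine le_trans ?_ hrho1
    have hlm : 0 < Real.log (2 * x + 2 + Real.exp 16) := by
      have := log_ge (2 * x + 2) (by positivity)
      linarith
    have : 3 / L ≤ 4 / Real.log (2 * x + 2 + Real.exp 16) := by
      rw [div_le_div_iff₀ hL0 hlm]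
      linarith
    linarith
  have t1 : β * rho x ≤ β * (1 + 3 / L) := by
    have : β ≤ 0 := by rw [hβ]; simp only [Left.neg_nonpos_iff]; positivity
    exact mul_le_mul_of_nonpos_left hdrift this
  have t2 : γ * sec x ≤ γ * (2 * X + C2 * r) := mul_le_mul_of_nonneg_left hsec hγ0
  have t3 : κ * ∫ b, ((U x b : ℝ) - x) ^ 4 ∂(coins env) ≤ κ * (C4 * (x:ℝ) ^ 2) :=
    mul_le_mul_of_nonneg_left hfour hκ0
  have hxq : (x:ℝ) * q ≤ X * r := by
    have : (x:ℝ) ≤ X := by rw [hX]; linarith
    exact mul_le_mul this hqr hq0.le hXpos.le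
  -- error terms
  have u1 : 16 * (x * q) / X ^ 3 ≤ 16 * (r / X ^ 2) := by
    rw [div_le_iff₀ (by positivity)]
    have e : 16 * (r / X ^ 2) * X ^ 3 = 16 * (X * r) := by field_simp
    rw [e]
    linarith
  have u3 : κ * (C4 * (x:ℝ) ^ 2) ≤ 16 * C4 * (r / X ^ 2) := by
    have e1 : κ * (C4 * (x:ℝ) ^ 2) = 16 * C4 * (x * q) / X ^ 3 := by
      rw [hκ]
      have : (x:ℝ) ^ 2 = x * (q * q) := by rw [hq2]; ring
      rw [this]
      field_simp
    rw [e1, div_le_iff₀ (by positivity)]
    have e : 16 * C4 * (r / X ^ 2) * X ^ 3 = 16 * C4 * (X * r) := by field_simp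
    rw [e]
    exact mul_le_mul_of_nonneg_left hxq (by positivity)
  have u2 : γ * (2 * X + C2 * r) ≤ 1 / (X * L ^ 2) + 2 / (X * L ^ 3) + (3/2) * C2 * (r / X ^ 2) := by
    have e1 : γ * (2 * X + C2 * r) = (1 / (X * L ^ 2) + 2 / (X * L ^ 3)) +
        (1 / (2 * L ^ 2) + 1 / L ^ 3) * (C2 * (r / X ^ 2)) := by
      rw [hγ]
      field_simp
    rw [e1]
    have h6 : 1 / (2 * L ^ 2) + 1 / L ^ 3 ≤ 3 / 2 := by
      have a1 : 1 / (2 * L ^ 2) ≤ 1 / 2 := by
        apply one_div_le_one_div_of_le (by norm_num)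
        have : 1 ≤ L ^ 2 := one_le_pow₀ hL1
        linarith
      have a2 : 1 / L ^ 3 ≤ 1 := by
        rw [div_le_one (by positivity)]; exact one_le_pow₀ hL1
      linarith
    have h7 : 0 ≤ C2 * (r / X ^ 2) := by positivity
    have := mul_le_mul_of_nonneg_right h6 h7
    linarith
  have main : β * (1 + 3 / L) + 1 / (X * L ^ 2) + 2 / (X * L ^ 3) = - (1 / (X * L ^ 3)) := by
    rw [hβ]
    field_simp
    ring
  have hfinal : ((3/2) * C2 + 16 * (1 + C4)) * (r / X ^ 2) ≤ 1 / (X * L ^ 3) := by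
    rw [le_div_iff₀ (by positivity)]
    have e : ((3/2) * C2 + 16 * (1 + C4)) * (r / X ^ 2) * (X * L ^ 3) =
        (((3/2) * C2 + 16 * (1 + C4)) * L ^ 3) * (r / X) := by
      field_simp
    rw [e]
    calc (((3/2) * C2 + 16 * (1 + C4)) * L ^ 3) * (r / X) ≤ r * (r / X) :=
          mul_le_mul_of_nonneg_right hC (by positivity)
      _ = 1 := by rw [← mul_div_assoc, hr2]; exact div_self hXpos.ne'
  have hgoal : lf x = 1 / L := rfl
  rw [hgoal, hα]
  linarith

end R692.ERW
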