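import Pool.Agent.R692.ERW5

open MeasureTheory ProbabilityTheory Filter Topology
open scoped ENNReal

namespace R692.ERW

/-- a stack of trials -/
abbrev Stack := ℕ → Bool

/-- the chain driven by a sequence of stacks -/
def chain (T : ℕ → Stack → ℕ) (z : ℕ) (c : ℕ → Stack) : ℕ → ℕ
  | 0 => z
  | j+1 => T (chain T z c j) (c j)

lemma chain_dep (T : ℕ → Stack → ℕ) (z : ℕ) (c c' : ℕ → Stack) (j : ℕ)
    (h : ∀ i < j, c i = c' i) : chain T z c j = chain T z c' j := by
  induction j with
  | zero => rfl
  | succ j ih =>
    simp only [chain]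
    rw [ih (fun i hi => h i (by omega)), h j (by omega)]

lemma measurable_chain (T : ℕ → Stack → ℕ) (hT : ∀ z, Measurable (T z)) (z j : ℕ) :
    Measurable (fun c : ℕ → Stack => chain T z c j) := by
  induction j with
  | zero => exact measurable_const
  | succ j ih =>
    have h1 : Measurable (fun q : ℕ × Stack => T q.1 q.2) :=
      measurable_from_prod_countable_right hT
    have h2 : Measurable (fun c : ℕ → Stack => (chain T z c j, c j)) :=
      ih.prodMk (measurable_pi_apply j)
    exact h1.comp h2

/-- extension of a prefix of stacks -/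
def extS (n : ℕ) (y : ↥(Finset.range n) → Stack) : ℕ → Stack :=
  fun i => if h : i ∈ Finset.range n then y ⟨i, h⟩ else (fun _ => false)

lemma measurable_extS (n : ℕ) : Measurable (extS n) := by
  refine measurable_pi_lambda _ (fun i => ?_)
  by_cases h : i ∈ Finset.range n
  · have : (fun y : ↥(Finset.range n) → Stack => extS n y i) = fun y => y ⟨i, h⟩ := by
      ext y; simp [extS, Finset.mem_range.1 h]
    rw [this]
    exact measurable_pi_apply _
  · have : (fun y : ↥(Finset.range n) → Stack => extS n y i) = fun y => (fun _ => false) := by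
      ext y; simp [extS, Finset.mem_range.not.1 h]
    rw [this]
    exact measurable_const

/-- law of an i.i.d. sequence of stacks -/
noncomputable def seqM (ν : Measure Stack) : Measure (ℕ → Stack) :=
  Measure.infinitePi (fun _ : ℕ => ν)

instance (ν : Measure Stack) [IsProbabilityMeasure ν] : IsProbabilityMeasure (seqM ν) := by
  unfold seqM; infer_instance

lemma map_chain (ν : Measure Stack) [IsProbabilityMeasure ν] (T : ℕ → Stack → ℕ)
    (hT : ∀ z, Measurable (T z)) (z j : ℕ) :
    (seqM ν).map (fun c => (chain T z c j, c j)) =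
      ((seqM ν).map (fun c => chain T z c j)).prod ν := by
  have hind : iIndepFun (fun (i : ℕ) (c : ℕ → Stack) => c i) (seqM ν) :=
    iIndepFun_infinitePi (P := fun _ => ν) (X := fun _ x => x) (fun i => measurable_id)
  have h1 := hind.indepFun_finset (Finset.range j) {j} (by simp) (fun i => measurable_pi_apply i)
  have h2 : IndepFun (fun c : ℕ → Stack => chain T z c j) (fun c : ℕ → Stack => c j)
      (seqM ν) := by
    have mψ : Measurable (fun (y : ↥({j} : Finset ℕ) → Stack) => y ⟨j, by simp⟩) :=
      measurable_pi_apply _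
    have mφ : Measurable (fun (y : ↥(Finset.range j) → Stack) => chain T z (extS j y) j) :=
      (measurable_chain T hT z j).comp (measurable_extS j)
    have h3 := h1.comp mφ mψ
    have e : (fun c : ℕ → Stack => chain T z c j) =
        (fun (y : ↥(Finset.range j) → Stack) => chain T z (extS j y) j) ∘
          (fun c : ℕ → Stack => fun i : ↥(Finset.range j) => c i) := by
      ext c
      refine chain_dep T z _ _ j (fun i hi => ?_)
      simp [extS, hi]
    rw [e]
    exact h3
  have m1 : Measurable (fun c : ℕ → Stack => c j) := measurable_pi_apply j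
  rw [h2.map_prod_eq_prod_map_map (measurable_chain T hT z j).aemeasurable m1.aemeasurable]
  congr 1
  exact Measure.infinitePi_map_eval (fun _ : ℕ => ν) j

/-- supermartingale-type inequality -/
lemma chain_super (ν : Measure Stack) [IsProbabilityMeasure ν] (T : ℕ → Stack → ℕ)
    (hT : ∀ z, Measurable (T z)) (ψ : ℕ → ℕ → ℝ≥0∞)
    (hψ : ∀ j z, ∫⁻ s, ψ (j+1) (T z s) ∂ν ≤ ψ j z) (z j : ℕ) :
    ∫⁻ c, ψ j (chain T z c j) ∂(seqM ν) ≤ ψ 0 z := by
  induction j with
  | zero => simp [chain]
  | succ j ih =>
    refine le_trans ?_ ih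
    have h1 : Measurable (fun q : ℕ × Stack => ψ (j+1) (T q.1 q.2)) :=
      (measurable_of_countable (ψ (j+1))).comp (measurable_from_prod_countable_right hT)
    have h2 : Measurable (fun c : ℕ → Stack => (chain T z c j, c j)) :=
      (measurable_chain T hT z j).prodMk (measurable_pi_apply j)
    have e : ∫⁻ c, ψ (j+1) (chain T z c (j+1)) ∂(seqM ν) =
        ∫⁻ q, ψ (j+1) (T q.1 q.2) ∂((seqM ν).map (fun c => (chain T z c j, c j))) := by
      rw [lintegral_map h1 h2]
      rfl
    rw [e, map_chain ν T hT z j, lintegral_prod _ h1.aemeasurable]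
    rw [lintegral_map (measurable_of_countable _) (measurable_chain T hT z j)]
    exact lintegral_mono (fun c => hψ j _)

/-! ### survival of the right chain -/

lemma survive : ∃ m : ℕ, 0 < (seqM (coins env)) {c | ∀ j, 0 < chain U m c j} := by
  obtain ⟨x1, hx1⟩ := lyap
  set T : ℕ → Stack → ℕ := fun z s => if z ≤ x1 then z else U z s with hTdef
  have hT : ∀ z, Measurable (T z) := by
    intro z
    by_cases h : z ≤ x1
    · have : T z = fun _ => z := by ext s; simp [hTdef, h]
      rw [this]; exact measurable_const
    · have : T z = U z := by ext s; simp [hTdef, h]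
      rw [this]; exact measurable_U z
  set ψ : ℕ → ℕ → ℝ≥0∞ := fun _ z => ENNReal.ofReal (lf z) with hψdef
  have hψ : ∀ j z, ∫⁻ s, ψ (j+1) (T z s) ∂(coins env) ≤ ψ j z := by
    intro j z
    by_cases h : z ≤ x1
    · simp [hψdef, hTdef, h]
    · have h2 := hx1 z (by omega)
      have e : ∫⁻ s, ψ (j+1) (T z s) ∂(coins env) = ENNReal.ofReal (∫ s, lf (U z s) ∂(coins env)) := by
        rw [ofReal_integral_eq_lintegral_ofReal (integrable_lf z)
          (Eventually.of_forall (fun b => (lf_pos _).le))]
        simp only [hψdef, hTdef, h, if_false]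
      rw [e]
      exact ENNReal.ofReal_le_ofReal h2
  refine ⟨x1 + 1, ?_⟩
  set m := x1 + 1 with hm
  have hmark : ∀ j, (seqM (coins env)) {c | chain T m c j ≤ x1} ≤
      ENNReal.ofReal (lf m) / ENNReal.ofReal (lf x1) := by
    intro j
    have h1 := chain_super (coins env) T hT ψ hψ m j
    have h2 : ENNReal.ofReal (lf x1) * (seqM (coins env)) {c | chain T m c j ≤ x1} ≤
        ∫⁻ c, ψ j (chain T m c j) ∂(seqM (coins env)) := by
      have hms : MeasurableSet {c : ℕ → Stack | chain T m c j ≤ x1} :=
        measurable_chain T hT m j measurableSet_Iic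
      rw [← setLIntegral_const]
      rw [← lintegral_indicator hms]
      refine lintegral_mono (fun c => ?_)
      by_cases hc : chain T m c j ≤ x1
      · rw [Set.indicator_of_mem (by exact hc)]
        exact ENNReal.ofReal_le_ofReal (lf_anti _ _ hc)
      · rw [Set.indicator_of_notMem (by exact hc)]
        exact bot_le
    have hpos : ENNReal.ofReal (lf x1) ≠ 0 := by
      rw [Ne, ENNReal.ofReal_eq_zero, not_le]; exact lf_pos x1
    rw [ENNReal.le_div_iff_mul_le (Or.inl hpos) (Or.inl ENNReal.ofReal_ne_top), mul_comm]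
    exact h2.trans h1
  have hmono : Monotone (fun j => {c : ℕ → Stack | chain T m c j ≤ x1}) := by
    refine monotone_nat_of_le_succ (fun j c hc => ?_)
    simp only [Set.mem_ofPred_eq] at hc ⊢
    simp only [chain, hTdef]
    rw [hTdef] at hc
    rw [if_pos hc]
    exact hc
  have hun : (seqM (coins env)) (⋃ j, {c | chain T m c j ≤ x1}) ≤
      ENNReal.ofReal (lf m) / ENNReal.ofReal (lf x1) := by
    rw [hmono.measure_iUnion]
    exact iSup_le hmark
  have hlt : ENNReal.ofReal (lf m) / ENNReal.ofReal (lf x1) < 1 := by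
    rw [ENNReal.div_lt_iff (Or.inl _) (Or.inl ENNReal.ofReal_ne_top), one_mul]
    · exact (ENNReal.ofReal_lt_ofReal_iff (lf_pos x1)).2 (lf_strict _ _ (by omega))
    · rw [Ne, ENNReal.ofReal_eq_zero, not_le]; exact lf_pos x1
  have hsub : (⋃ j, {c : ℕ → Stack | chain T m c j ≤ x1})ᶜ ⊆ {c | ∀ j, 0 < chain U m c j} := by
    intro c hc
    simp only [Set.mem_compl_iff, Set.mem_iUnion, Set.mem_ofPred_eq, not_exists, not_le] at hc
    have heq : ∀ j, chain U m c j = chain T m c j := by
      intro j
      induction j with
      | zero => rfl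
      | succ j ih =>
        simp only [chain]
        rw [ih]
        have h3 := hc j
        simp only [hTdef]
        rw [if_neg]
        rw [hTdef] at h3
        omega
    intro j
    rw [heq j]
    have := hc j
    omega
  have hmeasU : MeasurableSet (⋃ j, {c : ℕ → Stack | chain T m c j ≤ x1}) :=
    MeasurableSet.iUnion (fun j => measurable_chain T hT m j measurableSet_Iic)
  refine lt_of_lt_of_le ?_ (measure_mono hsub)
  rw [prob_compl_eq_one_sub hmeasU]
  exact tsub_pos_of_lt (hun.trans_lt hlt)

/-! ### the left chain -/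

/-- exchange successes and failures -/
def flip (b : Stack) : Stack := fun i => !b i

lemma measurable_flip : Measurable flip := by
  refine measurable_pi_lambda _ (fun i => ?_)
  exact (measurable_of_finite (fun c : Bool => !c)).comp (measurable_pi_apply i)

/-- the environment with successes and failures exchanged -/
noncomputable def env' (i : ℕ) : unitInterval := unitInterval.symm (env i)

lemma bern_map_not (q : unitInterval) : (bern q).map (fun c => !c) = bern (unitInterval.symm q) := by
  have hm : Measurable (fun c : Bool => !c) := measurable_of_finite _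
  unfold bern
  rw [Measure.map_add _ _ hm, Measure.map_smul, Measure.map_smul, Measure.map_dirac,
    Measure.map_dirac, add_comm]
  simp

lemma coins_map_flip : (coins env).map flip = coins env' := by
  unfold coins
  have := Measure.infinitePi_map_pi (fun i => bern (env i)) (f := fun _ (c : Bool) => !c)
    (fun i => measurable_of_finite _)
  simp only [bern_map_not] at this
  exact this

lemma dr_env' (i : ℕ) : dr env' i = - dr env i := by
  simp only [dr, env', unitInterval.coe_symm_eq]
  ring

lemma SS_env' (n : ℕ) : SS env' n = - S0 n := by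
  rw [← SS_env]
  simp [SS, dr_env']

lemma sum_abs_env' (n : ℕ) : ∑ i ∈ Finset.range n, |dr env' i| ≤ 3 / 2 := by
  simp only [dr_env', abs_neg]
  exact sum_abs_env n

lemma integral_left (x : ℕ) : ∫ b, (U x b : ℝ) ∂(coins env') ≤ x := by
  have h1 := first_moment env' (3/2) sum_abs_env' x
  have hi : Integrable (fun b => (U x b : ℝ)) (coins env') :=
    integrable_of_bound env' (3/2) sum_abs_env' x (fun s => (s:ℝ)) 1 (fun s => by
      have := self_le_four s x
      rw [abs_of_nonneg (by positivity)]
      have : (0:ℝ) ≤ x := by positivity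
      linarith)
  rw [integral_sub hi (integrable_const _)] at h1
  have h2 : ∫ b, SS env' (U x b + x) ∂(coins env') ≤ 0 := by
    apply integral_nonpos
    intro b
    simp only [SS_env', Pi.zero_apply, Left.neg_nonpos_iff]
    exact S0_nonneg _
  simp at h1
  linarith

lemma lintegral_left (x : ℕ) : ∫⁻ b, (U x (flip b) : ℝ≥0∞) ∂(coins env) ≤ x := by
  have e : ∫⁻ b, (U x (flip b) : ℝ≥0∞) ∂(coins env) = ∫⁻ b, (U x b : ℝ≥0∞) ∂(coins env') := by
    rw [← coins_map_flip, lintegral_map _ measurable_flip]
    exact (measurable_of_countable _).comp (measurable_U x)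
  have hi : Integrable (fun b => (U x b : ℝ)) (coins env') :=
    integrable_of_bound env' (3/2) sum_abs_env' x (fun s => (s:ℝ)) 1 (fun s => by
      have := self_le_four s x
      rw [abs_of_nonneg (by positivity)]
      have : (0:ℝ) ≤ x := by positivity
      linarith)
  rw [e]
  have e2 : ∫⁻ b, (U x b : ℝ≥0∞) ∂(coins env') = ENNReal.ofReal (∫ b, (U x b : ℝ) ∂(coins env')) := by
    rw [ofReal_integral_eq_lintegral_ofReal hi (Eventually.of_forall (fun b => by positivity))]
    simp
  rw [e2]
  refine (ENNReal.ofReal_le_ofReal (integral_left x)).trans ?_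
  simp

lemma U_eq_zero_of_prefix (z : ℕ) (b : Stack) (h : ∀ i < z, b i = true) : U z (flip b) = 0 := by
  have hf : ∀ k ≤ z, fails (flip b) k = k := by
    intro k
    induction k with
    | zero => intro _; exact fails_zero _
    | succ k ih =>
      intro hk
      rw [fails_succ, ih (by omega)]
      simp [flip, h k (by omega)]
  have hs : ∀ k ≤ z, (st z (flip b) k).1 = 0 := by
    intro k
    induction k with
    | zero => intro _; rfl
    | succ k ih =>
      intro hk
      simp only [st]
      have h1 : (flip b k) = false := by simp [flip, h k (by omega)]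
      split_ifs
      · simp_all
      · simp only; exact ih (by omega)
      · exact ih (by omega)
  have h1 := st_eq_U z (flip b) z (by rw [hf z le_rfl])
  have h2 := hs z le_rfl
  rw [h1] at h2
  exact h2

lemma bern_true (q : unitInterval) : (bern q) {true} = ENNReal.ofReal q := by
  simp [bern]

lemma bern_false (q : unitInterval) : (bern q) {false} = ENNReal.ofReal (1 - q) := by
  simp [bern]

lemma prob_prefix (m : ℕ) : ENNReal.ofReal ((1/8) ^ m) ≤ (coins env) {b | ∀ i < m, b i = true} := by
  have e : {b : Stack | ∀ i < m, b i = true} =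
      Set.pi (Finset.range m : Set ℕ) (fun _ => ({true} : Set Bool)) := by
    ext b; simp [Set.mem_pi]
  rw [e, coins, Measure.infinitePi_pi _ (fun i _ => measurableSet_singleton _)]
  have h1 : ∀ i, ENNReal.ofReal (1/8) ≤ (bern (env i)) {true} := by
    intro i
    rw [bern_true]
    exact ENNReal.ofReal_le_ofReal (env_elliptic i).1
  rw [ENNReal.ofReal_pow (by norm_num)]
  calc ENNReal.ofReal (1/8) ^ m = ∏ _i ∈ Finset.range m, ENNReal.ofReal (1/8) := by simp
    _ ≤ _ := Finset.prod_le_prod' (fun i _ => h1 i)

lemma prob_left_ne_zero (z L : ℕ) (hz : z ≤ L) :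
    (coins env) {b | U z (flip b) ≠ 0} ≤ ENNReal.ofReal (1 - (1/8) ^ L) := by
  have hms : MeasurableSet {b : Stack | ∀ i < z, b i = true} := by
    have e : {b : Stack | ∀ i < z, b i = true} =
      Set.pi (Finset.range z : Set ℕ) (fun _ => ({true} : Set Bool)) := by
      ext b; simp [Set.mem_pi]
    rw [e]
    exact MeasurableSet.pi (Finset.countable_toSet _) (fun i _ => measurableSet_singleton _)
  have hsub : {b : Stack | U z (flip b) ≠ 0} ⊆ {b : Stack | ∀ i < z, b i = true}ᶜ := by
    intro b hb hc
    exact hb (U_eq_zero_of_prefix z b hc)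
  refine (measure_mono hsub).trans ?_
  rw [prob_compl_eq_one_sub hms]
  have h1 := prob_prefix z
  have h2 : ENNReal.ofReal ((1/8) ^ L) ≤ ENNReal.ofReal ((1/8) ^ z) :=
    ENNReal.ofReal_le_ofReal (pow_le_pow_of_le_one (by norm_num) (by norm_num) hz)
  rw [ENNReal.ofReal_sub _ (by positivity), ENNReal.ofReal_one]
  exact tsub_le_tsub_left (h2.trans h1) 1

/-- the left chain dies out -/
lemma extinct (z0 : ℕ) :
    (seqM (coins env)) {c | ∀ j, 0 < chain (fun z s => U z (flip s)) z0 c j} = 0 := by
  set T : ℕ → Stack → ℕ := fun z s => U z (flip s) with hTdef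
  have hT : ∀ z, Measurable (T z) := fun z => (measurable_U z).comp measurable_flip
  -- main estimate
  have main : ∀ (L : ℕ) (J : ℕ), (seqM (coins env)) {c | ∀ j, 0 < chain T z0 c j} ≤
      (z0 : ℝ≥0∞) / (L + 1 : ℕ) + ENNReal.ofReal (1 - (1/8) ^ (L + 1)) ^ J := by
    intro L J
    set a : ℝ≥0∞ := ENNReal.ofReal (1 - (1/8) ^ (L + 1)) with ha
    set ψ : ℕ → ℕ → ℝ≥0∞ := fun j z =>
      min 1 ((z : ℝ≥0∞) / (L + 1 : ℕ) + a ^ (J - j) * (if z = 0 then 0 else 1)) with hψdef
    have hψ : ∀ j z, ∫⁻ s, ψ (j+1) (T z s) ∂(coins env) ≤ ψ j z := by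
      intro j z
      rcases Nat.eq_zero_or_pos z with rfl | hz
      · simp [hψdef, hTdef, U_zero]
      have hle1 : ∫⁻ s, ψ (j+1) (T z s) ∂(coins env) ≤ 1 := by
        calc ∫⁻ s, ψ (j+1) (T z s) ∂(coins env) ≤ ∫⁻ s, 1 ∂(coins env) :=
              lintegral_mono (fun s => min_le_left _ _)
          _ = 1 := by simp
      refine le_min hle1 ?_
      rw [if_neg (by omega), mul_one]
      by_cases hzL : L + 1 ≤ z
      · have : (1:ℝ≥0∞) ≤ (z : ℝ≥0∞) / (L + 1 : ℕ) := by
          rw [ENNReal.le_div_iff_mul_le (Or.inl (by simp)) (Or.inl (ENNReal.natCast_ne_top _)),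
            one_mul]
          exact_mod_cast hzL
        exact hle1.trans (this.trans le_self_add)
      by_cases hj : J ≤ j
      · have : J - j = 0 := by omega
        rw [this, pow_zero]
        exact hle1.trans le_add_self
      have hJ : J - j = (J - (j+1)) + 1 := by omega
      have hmeas1 : Measurable (fun s => ((T z s : ℕ) : ℝ≥0∞) / (L + 1 : ℕ)) :=
        ((measurable_of_countable _).comp (hT z)).div_const _
      have hms : MeasurableSet {s | T z s ≠ 0} :=
        (hT z) (measurableSet_singleton 0).compl
      calc ∫⁻ s, ψ (j+1) (T z s) ∂(coins env)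
          ≤ ∫⁻ s, ((T z s : ℝ≥0∞) / (L + 1 : ℕ) +
              a ^ (J - (j+1)) * ({s | T z s ≠ 0} : Set Stack).indicator 1 s) ∂(coins env) := by
            refine lintegral_mono (fun s => ?_)
            refine (min_le_right _ _).trans (le_of_eq ?_)
            congr 2
            by_cases h0 : T z s = 0
            · rw [if_pos h0, Set.indicator_of_notMem (by simpa using h0)]
            · rw [if_neg h0, Set.indicator_of_mem (by exact h0)]
              rfl
        _ = (∫⁻ s, (T z s : ℝ≥0∞) ∂(coins env)) / (L + 1 : ℕ) +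
              a ^ (J - (j+1)) * (coins env) {s | T z s ≠ 0} := by
            rw [lintegral_add_left hmeas1, lintegral_const_mul _ (measurable_one.indicator hms),
              lintegral_indicator_one hms]
            congr 1
            simp only [div_eq_mul_inv]
            have hm2 : Measurable (fun s => (T z s : ℝ≥0∞)) :=
              (measurable_of_countable (fun k : ℕ => (k : ℝ≥0∞))).comp (hT z)
            rw [lintegral_mul_const _ hm2]
        _ ≤ (z : ℝ≥0∞) / (L + 1 : ℕ) + a ^ (J - (j+1)) * a := by
            refine add_le_add ?_ ?_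
            · exact ENNReal.div_le_div_right (lintegral_left z) _
            · exact mul_le_mul_right (prob_left_ne_zero z (L+1) (by omega)) _
        _ = (z : ℝ≥0∞) / (L + 1 : ℕ) + a ^ (J - j) := by rw [hJ, pow_succ]
    have h1 := chain_super (coins env) T hT ψ hψ z0 J
    have hms : MeasurableSet {c : ℕ → Stack | 0 < chain T z0 c J} :=
      measurable_chain T hT z0 J measurableSet_Ioi
    calc (seqM (coins env)) {c | ∀ j, 0 < chain T z0 c j}
        ≤ (seqM (coins env)) {c | 0 < chain T z0 c J} := measure_mono (fun c hc => hc J)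
      _ = ∫⁻ c, ({c : ℕ → Stack | 0 < chain T z0 c J} : Set _).indicator 1 c ∂(seqM (coins env)) := by
          rw [lintegral_indicator_one hms]
      _ ≤ ∫⁻ c, ψ J (chain T z0 c J) ∂(seqM (coins env)) := by
          refine lintegral_mono (fun c => ?_)
          by_cases h0 : 0 < chain T z0 c J
          · rw [Set.indicator_of_mem (by exact h0)]
            simp only [hψdef, Nat.sub_self, pow_zero, one_mul, Pi.one_apply]
            rw [if_neg (by omega)]
            exact le_min le_rfl le_add_self
          · rw [Set.indicator_of_notMem (by exact h0)]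
            exact bot_le
      _ ≤ ψ 0 z0 := h1
      _ ≤ (z0 : ℝ≥0∞) / (L + 1 : ℕ) + a ^ J := by
          refine (min_le_right _ _).trans ?_
          simp only [Nat.sub_zero]
          refine add_le_add le_rfl ?_
          split_ifs
          · simp
          · simp
  -- let J → ∞
  have main2 : ∀ L : ℕ, (seqM (coins env)) {c | ∀ j, 0 < chain T z0 c j} ≤
      (z0 : ℝ≥0∞) / (L + 1 : ℕ) := by
    intro L
    have ha : ENNReal.ofReal (1 - (1/8) ^ (L + 1)) < 1 := by
      rw [← ENNReal.ofReal_one]
      apply (ENNReal.ofReal_lt_ofReal_iff (by norm_num)).2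
      have : (0:ℝ) < (1/8) ^ (L+1) := by positivity
      linarith
    have ht := (ENNReal.tendsto_pow_atTop_nhds_zero_of_lt_one ha).const_add
      ((z0 : ℝ≥0∞) / (L + 1 : ℕ))
    rw [add_zero] at ht
    exact ge_of_tendsto' ht (fun J => main L J)
  have ht2 : Tendsto (fun L : ℕ => (z0 : ℝ≥0∞) / (L + 1 : ℕ)) atTop (𝓝 0) := by
    have h1 : Tendsto (fun L : ℕ => (z0 : ℝ≥0∞) * ((L + 1 : ℕ) : ℝ≥0∞)⁻¹) atTop
        (𝓝 ((z0 : ℝ≥0∞) * 0)) := by
      refine ENNReal.Tendsto.const_mul ?_ (Or.inr (ENNReal.natCast_ne_top _))
      exact ENNReal.tendsto_inv_nat_nhds_zero.comp (tendsto_add_atTop_nat 1)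
    rw [mul_zero] at h1
    simpa [div_eq_mul_inv] using h1
  exact le_antisymm (ge_of_tendsto' ht2 main2) bot_le

end R692.ERW
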