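import Pool.Agent.R692.ERW6

open MeasureTheory ProbabilityTheory Filter Topology
open scoped ENNReal

namespace R692.ERW

/-- position and number of used trials at each site -/
def wst (ω : ℤ → Stack) : ℕ → ℤ × (ℤ → ℕ)
  | 0 => (0, fun _ => 0)
  | n+1 => (if ω (wst ω n).1 ((wst ω n).2 (wst ω n).1) then (wst ω n).1 + 1 else (wst ω n).1 - 1,
      Function.update (wst ω n).2 (wst ω n).1 ((wst ω n).2 (wst ω n).1 + 1))

/-- the position of the walk -/
def pos (ω : ℤ → Stack) (n : ℕ) : ℤ := (wst ω n).1

/-- the number of previous visits -/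
def cnt (ω : ℤ → Stack) (n : ℕ) : ℤ → ℕ := (wst ω n).2

lemma pos_zero (ω : ℤ → Stack) : pos ω 0 = 0 := rfl
lemma cnt_zero (ω : ℤ → Stack) (y : ℤ) : cnt ω 0 y = 0 := rfl

lemma pos_succ (ω : ℤ → Stack) (n : ℕ) :
    pos ω (n+1) = if ω (pos ω n) (cnt ω n (pos ω n)) then pos ω n + 1 else pos ω n - 1 := rfl

lemma cnt_succ (ω : ℤ → Stack) (n : ℕ) (y : ℤ) :
    cnt ω (n+1) y = if y = pos ω n then cnt ω n y + 1 else cnt ω n y := by
  show Function.update (cnt ω n) (pos ω n) (cnt ω n (pos ω n) + 1) y = _
  by_cases h : y = pos ω n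
  · rw [if_pos h, h]; simp
  · rw [if_neg h]; simp [h]

/-- number of successes among the first `n` trials -/
def succs (b : Stack) (n : ℕ) : ℕ := ((Finset.range n).filter (fun i => b i = true)).card

lemma succs_zero (b : Stack) : succs b 0 = 0 := by simp [succs]

lemma succs_succ (b : Stack) (n : ℕ) :
    succs b (n+1) = succs b n + (if b n then 1 else 0) := by
  unfold succs
  rw [Finset.range_add_one, Finset.filter_insert]
  cases h : b n
  · simp
  · simp [Finset.card_insert_of_notMem]

lemma succs_mono (b : Stack) : Monotone (succs b) :=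
  monotone_nat_of_le_succ (fun n => by rw [succs_succ]; omega)

lemma succs_le (b : Stack) (n : ℕ) : succs b n ≤ n := by
  induction n with
  | zero => simp [succs_zero]
  | succ n ih => rw [succs_succ]; split_ifs <;> omega

lemma fails_le (b : Stack) (n : ℕ) : fails b n ≤ n := by
  induction n with
  | zero => simp [fails_zero]
  | succ n ih => rw [fails_succ]; split_ifs <;> omega

lemma fails_flip (b : Stack) (n : ℕ) : fails (flip b) n = succs b n := by
  induction n with
  | zero => simp [fails_zero, succs_zero]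
  | succ n ih =>
    rw [fails_succ, succs_succ, ih]
    cases h : b n <;> simp [flip, h]

lemma succs_flip (b : Stack) (n : ℕ) : succs (flip b) n = fails b n := by
  induction n with
  | zero => simp [fails_zero, succs_zero]
  | succ n ih =>
    rw [fails_succ, succs_succ, ih]
    cases h : b n <;> simp [flip, h]

lemma U_le_succs (x : ℕ) (b : Stack) (N : ℕ) (h : x ≤ fails b N) : U x b ≤ succs b N := by
  rw [U, U_set_subset x b N h, Set.ncard_coe_finset]
  unfold succs
  apply Finset.card_le_card
  intro i hi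
  simp only [Finset.mem_filter] at hi ⊢
  exact ⟨hi.1, hi.2.1⟩

lemma succs_le_U (x : ℕ) (b : Stack) (N : ℕ) (h : fails b N < x) (hex : ∃ N', x ≤ fails b N') :
    succs b N ≤ U x b := by
  obtain ⟨N', hN'⟩ := hex
  have h1 := st_fst_le_U x b N' hN' N
  refine le_trans (le_of_eq ?_) h1
  rw [st_fst]
  unfold succs
  congr 1
  ext i
  simp only [Finset.mem_filter, Finset.mem_range]
  constructor
  · rintro ⟨h2, h3⟩
    exact ⟨h2, h3, lt_of_le_of_lt (fails_mono b h2.le) h⟩
  · rintro ⟨h2, h3, _⟩
    exact ⟨h2, h3⟩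

lemma inv_right (ω : ℤ → Stack) (n : ℕ) (y : ℤ) (hy : 0 ≤ y) :
    succs (ω y) (cnt ω n y) = fails (ω (y+1)) (cnt ω n (y+1)) + (if y < pos ω n then 1 else 0) := by
  induction n with
  | zero =>
    rw [cnt_zero, cnt_zero, pos_zero, succs_zero, fails_zero, if_neg (by omega)]
  | succ n ih =>
    rw [cnt_succ, cnt_succ, pos_succ]
    by_cases h1 : y = pos ω n
    · subst h1
      rw [if_pos rfl, if_neg (by omega)]
      rw [if_neg (by omega)] at ih
      rw [succs_succ, ih]
      split_ifs <;> omega
    · rw [if_neg h1]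
      by_cases h2 : y + 1 = pos ω n
      · rw [if_pos h2, fails_succ, ih, h2]
        split_ifs <;> omega
      · rw [if_neg h2, ih]
        split_ifs <;> omega

lemma inv_left (ω : ℤ → Stack) (n : ℕ) (y : ℤ) (hy : y < 0) :
    fails (ω (y+1)) (cnt ω n (y+1)) = succs (ω y) (cnt ω n y) + (if pos ω n ≤ y then 1 else 0) := by
  induction n with
  | zero =>
    rw [cnt_zero, cnt_zero, pos_zero, succs_zero, fails_zero, if_neg (by omega)]
  | succ n ih =>
    rw [cnt_succ, cnt_succ, pos_succ]
    by_cases h1 : y = pos ω n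
    · subst h1
      rw [if_pos rfl, if_neg (by omega)]
      rw [if_pos (by omega)] at ih
      rw [succs_succ, ih]
      split_ifs <;> omega
    · rw [if_neg h1]
      by_cases h2 : y + 1 = pos ω n
      · rw [if_pos h2, fails_succ, ih, h2]
        split_ifs <;> omega
      · rw [if_neg h2, ih]
        split_ifs <;> omega

lemma visit_bound (ω : ℤ → Stack) (n : ℕ) (y : ℤ) :
    succs (ω y) (cnt ω n y) ≤ cnt ω n (y+1) + (if pos ω n = y + 1 then 1 else 0) := by
  induction n with
  | zero => simp [cnt_zero, succs_zero]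
  | succ n ih =>
    rw [cnt_succ, cnt_succ, pos_succ]
    by_cases h1 : y = pos ω n
    · subst h1
      rw [if_pos rfl, if_neg (by omega), succs_succ]
      rw [if_neg (by omega)] at ih
      split_ifs <;> omega
    · rw [if_neg h1]
      by_cases h2 : y + 1 = pos ω n
      · rw [if_pos h2]
        rw [if_pos h2.symm] at ih
        omega
      · rw [if_neg h2]
        rw [if_neg (fun h => h2 h.symm)] at ih
        omega

lemma pos_abs (ω : ℤ → Stack) (n : ℕ) : |pos ω n| ≤ n := by
  induction n with
  | zero => simp [pos_zero]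
  | succ n ih =>
    rw [pos_succ]
    push_cast
    rw [abs_le] at ih ⊢
    split_ifs <;> omega

lemma cnt_far (ω : ℤ → Stack) (n : ℕ) (y : ℤ) (hy : (n:ℤ) ≤ |y|) : cnt ω n y = 0 := by
  induction n with
  | zero => rfl
  | succ n ih =>
    rw [cnt_succ, if_neg, ih (by push_cast at hy; omega)]
    intro h
    have := pos_abs ω n
    rw [← h] at this
    push_cast at hy
    omega

lemma cnt_mono (ω : ℤ → Stack) (y : ℤ) : Monotone (fun n => cnt ω n y) :=
  monotone_nat_of_le_succ (fun n => by rw [cnt_succ]; split_ifs <;> omega)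

lemma cnt_pos_of_visit (ω : ℤ → Stack) (n n' : ℕ) (h : n' < n) (y : ℤ) (hp : pos ω n' = y) :
    0 < cnt ω n y := by
  have h1 : 0 < cnt ω (n'+1) y := by rw [cnt_succ, if_pos hp.symm]; omega
  exact lt_of_lt_of_le h1 (cnt_mono ω y (by omega))

lemma fails_prefix (b : Stack) (m : ℕ) (h : ∀ i < m, b i = true) : fails b m = 0 := by
  induction m with
  | zero => exact fails_zero b
  | succ m ih =>
    rw [fails_succ, ih (fun i hi => h i (by omega)), h m (by omega)]
    simp

lemma succs_prefix (b : Stack) (m : ℕ) (h : ∀ i < m, b i = true) : succs b m = m := by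
  induction m with
  | zero => exact succs_zero b
  | succ m ih =>
    rw [succs_succ, ih (fun i hi => h i (by omega)), h m (by omega)]
    simp

/-- Once the walk has visited a good site it stays to the right of it. -/
lemma barrier (ω : ℤ → Stack) (k : ℤ) (hk : 1 ≤ k) (m : ℕ) (hm : ∀ i < m, ω k i = true)
    (hs : ∀ j, 0 < chain U m (fun j : ℕ => ω (k + 1 + j)) j) (n n' : ℕ) (hn : n' ≤ n)
    (hv : pos ω n' = k) : k ≤ pos ω n := by
  by_contra hcon
  push Not at hcon
  -- a step to the left from k
  have h1 : 1 ≤ succs (ω (k-1)) (cnt ω n (k-1)) := by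
    have h2 := inv_right ω n' (k-1) (by omega)
    rw [if_pos (by omega)] at h2
    have h3 := succs_mono (ω (k-1)) (cnt_mono ω (k-1) hn)
    simp only at h3
    omega
  have h2 := inv_right ω n (k-1) (by omega)
  rw [if_neg (by omega), sub_add_cancel] at h2
  have h3 : m < cnt ω n k := by
    by_contra h4
    push Not at h4
    have h5 := fails_mono (ω k) h4
    rw [fails_prefix (ω k) m hm] at h5
    omega
  have h0 : m ≤ succs (ω k) (cnt ω n k) := by
    have := succs_mono (ω k) h3.le
    rwa [succs_prefix (ω k) m hm] at this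
  have hind : ∀ j : ℕ, chain U m (fun j : ℕ => ω (k + 1 + j)) j ≤
      succs (ω (k + j)) (cnt ω n (k + j)) := by
    intro j
    induction j with
    | zero => simpa [chain] using h0
    | succ j ih =>
      have h5 := inv_right ω n (k + j) (by omega)
      rw [if_neg (by omega), add_zero] at h5
      have h6 : chain U m (fun j : ℕ => ω (k + 1 + j)) j ≤
          fails (ω (k + j + 1)) (cnt ω n (k + j + 1)) := by rw [← h5]; exact ih
      have h7 := U_le_succs _ _ _ h6
      have e : k + ((j + 1 : ℕ) : ℤ) = k + j + 1 := by push_cast; ring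
      have e2 : k + 1 + (j:ℤ) = k + j + 1 := by ring
      rw [e]
      simp only [chain]
      rw [e2]
      exact h7
  have h8 := hind (n+1)
  rw [cnt_far ω n (k + ((n+1 : ℕ) : ℤ)) (by rw [abs_of_nonneg (by positivity)]; push_cast; omega),
    succs_zero] at h8
  have := hs (n+1)
  omega

lemma sum_cnt (ω : ℤ → Stack) (a c : ℤ) (h : ∀ n, a ≤ pos ω n ∧ pos ω n ≤ c) (n : ℕ) :
    ∑ y ∈ Finset.Icc a c, cnt ω n y = n := by
  induction n with
  | zero => simp [cnt_zero]
  | succ n ih =>
    have h1 : ∀ y, cnt ω (n+1) y = cnt ω n y + (if y = pos ω n then 1 else 0) := by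
      intro y; rw [cnt_succ]; split_ifs <;> rfl
    simp_rw [h1, Finset.sum_add_distrib, ih]
    rw [Finset.sum_ite_eq', if_pos (Finset.mem_Icc.2 (h n))]

/-- Every nonnegative site is visited. -/
lemma hits (ω : ℤ → Stack) (h1 : ∀ y x, ∃ N, x ≤ fails (flip (ω y)) N)
    (h2 : ∀ w : ℕ, ¬ ∀ j, 0 < chain (fun z s => U z (flip s)) w (fun j : ℕ => ω (-1 - j)) j)
    (k : ℤ) (hk : 0 ≤ k) : ∃ n, pos ω n = k := by
  by_contra hcon
  push Not at hcon
  have hlt : ∀ n, pos ω n < k := by
    intro n
    induction n with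
    | zero =>
      rw [pos_zero]
      have := hcon 0
      rw [pos_zero] at this
      omega
    | succ n ih =>
      have h3 := hcon (n+1)
      rw [pos_succ] at h3 ⊢
      split_ifs at h3 ⊢ <;> omega
  have hcntk : ∀ n, cnt ω n k = 0 := by
    intro n
    induction n with
    | zero => rfl
    | succ n ih => rw [cnt_succ, if_neg (fun h => hcon n h.symm), ih]
  -- all sites are visited finitely often
  have hfin : ∀ d : ℕ, ∃ B, ∀ n, cnt ω n (k - d) ≤ B := by
    intro d
    induction d with
    | zero => exact ⟨0, fun n => by simp [hcntk n]⟩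
    | succ d ih =>
      obtain ⟨B, hB⟩ := ih
      obtain ⟨N, hN⟩ := h1 (k - (d + 1 : ℕ)) (B + 2)
      refine ⟨N, fun n => ?_⟩
      by_contra hc
      push Not at hc
      rw [fails_flip] at hN
      have h3 := succs_mono (ω (k - (d + 1 : ℕ))) hc.le
      have h4 := visit_bound ω n (k - (d + 1 : ℕ))
      have e : k - ((d + 1 : ℕ) : ℤ) + 1 = k - d := by push_cast; ring
      rw [e] at h4
      have h5 := hB n
      have h6 : (if pos ω n = k - (d:ℤ) then 1 else 0) ≤ 1 := by split_ifs <;> omega
      omega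
  -- positions are unbounded below
  have hunb : ∀ M : ℕ, ∃ n, pos ω n < k - M := by
    intro M
    by_contra hc
    push Not at hc
    choose B hB using hfin
    have h3 := sum_cnt ω (k - M) k (fun n => ⟨hc n, (hlt n).le⟩)
    set S := ∑ d ∈ Finset.range (M+1), B d with hS
    have h4 := h3 (S + 1)
    have h5 : ∑ y ∈ Finset.Icc (k - (M:ℤ)) k, cnt ω (S+1) y ≤
        ∑ y ∈ Finset.Icc (k - (M:ℤ)) k, B (k - y).toNat := by
      refine Finset.sum_le_sum (fun y hy => ?_)
      rw [Finset.mem_Icc] at hy
      have := hB (k - y).toNat (S+1)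
      rwa [Int.toNat_of_nonneg (by omega), sub_sub_cancel] at this
    have h6 : ∑ y ∈ Finset.Icc (k - (M:ℤ)) k, B (k - y).toNat = S := by
      rw [hS]
      refine Finset.sum_bij' (fun y _ => (k - y).toNat) (fun d _ => k - d) ?_ ?_ ?_ ?_ ?_
      · intro y hy; rw [Finset.mem_Icc] at hy; rw [Finset.mem_range]; omega
      · intro d hd; rw [Finset.mem_range] at hd; rw [Finset.mem_Icc]; omega
      · intro y hy; rw [Finset.mem_Icc] at hy; omega
      · intro d hd; simp
      · intro y hy; rfl
    omega
  -- 0 is visited a bounded number of times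
  obtain ⟨w, hw⟩ := hfin k.toNat
  rw [Int.toNat_of_nonneg hk, sub_self] at hw
  refine h2 w (fun j => ?_)
  -- for each horizon
  have key : ∀ n : ℕ, ∀ j : ℕ, pos ω n ≤ -(j:ℤ) - 1 →
      fails (ω (-(j:ℤ))) (cnt ω n (-(j:ℤ))) ≤
        chain (fun z s => U z (flip s)) w (fun j : ℕ => ω (-1 - j)) j := by
    intro n j
    induction j with
    | zero =>
      intro _
      simp only [chain]
      push_cast
      rw [neg_zero]
      exact (fails_le _ _).trans (hw n)
    | succ j ih =>
      intro hp
      push_cast at hp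
      have h3 := ih (by omega)
      have h4 := inv_left ω n (-(j:ℤ) - 1) (by omega)
      rw [if_pos (by omega), sub_add_cancel] at h4
      have e : -(((j + 1 : ℕ)) : ℤ) = -(j:ℤ) - 1 := by push_cast; ring
      rw [e]
      simp only [chain]
      have e2 : (-1 - (j:ℤ)) = -(j:ℤ) - 1 := by ring
      rw [e2]
      rw [← succs_flip]
      apply succs_le_U
      · rw [fails_flip]
        omega
      · exact h1 _ _
  obtain ⟨n, hn⟩ := hunb (k.toNat + j + 1)
  have hn' : pos ω n ≤ -(j:ℤ) - 1 := by
    have : (k.toNat : ℤ) = k := Int.toNat_of_nonneg hk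
    push_cast at hn
    omega
  have h5 := key n j hn'
  have h6 := inv_left ω n (-(j:ℤ) - 1) (by omega)
  rw [if_pos (by omega), sub_add_cancel] at h6
  omega

/-- deterministic transience criterion -/
lemma transient_of (ω : ℤ → Stack) (m : ℕ) (h1 : ∀ y x, ∃ N, x ≤ fails (flip (ω y)) N)
    (h2 : ∀ w : ℕ, ¬ ∀ j, 0 < chain (fun z s => U z (flip s)) w (fun j : ℕ => ω (-1 - j)) j)
    (h3 : ∀ K : ℕ, ∃ k : ℕ, K ≤ k ∧ (∀ i < m, ω (k:ℤ) i = true) ∧
      ∀ j, 0 < chain U m (fun j : ℕ => ω ((k:ℤ) + 1 + j)) j) :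
    Tendsto (pos ω) atTop atTop := by
  rw [tendsto_atTop]
  intro b
  obtain ⟨k, hk, hm, hs⟩ := h3 (b.toNat + 1)
  obtain ⟨n', hn'⟩ := hits ω h1 h2 k (by positivity)
  filter_upwards [eventually_ge_atTop n'] with n hn
  have := barrier ω k (by omega) m hm hs n n' hn hn'
  have h4 := Int.self_le_toNat b
  omega

end R692.ERW
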