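import Pool.Agent.R692.ERW7

open MeasureTheory ProbabilityTheory Filter Topology
open scoped ENNReal

namespace R692.ERW

/-- the good event at level `k` for a sequence of stacks -/
def good (m k : ℕ) : Set (ℕ → Stack) :=
  {c | (∀ i < m, c k i = true) ∧ ∀ j, 0 < chain U m (fun j : ℕ => c (k + 1 + j)) j}

/-- σ-algebra of the `i`-th stack -/
@[instance_reducible]
def sg (i : ℕ) : MeasurableSpace (ℕ → Stack) :=
  MeasurableSpace.comap (fun c : ℕ → Stack => c i) inferInstance

lemma sg_le (i : ℕ) : sg i ≤ (inferInstance : MeasurableSpace (ℕ → Stack)) := by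
  intro s hs
  obtain ⟨t, ht, rfl⟩ := hs
  exact (measurable_pi_apply i) ht

lemma shift_measurable (K : Set ℕ) (f : ℕ → ℕ) (hf : ∀ j, f j ∈ K) :
    Measurable[⨆ i ∈ K, sg i] (fun c : ℕ → Stack => fun j => c (f j)) := by
  refine @measurable_pi_lambda _ _ _ (⨆ i ∈ K, sg i) _ _ (fun j => ?_)
  intro t ht
  have h1 : sg (f j) ≤ ⨆ i ∈ K, sg i := le_biSup sg (hf j)
  exact h1 _ ⟨t, ht, rfl⟩

lemma measurableSet_survive (m : ℕ) :
    MeasurableSet {c : ℕ → Stack | ∀ j, 0 < chain U m c j} := by
  have : {c : ℕ → Stack | ∀ j, 0 < chain U m c j} = ⋂ j, {c | 0 < chain U m c j} := by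
    ext c; simp
  rw [this]
  exact MeasurableSet.iInter (fun j => measurable_chain U measurable_U m j measurableSet_Ioi)

lemma measurableSet_prefix (m : ℕ) : MeasurableSet {b : Stack | ∀ i < m, b i = true} := by
  have e : {b : Stack | ∀ i < m, b i = true} =
      Set.pi (Finset.range m : Set ℕ) (fun _ => ({true} : Set Bool)) := by
    ext b; simp [Set.mem_pi]
  rw [e]
  exact MeasurableSet.pi (Finset.countable_toSet _) (fun i _ => measurableSet_singleton _)

lemma good_zero_measurable (m : ℕ) : MeasurableSet (good m 0) := by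
  have h1 : MeasurableSet ((fun c : ℕ → Stack => c 0) ⁻¹' {b : Stack | ∀ i < m, b i = true}) :=
    (measurable_pi_apply 0) (measurableSet_prefix m)
  have h2 : Measurable (fun c : ℕ → Stack => fun j : ℕ => c (0 + 1 + j)) := by fun_prop
  exact h1.inter (h2 (measurableSet_survive m))

lemma good_shift (m k : ℕ) : good m k = (fun c : ℕ → Stack => fun j => c (k + j)) ⁻¹' good m 0 := by
  ext c
  simp only [good, Set.mem_preimage, Set.mem_ofPred_eq]
  have : (fun j : ℕ => c (k + 1 + j)) = fun j : ℕ => c (k + (0 + 1 + j)) := by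
    ext j; congr 1; omega
  rw [this, add_zero]

lemma good_measurable_tail (m k K : ℕ) (h : K ≤ k) :
    MeasurableSet[⨆ i ∈ {i | K ≤ i}, sg i] (good m k) := by
  rw [good_shift]
  exact shift_measurable {i | K ≤ i} (fun j => k + j) (fun j => by
    show K ≤ k + j
    omega) (good_zero_measurable m)

lemma seq_indep : iIndep sg (seqM (coins env)) := by
  have hind : iIndepFun (fun (i : ℕ) (c : ℕ → Stack) => c i) (seqM (coins env)) :=
    iIndepFun_infinitePi (P := fun _ => coins env) (X := fun _ x => x) (fun i => measurable_id)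
  exact hind

lemma seq_shift (k : ℕ) : (seqM (coins env)).map (fun c : ℕ → Stack => fun j => c (k + j)) =
    seqM (coins env) :=
  Measure.map_infinitePi_infinitePi_of_inj (P := fun _ : ℕ => coins env)
    (f := fun j => k + j) (fun a b h => by simpa using h)

lemma good_prob (m k : ℕ) : (seqM (coins env)) (good m k) = (seqM (coins env)) (good m 0) := by
  rw [good_shift]
  have hmeas : Measurable (fun c : ℕ → Stack => fun j => c (k + j)) := by fun_prop
  rw [← Measure.map_apply hmeas (good_zero_measurable m), seq_shift]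

lemma good_pos (m : ℕ) (hm : 0 < (seqM (coins env)) {c | ∀ j, 0 < chain U m c j}) :
    0 < (seqM (coins env)) (good m 0) := by
  have hI := indep_iSup_of_disjoint (fun i => sg_le i) seq_indep
    (S := {0}) (T := {i | 1 ≤ i}) (by
      rw [Set.disjoint_left]
      intro a ha hb
      simp only [Set.mem_singleton_iff] at ha
      simp only [Set.mem_ofPred_eq] at hb
      omega)
  have m1 : MeasurableSet[⨆ i ∈ ({0} : Set ℕ), sg i]
      ((fun c : ℕ → Stack => c 0) ⁻¹' {b : Stack | ∀ i < m, b i = true}) := by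
    have h1 : sg 0 ≤ ⨆ i ∈ ({0} : Set ℕ), sg i := le_biSup sg (Set.mem_singleton 0)
    exact h1 _ ⟨_, measurableSet_prefix m, rfl⟩
  have m2 : MeasurableSet[⨆ i ∈ {i : ℕ | 1 ≤ i}, sg i]
      ((fun c : ℕ → Stack => fun j : ℕ => c (0 + 1 + j)) ⁻¹' {c | ∀ j, 0 < chain U m c j}) :=
    shift_measurable {i : ℕ | 1 ≤ i} (fun j => 0 + 1 + j) (fun j => by
      show 1 ≤ 0 + 1 + j
      omega) (measurableSet_survive m)
  have h3 := (Indep_iff _ _ _).1 hI _ _ m1 m2
  have e : good m 0 = ((fun c : ℕ → Stack => c 0) ⁻¹' {b : Stack | ∀ i < m, b i = true}) ∩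
      ((fun c : ℕ → Stack => fun j : ℕ => c (0 + 1 + j)) ⁻¹' {c | ∀ j, 0 < chain U m c j}) := rfl
  rw [e, h3]
  have p1 : (seqM (coins env)) ((fun c : ℕ → Stack => c 0) ⁻¹' {b : Stack | ∀ i < m, b i = true}) =
      (coins env) {b : Stack | ∀ i < m, b i = true} := by
    have hmeas : Measurable (fun c : ℕ → Stack => c 0) := measurable_pi_apply 0
    rw [← Measure.map_apply hmeas (measurableSet_prefix m)]
    congr 1
    exact Measure.infinitePi_map_eval (fun _ : ℕ => coins env) 0
  have p2 : (seqM (coins env)) ((fun c : ℕ → Stack => fun j : ℕ => c (0 + 1 + j)) ⁻¹'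
      {c | ∀ j, 0 < chain U m c j}) = (seqM (coins env)) {c | ∀ j, 0 < chain U m c j} := by
    have hmeas : Measurable (fun c : ℕ → Stack => fun j : ℕ => c (0 + 1 + j)) := by fun_prop
    rw [← Measure.map_apply hmeas (measurableSet_survive m)]
    rw [seq_shift]
  rw [p1, p2]
  refine ENNReal.mul_pos ?_ hm.ne'
  have := prob_prefix m
  have h4 : 0 < ENNReal.ofReal ((1/8) ^ m) := by
    rw [ENNReal.ofReal_pos]; positivity
  exact (lt_of_lt_of_le h4 this).ne'

/-- infinitely many good levels, for a sequence of stacks -/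
lemma good_infinitely (m : ℕ) (hm : 0 < (seqM (coins env)) {c | ∀ j, 0 < chain U m c j}) :
    ∀ᵐ c ∂(seqM (coins env)), ∀ K : ℕ, ∃ k, K ≤ k ∧ c ∈ good m k := by
  set A : ℕ → Set (ℕ → Stack) := fun K => ⋃ k ∈ {k | K ≤ k}, good m k with hA
  have hAK : ∀ K, MeasurableSet[⨆ i ∈ {i | K ≤ i}, sg i] (A K) := by
    intro K
    refine @MeasurableSet.biUnion _ _ (⨆ i ∈ {i | K ≤ i}, sg i) _ _ (Set.to_countable _) ?_
    intro k hk
    exact good_measurable_tail m k K hk
  have hle : ∀ K : ℕ, (⨆ i ∈ {i | K ≤ i}, sg i) ≤ (inferInstance : MeasurableSpace (ℕ → Stack)) :=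
    fun K => iSup₂_le (fun i _ => sg_le i)
  have hanti : Antitone A := by
    intro K K' h c hc
    simp only [hA, Set.mem_iUnion, Set.mem_ofPred_eq] at hc ⊢
    obtain ⟨k, hk, hc⟩ := hc
    exact ⟨k, h.trans hk, hc⟩
  have htail : MeasurableSet[limsup sg atTop] (⋂ K, A K) := by
    rw [limsup_eq_iInf_iSup_of_nat]
    rw [MeasurableSpace.measurableSet_iInf]
    intro K
    have e : ⋂ K, A K = ⋂ K', A (K + K') := by
      ext c
      simp only [Set.mem_iInter]
      constructor
      · intro h K'; exact h _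
      · intro h K'; exact hanti (by omega : K' ≤ K + K') (h K')
    rw [e]
    refine @MeasurableSet.iInter _ _ (⨆ i, ⨆ (_ : i ≥ K), sg i) _ _ (fun K' => ?_)
    have h1 : (⨆ i ∈ {i | K + K' ≤ i}, sg i) ≤ ⨆ i, ⨆ (_ : i ≥ K), sg i := by
      refine iSup₂_le (fun i hi => ?_)
      refine le_iSup₂_of_le i ?_ le_rfl
      simp only [Set.mem_ofPred_eq] at hi
      omega
    exact h1 _ (hAK (K + K'))
  have h01 := measure_zero_or_one_of_measurableSet_limsup_atTop (fun i => sg_le i) seq_indep htail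
  have hpos : 0 < (seqM (coins env)) (⋂ K, A K) := by
    have h1 : Tendsto (fun K => (seqM (coins env)) (A K)) atTop
        (𝓝 ((seqM (coins env)) (⋂ K, A K))) :=
      tendsto_measure_iInter_atTop (fun K => (hle K _ (hAK K)).nullMeasurableSet) hanti
        ⟨0, measure_ne_top _ _⟩
    refine lt_of_lt_of_le (good_pos m hm) (ge_of_tendsto' h1 (fun K => ?_))
    rw [← good_prob m K]
    apply measure_mono
    intro c hc
    simp only [hA, Set.mem_iUnion, Set.mem_ofPred_eq]
    exact ⟨K, le_rfl, hc⟩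
  have hone : (seqM (coins env)) (⋂ K, A K) = 1 := by
    rcases h01 with h | h
    · rw [h] at hpos; exact absurd hpos (lt_irrefl _)
    · exact h
  have hms : MeasurableSet (⋂ K, A K) := MeasurableSet.iInter (fun K => hle K _ (hAK K))
  have hae : ∀ᵐ c ∂(seqM (coins env)), c ∈ ⋂ K, A K := by
    rw [ae_iff]
    have : {c | ¬ c ∈ ⋂ K, A K} = (⋂ K, A K)ᶜ := rfl
    rw [this, prob_compl_eq_one_sub hms, hone, tsub_self]
  filter_upwards [hae] with c hc K
  have := Set.mem_iInter.1 hc K
  simp only [hA, Set.mem_iUnion, Set.mem_ofPred_eq] at this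
  obtain ⟨k, hk, h⟩ := this
  exact ⟨k, hk, h⟩

/-- law of the stacks at all sites -/
noncomputable def MM : Measure (ℤ → Stack) := Measure.infinitePi (fun _ : ℤ => coins env)

instance : IsProbabilityMeasure MM := by unfold MM; infer_instance

lemma MM_map (f : ℕ → ℤ) (hf : Function.Injective f) :
    MM.map (fun ω : ℤ → Stack => fun j => ω (f j)) = seqM (coins env) :=
  Measure.map_infinitePi_infinitePi_of_inj (P := fun _ : ℤ => coins env) hf

/-- The walk driven by the stacks is transient to the right. -/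
theorem stack_transient : ∀ᵐ ω ∂MM, Tendsto (pos ω) atTop atTop := by
  obtain ⟨m, hm⟩ := survive
  have a1 : ∀ᵐ ω ∂MM, ∀ y x, ∃ N, x ≤ fails (flip (ω y)) N := by
    rw [ae_all_iff]
    intro y
    have h1 := ae_fails env' (3/2) sum_abs_env'
    rw [← coins_map_flip] at h1
    have h2 := ae_of_ae_map measurable_flip.aemeasurable h1
    have hmap : MM.map (fun ω : ℤ → Stack => ω y) = coins env :=
      Measure.infinitePi_map_eval (fun _ : ℤ => coins env) y
    rw [← hmap] at h2
    have hmeas : Measurable (fun ω : ℤ → Stack => ω y) := measurable_pi_apply y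
    exact ae_of_ae_map hmeas.aemeasurable h2
  have a2 : ∀ᵐ ω ∂MM, ∀ w : ℕ, ¬ ∀ j, 0 < chain (fun z s => U z (flip s)) w
      (fun j : ℕ => ω (-1 - j)) j := by
    rw [ae_all_iff]
    intro w
    have h1 : ∀ᵐ c ∂(seqM (coins env)), ¬ ∀ j, 0 < chain (fun z s => U z (flip s)) w c j := by
      rw [ae_iff]
      simp only [not_not]
      exact extinct w
    rw [← MM_map (fun j : ℕ => -1 - (j:ℤ)) (fun a b h => by simpa using h)] at h1
    have hmeas : Measurable (fun ω : ℤ → Stack => fun j : ℕ => ω (-1 - (j:ℤ))) := by fun_prop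
    exact ae_of_ae_map hmeas.aemeasurable h1
  have a3 : ∀ᵐ ω ∂MM, ∀ K : ℕ, ∃ k : ℕ, K ≤ k ∧ (∀ i < m, ω (k:ℤ) i = true) ∧
      ∀ j, 0 < chain U m (fun j : ℕ => ω ((k:ℤ) + 1 + j)) j := by
    have h1 := good_infinitely m hm
    rw [← MM_map (fun j : ℕ => (j:ℤ)) (fun a b h => by simpa using h)] at h1
    have hmeas : Measurable (fun ω : ℤ → Stack => fun j : ℕ => ω (j:ℤ)) := by fun_prop
    have h2 := ae_of_ae_map hmeas.aemeasurable h1
    filter_upwards [h2] with ω hω K
    obtain ⟨k, hk, h3, h4⟩ := hω K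
    refine ⟨k, hk, h3, ?_⟩
    simpa using h4
  filter_upwards [a1, a2, a3] with ω h1 h2 h3
  exact transient_of ω m h1 h2 h3

end R692.ERW
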