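import Pool.Agent.R692.ERW8

open MeasureTheory ProbabilityTheory Filter Topology
open scoped ENNReal

namespace R692.ERW

/-- number of previous visits of a path to its current position: `#{k < n : w k = w n}` -/
def visits (w : ℕ → ℤ) (n : ℕ) : ℕ := ((Finset.range n).filter (fun k => w k = w n)).card

/-- `X` is (a version of) the excited random walk in the identically piled cookie environment
`p`, where `p i` is the strength of the `(i+1)`-st cookie of every pile. -/
structure IsERW (p : ℕ → unitInterval) {Ω : Type*} [MeasurableSpace Ω] (P : Measure Ω)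
    (X : ℕ → Ω → ℤ) : Prop where
  meas : ∀ n, Measurable (X n)
  start : ∀ᵐ ω ∂P, X 0 ω = 0
  right : ∀ (n : ℕ) (w : ℕ → ℤ),
    P {ω | (∀ k ≤ n, X k ω = w k) ∧ X (n+1) ω = w n + 1} =
      ENNReal.ofReal (p (visits w n) : ℝ) * P {ω | ∀ k ≤ n, X k ω = w k}
  left : ∀ (n : ℕ) (w : ℕ → ℤ),
    P {ω | (∀ k ≤ n, X k ω = w k) ∧ X (n+1) ω = w n - 1} =
      ENNReal.ofReal (1 - (p (visits w n) : ℝ)) * P {ω | ∀ k ≤ n, X k ω = w k}

/-- path probabilities -/
noncomputable def Q (p : ℕ → unitInterval) (w : ℕ → ℤ) : ℕ → ℝ≥0∞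
  | 0 => if w 0 = 0 then 1 else 0
  | n+1 => (if w (n+1) = w n + 1 then ENNReal.ofReal (p (visits w n) : ℝ) else
      if w (n+1) = w n - 1 then ENNReal.ofReal (1 - (p (visits w n) : ℝ)) else 0) * Q p w n

lemma path_prob (p : ℕ → unitInterval) {Ω : Type*} [MeasurableSpace Ω] (P : Measure Ω)
    [IsProbabilityMeasure P] (X : ℕ → Ω → ℤ) (h : IsERW p P X) (w : ℕ → ℤ) (n : ℕ) :
    P {ω | ∀ k ≤ n, X k ω = w k} = Q p w n := by
  induction n with
  | zero =>
    have e : {ω | ∀ k ≤ 0, X k ω = w k} = {ω | X 0 ω = w 0} := by ext ω; simp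
    rw [e, Q]
    split_ifs with h0
    · have : {ω | X 0 ω = w 0} =ᵐ[P] (Set.univ : Set Ω) := by
        refine eventuallyEq_univ.2 ?_
        filter_upwards [h.start] with ω hω
        exact hω.trans h0.symm
      rw [measure_congr this, measure_univ]
    · rw [measure_eq_zero_iff_ae_notMem]
      filter_upwards [h.start] with ω hω h1
      exact h0 (Eq.trans (Eq.symm h1) hω)
  | succ n ih =>
    have e : {ω | ∀ k ≤ n + 1, X k ω = w k} =
        {ω | (∀ k ≤ n, X k ω = w k) ∧ X (n+1) ω = w (n+1)} := by
      ext ω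
      simp only [Set.mem_ofPred_eq]
      constructor
      · intro h; exact ⟨fun k hk => h k (by omega), h _ le_rfl⟩
      · rintro ⟨h1, h2⟩ k hk
        rcases Nat.lt_or_ge n k with h3 | h3
        · have : k = n + 1 := by omega
          rw [this]; exact h2
        · exact h1 k h3
    rw [e, Q]
    split_ifs with h1 h2
    · rw [h1, h.right n w, ih]
    · rw [h2, h.left n w, ih]
    · rw [zero_mul]
      -- the three events are disjoint and the first two exhaust the mass
      set A := {ω | ∀ k ≤ n, X k ω = w k} with hA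
      set R := {ω | (∀ k ≤ n, X k ω = w k) ∧ X (n+1) ω = w n + 1} with hR
      set L := {ω | (∀ k ≤ n, X k ω = w k) ∧ X (n+1) ω = w n - 1} with hL
      set O := {ω | (∀ k ≤ n, X k ω = w k) ∧ X (n+1) ω = w (n+1)} with hO
      have mA : MeasurableSet A := by
        have : A = ⋂ k ∈ {k | k ≤ n}, (X k) ⁻¹' {w k} := by ext ω; simp [hA]
        rw [this]
        exact MeasurableSet.biInter (Set.to_countable _)
          (fun k _ => (h.meas k) (measurableSet_singleton _))
      have mR : MeasurableSet R := by
        have : R = A ∩ (X (n+1)) ⁻¹' {w n + 1} := by ext ω; simp [hA, hR]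
        rw [this]
        exact mA.inter ((h.meas (n+1)) (measurableSet_singleton _))
      have mL : MeasurableSet L := by
        have : L = A ∩ (X (n+1)) ⁻¹' {w n - 1} := by ext ω; simp [hA, hL]
        rw [this]
        exact mA.inter ((h.meas (n+1)) (measurableSet_singleton _))
      have d1 : Disjoint R L := by
        rw [Set.disjoint_left]
        rintro ω ⟨_, h3⟩ ⟨_, h4⟩
        omega
      have d2 : Disjoint O (R ∪ L) := by
        rw [Set.disjoint_left]
        rintro ω ⟨_, h3⟩ (⟨_, h4⟩ | ⟨_, h4⟩)
        · exact h1 (h3.symm.trans h4)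
        · exact h2 (h3.symm.trans h4)
      have s1 : P (R ∪ L) = P A := by
        rw [measure_union d1 mL, hR, hL, h.right n w, h.left n w, ← add_mul,
          ← ENNReal.ofReal_add (p (visits w n)).2.1 (by linarith [(p (visits w n)).2.2])]
        have e1 : (p (visits w n) : ℝ) + (1 - (p (visits w n) : ℝ)) = 1 := by ring
        rw [e1, ENNReal.ofReal_one, one_mul]
      have s2 : P O + P (R ∪ L) ≤ P A := by
        rw [← measure_union d2 (mR.union mL)]
        apply measure_mono
        rintro ω (h3 | h3 | h3)
        · exact h3.1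
        · exact h3.1
        · exact h3.1
      rw [s1] at s2
      have s3 : P A ≠ ∞ := measure_ne_top _ _
      have s4 : P O + P A ≤ 0 + P A := by rw [zero_add]; exact s2
      exact le_antisymm ((ENNReal.add_le_add_iff_right s3).1 s4) bot_le

/-- uniqueness in law -/
lemma law_unique (μ ν : Measure (ℕ → ℤ)) [IsProbabilityMeasure μ] [IsProbabilityMeasure ν]
    (h : ∀ (w : ℕ → ℤ) (n : ℕ), μ {x | ∀ k ≤ n, x k = w k} = ν {x | ∀ k ≤ n, x k = w k}) :
    μ = ν := by
  have key : ∀ n, μ.map (Finset.range (n+1)).restrict = ν.map (Finset.range (n+1)).restrict := by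
    intro n
    refine Measure.ext_of_singleton (fun y => ?_)
    rw [Measure.map_apply (by fun_prop) (measurableSet_singleton _),
      Measure.map_apply (by fun_prop) (measurableSet_singleton _)]
    set w : ℕ → ℤ := fun i => if h : i ∈ Finset.range (n+1) then y ⟨i, h⟩ else 0 with hw
    have e : ((Finset.range (n+1)).restrict (π := fun _ => ℤ)) ⁻¹' {y} = {x | ∀ k ≤ n, x k = w k} := by
      ext x
      simp only [Set.mem_preimage, Set.mem_singleton_iff, Set.mem_ofPred_eq]
      constructor
      · intro hx k hk
        have h1 : k ∈ Finset.range (n+1) := by rw [Finset.mem_range]; omega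
        have h2 := congrFun hx ⟨k, h1⟩
        simp only [hw]
        rw [dif_pos h1, ← h2]
        rfl
      · intro hx
        ext ⟨k, hk⟩
        have h2 := hx k (by rw [Finset.mem_range] at hk; omega)
        simp only [hw] at h2
        rw [dif_pos hk] at h2
        exact_mod_cast h2
    rw [e]
    exact h w n
  have hP : ∀ I : Finset ℕ, ν.map I.restrict = μ.map I.restrict := by
    intro I
    obtain ⟨n, hn⟩ : ∃ n, I ⊆ Finset.range (n+1) := by
      refine ⟨I.sup id, fun i hi => ?_⟩
      rw [Finset.mem_range]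
      have := Finset.le_sup (f := id) hi
      simp only [id] at this
      omega
    have e : (I.restrict : (ℕ → ℤ) → _) = (Finset.restrict₂ hn) ∘ (Finset.range (n+1)).restrict := rfl
    rw [e, ← Measure.map_map (by fun_prop) (by fun_prop), ← Measure.map_map (by fun_prop) (by fun_prop),
      key n]
  have h1 : IsProjectiveLimit μ (fun I : Finset ℕ => μ.map I.restrict) := fun I => rfl
  have h2 : IsProjectiveLimit ν (fun I : Finset ℕ => μ.map I.restrict) := fun I => hP I
  exact h1.unique h2

/-! ### the stack walk is an excited random walk -/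

lemma cnt_eq (ω : ℤ → Stack) (n : ℕ) (y : ℤ) :
    cnt ω n y = ((Finset.range n).filter (fun k => pos ω k = y)).card := by
  induction n with
  | zero => simp [cnt_zero]
  | succ n ih =>
    rw [cnt_succ, Finset.range_add_one, Finset.filter_insert]
    by_cases h : y = pos ω n
    · rw [if_pos h, if_pos h.symm, Finset.card_insert_of_notMem (by simp), ih]
    · rw [if_neg h, if_neg (fun h' => h h'.symm), ih]

lemma cnt_visits (ω : ℤ → Stack) (n : ℕ) (w : ℕ → ℤ) (h : ∀ k ≤ n, pos ω k = w k) :
    cnt ω n (w n) = visits w n := by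
  rw [cnt_eq]
  unfold visits
  congr 1
  apply Finset.filter_congr
  intro k hk
  rw [Finset.mem_range] at hk
  rw [h k hk.le]

lemma pos_next (ω : ℤ → Stack) (n : ℕ) (w : ℕ → ℤ) (h : ∀ k ≤ n, pos ω k = w k) :
    pos ω (n+1) = if ω (w n) (visits w n) then w n + 1 else w n - 1 := by
  rw [pos_succ, h n le_rfl, cnt_visits ω n w h]

/-- cylinder of used trials -/
def cyl (w : ℕ → ℤ) (dir : ℕ → Bool) (n : ℕ) : Set (ℤ → Stack) :=
  {ω | ∀ k < n, ω (w k) (visits w k) = dir k}

lemma visits_lt (w : ℕ → ℤ) (k l : ℕ) (h : k < l) (hw : w k = w l) : visits w k < visits w l := by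
  unfold visits
  apply Finset.card_lt_card
  rw [Finset.ssubset_iff_of_subset]
  · refine ⟨k, ?_, ?_⟩
    · simp [h, hw]
    · simp
  · intro i hi
    simp only [Finset.mem_filter, Finset.mem_range] at hi ⊢
    exact ⟨by omega, hi.2.trans hw⟩

lemma coord_indep : iIndepFun (fun (q : ℤ × ℕ) (ω : ℤ → Stack) => ω q.1 q.2) MM :=
  iIndepFun_uncurry_infinitePi' (fun (_ : ℤ) (i : ℕ) => bern (env i)) (X := fun _ _ x => x)
    (fun _ _ => measurable_id)

lemma cyl_prob (w : ℕ → ℤ) (dir : ℕ → Bool) (n : ℕ) :
    MM (cyl w dir n) = ∏ k ∈ Finset.range n, (bern (env (visits w k))) {dir k} := by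
  have hinj : Function.Injective (fun k : ℕ => (w k, visits w k)) := by
    intro k l hkl
    simp only [Prod.mk.injEq] at hkl
    rcases lt_trichotomy k l with h | h | h
    · have := visits_lt w k l h hkl.1; omega
    · exact h
    · have := visits_lt w l k h hkl.1.symm; omega
  have h1 := coord_indep.precomp hinj
  have h2 : MM (⋂ i ∈ Finset.range n, (fun ω : ℤ → Stack => ω (w i) (visits w i)) ⁻¹' {dir i}) =
      ∏ i ∈ Finset.range n, MM ((fun ω : ℤ → Stack => ω (w i) (visits w i)) ⁻¹' {dir i}) :=
    (iIndepFun_iff_measure_inter_preimage_eq_mul.1 h1) (Finset.range n)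
    (sets := fun k => {dir k}) (fun k _ => measurableSet_singleton _)
  have e : cyl w dir n = ⋂ i ∈ Finset.range n,
      (fun ω : ℤ → Stack => ω (w i) (visits w i)) ⁻¹' {dir i} := by
    ext ω
    simp [cyl]
  rw [e, h2]
  refine Finset.prod_congr rfl (fun k _ => ?_)
  have hmeas : Measurable (fun ω : ℤ → Stack => ω (w k) (visits w k)) :=
    (measurable_pi_apply (visits w k)).comp (measurable_pi_apply (w k))
  have e3 : MM ((fun ω : ℤ → Stack => ω (w k) (visits w k)) ⁻¹'
      {dir k}) = (MM.map (fun ω : ℤ → Stack => ω (w k) (visits w k))) {dir k} := by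
    rw [Measure.map_apply hmeas (measurableSet_singleton _)]
  rw [e3]
  congr 1
  have e4 : (fun ω : ℤ → Stack => ω (w k) (visits w k)) =
    (fun b : Stack => b (visits w k)) ∘ (fun ω : ℤ → Stack => ω (w k)) := rfl
  rw [e4, ← Measure.map_map (measurable_pi_apply _) (measurable_pi_apply _)]
  have e5 : MM.map (fun ω : ℤ → Stack => ω (w k)) = coins env :=
    Measure.infinitePi_map_eval (fun _ : ℤ => coins env) (w k)
  rw [e5]
  exact Measure.infinitePi_map_eval (fun i : ℕ => bern (env i)) (visits w k)

/-- admissible nearest neighbour paths -/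
def valid (w : ℕ → ℤ) (n : ℕ) : Prop :=
  w 0 = 0 ∧ ∀ k < n, w (k+1) = w k + 1 ∨ w (k+1) = w k - 1

lemma event_eq (w : ℕ → ℤ) (n : ℕ) (hv : valid w n) :
    {ω : ℤ → Stack | ∀ k ≤ n, pos ω k = w k} = cyl w (fun k => decide (w (k+1) = w k + 1)) n := by
  induction n with
  | zero =>
    ext ω
    simp [cyl, pos_zero, hv.1]
  | succ n ih =>
    have hv' : valid w n := ⟨hv.1, fun k hk => hv.2 k (by omega)⟩
    have ih' := ih hv'
    ext ω
    have h1 : ω ∈ {ω : ℤ → Stack | ∀ k ≤ n, pos ω k = w k} ↔
      ω ∈ cyl w (fun k => decide (w (k+1) = w k + 1)) n := by rw [ih']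
    simp only [Set.mem_ofPred_eq, cyl] at h1 ⊢
    constructor
    · intro h k hk
      rcases Nat.lt_or_ge k n with h2 | h2
      · exact h1.1 (fun k hk => h k (by omega)) k h2
      · have hkn : k = n := by omega
        subst hkn
        have h3 := pos_next ω k w (fun j hj => h j (by omega))
        rw [h (k+1) le_rfl] at h3
        cases hb : ω (w k) (visits w k)
        · rw [hb] at h3
          simp only [Bool.false_eq_true, if_false] at h3
          symm; rw [decide_eq_false_iff_not]; omega
        · rw [hb] at h3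
          simp only [if_true] at h3
          symm; rw [decide_eq_true_iff]; exact h3
    · intro h k hk
      have h4 := h1.2 (fun k hk => h k (by omega))
      rcases Nat.lt_or_ge n k with h2 | h2
      · have hkn : k = n + 1 := by omega
        subst hkn
        rw [pos_next ω n w h4, h n (by omega)]
        rcases hv.2 n (by omega) with h5 | h5
        · rw [h5]; simp
        · rw [h5]
          have : decide (w n - 1 = w n + 1) = false := by rw [decide_eq_false_iff_not]; omega
          rw [this]; simp
      · exact h4 k h2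

lemma event_empty (w : ℕ → ℤ) (n : ℕ) (hv : ¬ valid w n) :
    {ω : ℤ → Stack | ∀ k ≤ n, pos ω k = w k} = ∅ := by
  rw [Set.eq_empty_iff_forall_notMem]
  intro ω h
  simp only [Set.mem_ofPred_eq] at h
  apply hv
  refine ⟨(h 0 (by omega)).symm.trans (pos_zero ω), fun k hk => ?_⟩
  have h1 := pos_succ ω k
  rw [h (k+1) (by omega), h k (by omega)] at h1
  split_ifs at h1 with h2
  · exact Or.inl h1
  · exact Or.inr h1

lemma measurable_pos_cnt (n : ℕ) : Measurable (fun ω : ℤ → Stack => pos ω n) ∧
    ∀ y, Measurable (fun ω : ℤ → Stack => cnt ω n y) := by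
  induction n with
  | zero => exact ⟨measurable_const, fun y => measurable_const⟩
  | succ n ih =>
    obtain ⟨ih1, ih2⟩ := ih
    have h1 : Measurable (fun q : ℤ × (ℤ → Stack) => cnt q.2 n q.1) :=
      measurable_from_prod_countable_right ih2
    have h2 : Measurable (fun ω : ℤ → Stack => cnt ω n (pos ω n)) :=
      h1.comp (ih1.prodMk measurable_id)
    have h3 : Measurable (fun q : (ℤ × ℕ) × (ℤ → Stack) => q.2 q.1.1 q.1.2) :=
      measurable_from_prod_countable_right (fun q =>
        (measurable_pi_apply q.2).comp (measurable_pi_apply q.1))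
    have h4 : Measurable (fun ω : ℤ → Stack => ω (pos ω n) (cnt ω n (pos ω n))) :=
      h3.comp ((ih1.prodMk h2).prodMk measurable_id)
    have h5 : MeasurableSet {ω : ℤ → Stack | ω (pos ω n) (cnt ω n (pos ω n)) = true} :=
      h4 (measurableSet_singleton true)
    constructor
    · simp_rw [pos_succ]
      exact Measurable.ite h5 (ih1.add_const 1) (ih1.sub_const 1)
    · intro y
      simp_rw [cnt_succ]
      have h6 : MeasurableSet {ω : ℤ → Stack | y = pos ω n} := by
        have : {ω : ℤ → Stack | y = pos ω n} = (fun ω => pos ω n) ⁻¹' {y} := by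
          ext ω; simp [eq_comm]
        rw [this]
        exact ih1 (measurableSet_singleton y)
      exact Measurable.ite h6 ((ih2 y).add_const 1) (ih2 y)

lemma stack_step (n : ℕ) (w : ℕ → ℤ) (b : Bool) :
    MM {ω | (∀ k ≤ n, pos ω k = w k) ∧ ω (w n) (visits w n) = b} =
      (bern (env (visits w n))) {b} * MM {ω | ∀ k ≤ n, pos ω k = w k} := by
  by_cases hv : valid w n
  · have h1 := event_eq w n hv
    set dir : ℕ → Bool := fun k => if k < n then decide (w (k+1) = w k + 1) else b with hdir
    have e1 : {ω : ℤ → Stack | ∀ k ≤ n, pos ω k = w k} = cyl w dir n := by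
      rw [h1]
      ext ω
      simp only [cyl, Set.mem_ofPred_eq, hdir]
      constructor
      · intro h k hk; rw [if_pos hk]; exact h k hk
      · intro h k hk; have := h k hk; rwa [if_pos hk] at this
    have e2 : {ω : ℤ → Stack | (∀ k ≤ n, pos ω k = w k) ∧ ω (w n) (visits w n) = b} =
        cyl w dir (n+1) := by
      ext ω
      have h2 : (∀ k ≤ n, pos ω k = w k) ↔ ω ∈ cyl w dir n := by rw [← e1]; rfl
      simp only [Set.mem_ofPred_eq, h2]
      simp only [cyl, Set.mem_ofPred_eq]
      constructor
      · rintro ⟨h3, h4⟩ k hk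
        rcases Nat.lt_or_ge k n with h5 | h5
        · exact h3 k h5
        · have : k = n := by omega
          subst this
          simp only [hdir, lt_irrefl, if_false]; exact h4
      · intro h
        refine ⟨fun k hk => h k (by omega), ?_⟩
        have := h n (by omega)
        simp only [hdir, lt_irrefl, if_false] at this
        exact this
    rw [e1, e2, cyl_prob, cyl_prob, Finset.prod_range_succ, mul_comm]
    congr 1
    simp only [hdir, lt_irrefl, if_false]
  · have h1 := event_empty w n hv
    rw [h1, measure_empty, mul_zero]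
    have : {ω : ℤ → Stack | (∀ k ≤ n, pos ω k = w k) ∧ ω (w n) (visits w n) = b} ⊆
        {ω : ℤ → Stack | ∀ k ≤ n, pos ω k = w k} := fun ω h => h.1
    rw [h1] at this
    rw [Set.subset_eq_empty this rfl, measure_empty]

theorem stack_isERW : IsERW env MM (fun n ω => pos ω n) where
  meas n := (measurable_pos_cnt n).1
  start := Eventually.of_forall (fun ω => pos_zero ω)
  right n w := by
    rw [← bern_true, ← stack_step n w true]
    congr 1
    ext ω
    simp only [Set.mem_ofPred_eq]
    constructor
    · rintro ⟨h1, h2⟩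
      refine ⟨h1, ?_⟩
      rw [pos_next ω n w h1] at h2
      by_contra h3
      rw [if_neg h3] at h2
      omega
    · rintro ⟨h1, h2⟩
      refine ⟨h1, ?_⟩
      rw [pos_next ω n w h1, if_pos h2]
  left n w := by
    rw [← bern_false, ← stack_step n w false]
    congr 1
    ext ω
    simp only [Set.mem_ofPred_eq]
    constructor
    · rintro ⟨h1, h2⟩
      refine ⟨h1, ?_⟩
      rw [pos_next ω n w h1] at h2
      by_contra h3
      rw [Bool.not_eq_false] at h3
      rw [if_pos h3] at h2
      omega
    · rintro ⟨h1, h2⟩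
      refine ⟨h1, ?_⟩
      rw [pos_next ω n w h1, h2]
      simp

lemma measurableSet_tendsto : MeasurableSet {x : ℕ → ℤ | Tendsto x atTop atTop} := by
  have e : {x : ℕ → ℤ | Tendsto x atTop atTop} =
      ⋂ b : ℤ, ⋃ N : ℕ, ⋂ n : ℕ, {x | N ≤ n → b ≤ x n} := by
    ext x
    simp only [Set.mem_ofPred_eq, tendsto_atTop, eventually_atTop, Set.mem_iInter, Set.mem_iUnion]
  rw [e]
  refine MeasurableSet.iInter (fun b => MeasurableSet.iUnion (fun N => MeasurableSet.iInter
    (fun n => ?_)))
  by_cases h : N ≤ n
  · have : {x : ℕ → ℤ | N ≤ n → b ≤ x n} = (fun x => x n) ⁻¹' Set.Ici b := by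
      ext x; simp [h]
    rw [this]
    exact (measurable_pi_apply n) measurableSet_Ici
  · have : {x : ℕ → ℤ | N ≤ n → b ≤ x n} = Set.univ := by
      ext x; simp [h]
    rw [this]
    exact MeasurableSet.univ

/-- every excited random walk in the environment `env` is transient to the right -/
theorem erw_transient {Ω : Type*} [MeasurableSpace Ω] (P : Measure Ω) [IsProbabilityMeasure P]
    (X : ℕ → Ω → ℤ) (h : IsERW env P X) :
    ∀ᵐ ω ∂P, Tendsto (fun n => X n ω) atTop atTop := by
  have mX : Measurable (fun ω => fun n => X n ω) := measurable_pi_lambda _ h.meas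
  have mY : Measurable (fun ω : ℤ → Stack => fun n => pos ω n) :=
    measurable_pi_lambda _ stack_isERW.meas
  have p1 : IsProbabilityMeasure (P.map (fun ω => fun n => X n ω)) :=
    Measure.isProbabilityMeasure_map mX.aemeasurable
  have p2 : IsProbabilityMeasure (MM.map (fun ω : ℤ → Stack => fun n => pos ω n)) :=
    Measure.isProbabilityMeasure_map mY.aemeasurable
  have hlaw : P.map (fun ω => fun n => X n ω) = MM.map (fun ω : ℤ → Stack => fun n => pos ω n) := by
    refine law_unique _ _ (fun w n => ?_)
    have mC : MeasurableSet {x : ℕ → ℤ | ∀ k ≤ n, x k = w k} := by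
      have : {x : ℕ → ℤ | ∀ k ≤ n, x k = w k} = ⋂ k ∈ {k | k ≤ n}, (fun x => x k) ⁻¹' {w k} := by
        ext x; simp
      rw [this]
      exact MeasurableSet.biInter (Set.to_countable _)
        (fun k _ => (measurable_pi_apply k) (measurableSet_singleton _))
    rw [Measure.map_apply mX mC, Measure.map_apply mY mC]
    exact (path_prob env P X h w n).trans (path_prob env MM _ stack_isERW w n).symm
  have h1 : ∀ᵐ x ∂(MM.map (fun ω : ℤ → Stack => fun n => pos ω n)), Tendsto x atTop atTop := by
    rw [ae_map_iff mY.aemeasurable measurableSet_tendsto]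
    exact stack_transient
  rw [← hlaw] at h1
  exact ae_of_ae_map mX.aemeasurable h1

end R692.ERW
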