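import Mathlib

/-! Tensor products of symbol algebras of degree `p` and the reduced trace. -/

set_option autoImplicit false

open scoped TensorProduct

noncomputable section

namespace Pool.Agent.R692.TV

/-- The defining relations `x ^ p = α`, `y ^ p = β`, `y x = ω x y` of the symbol algebra
`(α, β)_{p,F}`; the generators `x` and `y` are `FreeAlgebra.ι F 0` and `FreeAlgebra.ι F 1`. -/
inductive SymRel (F : Type) [Field F] (p : ℕ) (ω α β : F) :
    FreeAlgebra F (Fin 2) → FreeAlgebra F (Fin 2) → Prop
  | x_pow : SymRel F p ω α β (FreeAlgebra.ι F 0 ^ p) (algebraMap F (FreeAlgebra F (Fin 2)) α)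
  | y_pow : SymRel F p ω α β (FreeAlgebra.ι F 1 ^ p) (algebraMap F (FreeAlgebra F (Fin 2)) β)
  | comm : SymRel F p ω α β (FreeAlgebra.ι F 1 * FreeAlgebra.ι F 0)
      (ω • (FreeAlgebra.ι F 0 * FreeAlgebra.ι F 1))

/-- The symbol algebra `(α, β)_{p,F}`: the `F`-algebra generated by `x, y` subject to
`x ^ p = α`, `y ^ p = β`, `y x = ω x y`. -/
abbrev SymAlg (F : Type) [Field F] (p : ℕ) (ω α β : F) : Type :=
  RingQuot (SymRel F p ω α β)

/-- The tensor product over `F` of the `m` symbol algebras `(α_i, β_i)_{p,F}`. -/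
abbrev SymTensor (F : Type) [Field F] (p m : ℕ) (ω : F) (α β : Fin m → F) : Type :=
  ⨂[F] i : Fin m, SymAlg F p ω (α i) (β i)

/-- `A` is a central division algebra over `F` of degree `n`, that is, of dimension `n ^ 2`. -/
def IsCentralDivisionAlgebra (F A : Type) [Field F] [Ring A] [Algebra F A] (n : ℕ) : Prop :=
  (Nontrivial A ∧ ∀ a : A, a ≠ 0 → IsUnit a) ∧ Algebra.IsCentral F A ∧ Module.finrank F A = n ^ 2

/-- `c` is the reduced trace of the element `a` of the algebra `A` over the field `F`: for some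
isomorphism `φ` of `F̄ ⊗ A` with a full matrix algebra over the algebraic closure `F̄` of `F`, the
trace of the matrix `φ (1 ⊗ a)` is `c`. -/
def IsReducedTrace (F A : Type) [Field F] [Ring A] [Algebra F A] (a : A) (c : F) : Prop :=
  ∃ (n : ℕ) (φ : AlgebraicClosure F ⊗[F] A ≃ₐ[AlgebraicClosure F]
      Matrix (Fin n) (Fin n) (AlgebraicClosure F)),
    Matrix.trace (φ ((1 : AlgebraicClosure F) ⊗ₜ[F] a)) = algebraMap F (AlgebraicClosure F) c

/-- The algebra `A` has an `F`-subspace `V` of dimension greater than `N` which is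
`r`-trace-vanishing: the reduced trace of `v ^ r` is zero for every `v` in `V`. -/
def HasTraceVanishingSubspace (F A : Type) [Field F] [Ring A] [Algebra F A] (r N : ℕ) : Prop :=
  ∃ V : Submodule F A, N < Module.finrank F V ∧ ∀ v ∈ V, IsReducedTrace F A (v ^ r) 0

end Pool.Agent.R692.TV
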