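import Mathlib
import Pool.Agent.R692.TVDefs
import Pool.Agent.Helper51.CompositeDegree

set_option autoImplicit false

open scoped TensorProduct
open Finset

noncomputable section

namespace Pool.Agent.R692.TV

open Pool.Agent.Helper51.CompositeDegree

section General

variable {F : Type} [Field F] {p : ℕ} {ω α β : F}

def gx (F : Type) [Field F] (p : ℕ) (ω α β : F) : SymAlg F p ω α β :=
  RingQuot.mkAlgHom F (SymRel F p ω α β) (FreeAlgebra.ι F 0)

def gy (F : Type) [Field F] (p : ℕ) (ω α β : F) : SymAlg F p ω α β :=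
  RingQuot.mkAlgHom F (SymRel F p ω α β) (FreeAlgebra.ι F 1)

theorem gx_pow : gx F p ω α β ^ p = algebraMap F _ α := by
  rw [gx, ← map_pow, RingQuot.mkAlgHom_rel F SymRel.x_pow, AlgHom.commutes]

theorem gy_pow : gy F p ω α β ^ p = algebraMap F _ β := by
  rw [gy, ← map_pow, RingQuot.mkAlgHom_rel F SymRel.y_pow, AlgHom.commutes]

theorem gy_gx : gy F p ω α β * gx F p ω α β = ω • (gx F p ω α β * gy F p ω α β) := by
  rw [gy, gx, ← map_mul, RingQuot.mkAlgHom_rel F SymRel.comm, map_smul, map_mul]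

/-- the comparison with the symbol algebra of `Helper51` -/
def toSymbol : SymAlg F p ω α β →ₐ[F] Pool.Agent.Helper51.SymbolDefs.SymbolAlg F p ω β α :=
  RingQuot.liftAlgHom F ⟨FreeAlgebra.lift F ![gv F p ω β α, gu F p ω β α], by
    intro x y h
    induction h with
    | x_pow => simp [gv_pow]
    | y_pow => simp [gu_pow]
    | comm => simp [gu_gv]⟩

theorem nontrivial_sym (hp : 0 < p) (hω : IsPrimitiveRoot ω p) : Nontrivial (SymAlg F p ω α β) :=
  haveI := nontrivial_symb (a := β) (b := α) hp hω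
  (toSymbol (F := F) (p := p) (ω := ω) (α := α) (β := β)).toRingHom.domain_nontrivial

/-- the monomial `x ^ i y ^ j` -/
def gmon (F : Type) [Field F] (p : ℕ) (ω α β : F) (g : Fin p × Fin p) : SymAlg F p ω α β :=
  gx F p ω α β ^ g.1.val * gy F p ω α β ^ g.2.val

theorem mono_mul' {A : Type*} [Ring A] [Algebra F A] (X Y : A) (hX : X ^ p = algebraMap F A α)
    (hY : Y ^ p = algebraMap F A β) (hYX : Y * X = ω • (X * Y)) (i j k l : ℕ) :
    (X ^ i * Y ^ j) * (X ^ k * Y ^ l) =
      (ω ^ (j * k) * (α ^ ((i + k) / p) * β ^ ((j + l) / p))) •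
        (X ^ ((i + k) % p) * Y ^ ((j + l) % p)) := by
  have e1 : X ^ (i + k) = α ^ ((i + k) / p) • X ^ ((i + k) % p) := by
    conv_lhs => rw [← Nat.div_add_mod (i + k) p, pow_add, pow_mul, hX, ← map_pow]
    rw [Algebra.smul_def]
  have e2 : Y ^ (j + l) = β ^ ((j + l) / p) • Y ^ ((j + l) % p) := by
    conv_lhs => rw [← Nat.div_add_mod (j + l) p, pow_add, pow_mul, hY, ← map_pow]
    rw [Algebra.smul_def]
  calc (X ^ i * Y ^ j) * (X ^ k * Y ^ l)
      = X ^ i * (Y ^ j * X ^ k) * Y ^ l := by simp only [mul_assoc]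
    _ = ω ^ (j * k) • (X ^ (i + k) * Y ^ (j + l)) := by
        rw [pow_swap ω X Y hYX, mul_smul_comm, smul_mul_assoc, pow_add, pow_add]
        simp only [mul_assoc]
    _ = _ := by
        rw [e1, e2, smul_mul_smul_comm, smul_smul]

theorem span_gmon (hn : 2 ≤ p) : Submodule.span F (Set.range (gmon F p ω α β)) = ⊤ := by
  have hn0 : 0 < p := by omega
  set S := Submodule.span F (Set.range (gmon F p ω α β)) with hS
  have hmem : ∀ i j : ℕ, i < p → j < p → gx F p ω α β ^ i * gy F p ω α β ^ j ∈ S := by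
    intro i j hi hj
    exact Submodule.subset_span ⟨(⟨i, hi⟩, ⟨j, hj⟩), rfl⟩
  have h1 : (1 : SymAlg F p ω α β) ∈ S := by
    have := hmem 0 0 hn0 hn0
    simpa using this
  have hmul : ∀ x ∈ S, ∀ y ∈ S, x * y ∈ S := by
    intro x hx y hy
    induction hx using Submodule.span_induction with
    | mem x hx =>
      induction hy using Submodule.span_induction with
      | mem y hy =>
        obtain ⟨g, rfl⟩ := hx
        obtain ⟨h, rfl⟩ := hy
        rw [gmon, gmon, mono_mul' (gx F p ω α β) (gy F p ω α β) gx_pow gy_pow gy_gx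
          g.1.val g.2.val h.1.val h.2.val]
        exact S.smul_mem _ (hmem _ _ (Nat.mod_lt _ hn0) (Nat.mod_lt _ hn0))
      | zero => simp
      | add y z _ _ h1 h2 => rw [mul_add]; exact S.add_mem h1 h2
      | smul c y _ h1 => rw [mul_smul_comm]; exact S.smul_mem _ h1
    | zero => simp
    | add x z _ _ h1 h2 => rw [add_mul]; exact S.add_mem h1 h2
    | smul c x _ h1 => rw [smul_mul_assoc]; exact S.smul_mem _ h1
  rw [eq_top_iff]
  rintro x -
  obtain ⟨y, rfl⟩ := RingQuot.mkAlgHom_surjective F (SymRel F p ω α β) x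
  induction y using FreeAlgebra.induction with
  | grade0 r =>
    rw [AlgHom.commutes, Algebra.algebraMap_eq_smul_one]
    exact S.smul_mem _ h1
  | grade1 i =>
    fin_cases i
    · have := hmem 1 0 (by omega) hn0
      simpa [gx] using this
    · have := hmem 0 1 hn0 (by omega)
      simpa [gy] using this
  | mul x y hx hy => rw [map_mul]; exact hmul _ hx _ hy
  | add x y hx hy => rw [map_add]; exact S.add_mem hx hy

theorem gx_gmon (g : Fin p × Fin p) : gmon F p ω α β g * gx F p ω α β =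
    ω ^ g.2.val • (gx F p ω α β * gmon F p ω α β g) := by
  have h2 := pow_swap ω (gx F p ω α β) (gy F p ω α β) gy_gx 1 g.2.val
  rw [pow_one, mul_one] at h2
  rw [gmon, mul_assoc, h2, mul_smul_comm, ← mul_assoc, ← mul_assoc, ← pow_succ', ← pow_succ]

theorem gy_gmon (g : Fin p × Fin p) : gy F p ω α β * gmon F p ω α β g =
    ω ^ g.1.val • (gmon F p ω α β g * gy F p ω α β) := by
  have h2 := pow_swap ω (gx F p ω α β) (gy F p ω α β) gy_gx g.1.val 1
  rw [pow_one, one_mul] at h2
  rw [gmon, ← mul_assoc, h2, smul_mul_assoc, mul_assoc, mul_assoc, ← pow_succ', ← pow_succ]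

theorem isUnit_gx (hp : 0 < p) (hα : α ≠ 0) : IsUnit (gx F p ω α β) := isUnit_of_pow hp hα gx_pow

theorem isUnit_gy (hp : 0 < p) (hβ : β ≠ 0) : IsUnit (gy F p ω α β) := isUnit_of_pow hp hβ gy_pow

theorem isUnit_gmon (hp : 0 < p) (hα : α ≠ 0) (hβ : β ≠ 0) (g : Fin p × Fin p) :
    IsUnit (gmon F p ω α β g) :=
  ((isUnit_gx hp hα).pow _).mul ((isUnit_gy hp hβ).pow _)

theorem linInd_gmon (hp : 2 ≤ p) (hω : IsPrimitiveRoot ω p) (hα : α ≠ 0) (hβ : β ≠ 0) :
    LinearIndependent F (gmon F p ω α β) := by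
  classical
  have hp0 : 0 < p := by omega
  have hω0 : ω ≠ 0 := hω.ne_zero hp0.ne'
  have hnt := nontrivial_sym (α := α) (β := β) hp0 hω
  rw [Fintype.linearIndependent_iff]
  intro c hc
  by_contra hne
  push Not at hne
  obtain ⟨i, hi⟩ := hne
  have h1 : (1 : SymAlg F p ω α β) ∈ (⊥ : TwoSidedIdeal (SymAlg F p ω α β)) := by
    refine one_mem_of_monomials (gmon F p ω α β) (isUnit_gmon hp0 hα hβ) ?_ ⊥ _ c rfl ?_ ?_
    · intro g h hgh
      have hpinj : ∀ i j : Fin p, ω ^ i.val = ω ^ j.val → i = j := fun i j hij =>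
        Fin.ext (hω.pow_inj i.isLt j.isLt hij)
      have hpinj' : ∀ i j : Fin p, ω⁻¹ ^ i.val = ω⁻¹ ^ j.val → i = j := fun i j hij =>
        Fin.ext (hω.inv.pow_inj i.isLt j.isLt hij)
      obtain ⟨ux, hux⟩ := isUnit_gx (F := F) (ω := ω) (β := β) hp0 hα
      obtain ⟨uy, huy⟩ := isUnit_gy (F := F) (ω := ω) (α := α) hp0 hβ
      by_cases h1 : g.1 = h.1
      · have h2 : g.2 ≠ h.2 := fun h2 => hgh (Prod.ext h1 h2)
        refine ⟨gx F p ω α β, (↑ux⁻¹ : SymAlg F p ω α β), fun k => ω⁻¹ ^ k.2.val, ?_, ?_,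
          fun h0 => h2 (hpinj' _ _ h0)⟩
        · rw [← hux, Units.mul_inv]
        · intro k
          rw [gx_gmon, smul_smul, ← mul_pow, inv_mul_cancel₀ hω0, one_pow, one_smul]
      · refine ⟨gy F p ω α β, (↑uy⁻¹ : SymAlg F p ω α β), fun k => ω ^ k.1.val, ?_, ?_,
          fun h0 => h1 (hpinj _ _ h0)⟩
        · rw [← huy, Units.mul_inv]
        · intro k
          exact gy_gmon k
    · rw [Finset.card_pos]
      exact ⟨i, by simp [hi]⟩
    · rw [hc]
      exact TwoSidedIdeal.zero_mem _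
  rw [TwoSidedIdeal.mem_bot] at h1
  exact one_ne_zero h1

/-- the monomial basis of a symbol algebra -/
def symBasis (hp : 2 ≤ p) (hω : IsPrimitiveRoot ω p) (hα : α ≠ 0) (hβ : β ≠ 0) :
    Module.Basis (Fin p × Fin p) F (SymAlg F p ω α β) :=
  Module.Basis.mk (linInd_gmon hp hω hα hβ) (span_gmon hp).ge

theorem symBasis_apply (hp : 2 ≤ p) (hω : IsPrimitiveRoot ω p) (hα : α ≠ 0) (hβ : β ≠ 0)
    (g : Fin p × Fin p) : symBasis hp hω hα hβ g = gmon F p ω α β g := by
  simp [symBasis]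

end General

end Pool.Agent.R692.TV
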