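import Mathlib
import Pool.Agent.R692.TVSym

set_option autoImplicit false

open Finset

noncomputable section

namespace Pool.Agent.R692.TV

open Pool.Agent.Helper51.CompositeDegree

/-- index of the product of two monomials -/
def mulIdx {p m : ℕ} (hp : 0 < p) (g h : Fin m → Fin p × Fin p) : Fin m → Fin p × Fin p := fun i =>
  (⟨((g i).1.val + (h i).1.val) % p, Nat.mod_lt _ hp⟩,
    ⟨((g i).2.val + (h i).2.val) % p, Nat.mod_lt _ hp⟩)

/-- structure constants -/
def cf {F : Type} [Field F] {p m : ℕ} (al be : Fin m → F) (ω : F)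
    (g h : Fin m → Fin p × Fin p) : F :=
  ∏ i, (ω ^ ((g i).2.val * (h i).1.val) *
    (al i ^ (((g i).1.val + (h i).1.val) / p) * be i ^ (((g i).2.val + (h i).2.val) / p)))

/-- `A` has a monomial basis and generators as a tensor product of symbol algebras. -/
structure SymData (F A : Type) [Field F] [Ring A] [Algebra F A] (p m : ℕ) (ω : F)
    (al be : Fin m → F) (hp : 0 < p) where
  b : Module.Basis (Fin m → Fin p × Fin p) F A
  X : Fin m → A
  Y : Fin m → A
  hmul : ∀ g h, b g * b h = cf al be ω g h • b (mulIdx hp g h)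
  one : b (fun _ => (⟨0, hp⟩, ⟨0, hp⟩)) = 1
  uX : ∀ i, IsUnit (X i)
  uY : ∀ i, IsUnit (Y i)
  Yb : ∀ i g, Y i * b g = ω ^ (g i).1.val • (b g * Y i)
  bX : ∀ i g, b g * X i = ω ^ (g i).2.val • (X i * b g)

section Hahn

variable {Γ : Type} [AddCommGroup Γ] [LinearOrder Γ] [IsOrderedAddMonoid Γ] {k : Type} [Field k]

theorem order_prod {ι : Type*} (s : Finset ι) (f : ι → HahnSeries Γ k) (h : ∀ i ∈ s, f i ≠ 0) :
    (∏ i ∈ s, f i).order = ∑ i ∈ s, (f i).order := by
  classical
  induction s using Finset.induction_on with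
  | empty => simp
  | insert a s ha ih =>
    rw [Finset.prod_insert ha, Finset.sum_insert ha, HahnSeries.order_mul (h a (by simp))
      (Finset.prod_ne_zero_iff.2 fun i hi => h i (by simp [hi])), ih fun i hi => h i (by simp [hi])]

/-- the weight structure of a tensor product of symbol algebras over a Hahn series field -/
def twPi {p m : ℕ} (hp : 0 < p) (q : HahnSeries Γ k) (x y : Fin m → HahnSeries Γ k) (hq : q ≠ 0)
    (hx : ∀ i, x i ≠ 0) (hy : ∀ i, y i ≠ 0) (hq0 : q.order = 0) :
    Tw Γ k p (Fin m → Fin p × Fin p) where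
  mu := mulIdx hp
  ga g h := ∏ i, (q ^ ((g i).2.val * (h i).1.val) *
    (x i ^ (((g i).1.val + (h i).1.val) / p) * y i ^ (((g i).2.val + (h i).2.val) / p)))
  W g := ∑ i, ((g i).1.val • (x i).order + (g i).2.val • (y i).order)
  ga_ne g h := Finset.prod_ne_zero_iff.2 fun i _ => mul_ne_zero (pow_ne_zero _ hq)
    (mul_ne_zero (pow_ne_zero _ (hx i)) (pow_ne_zero _ (hy i)))
  hga g h := by
    rw [order_prod _ _ fun i _ => mul_ne_zero (pow_ne_zero _ hq)
      (mul_ne_zero (pow_ne_zero _ (hx i)) (pow_ne_zero _ (hy i))), Finset.smul_sum,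
      ← Finset.sum_add_distrib, ← Finset.sum_add_distrib]
    apply Finset.sum_congr rfl
    intro i _
    rw [HahnSeries.order_mul (pow_ne_zero _ hq) (mul_ne_zero (pow_ne_zero _ (hx i))
      (pow_ne_zero _ (hy i))), HahnSeries.order_mul (pow_ne_zero _ (hx i)) (pow_ne_zero _ (hy i)),
      HahnSeries.order_pow, HahnSeries.order_pow, HahnSeries.order_pow, hq0, nsmul_zero, zero_add,
      nsmul_add, smul_smul, smul_smul]
    have e1 : p * (((g i).1.val + (h i).1.val) / p) + ((g i).1.val + (h i).1.val) % p =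
        (g i).1.val + (h i).1.val := Nat.div_add_mod _ _
    have e2 : p * (((g i).2.val + (h i).2.val) / p) + ((g i).2.val + (h i).2.val) % p =
        (g i).2.val + (h i).2.val := Nat.div_add_mod _ _
    simp only [mulIdx]
    calc _ = (p * (((g i).1.val + (h i).1.val) / p) + ((g i).1.val + (h i).1.val) % p) •
              (x i).order + (p * (((g i).2.val + (h i).2.val) / p) +
              ((g i).2.val + (h i).2.val) % p) • (y i).order := by
            simp only [add_smul]; abel
      _ = _ := by rw [e1, e2]; simp only [add_smul]; abel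

end Hahn

namespace SymData

variable {F A : Type} [Field F] [Ring A] [Algebra F A] {p m : ℕ} {ω : F} {al be : Fin m → F}
  {hp : 0 < p} (D : SymData F A p m ω al be hp)

theorem li (c : (Fin m → Fin p × Fin p) → F) (h : ∑ g, c g • D.b g = 0) (g) : c g = 0 :=
  Fintype.linearIndependent_iff.1 D.b.linearIndependent c h g

include D in
theorem central (hω : IsPrimitiveRoot ω p) : Algebra.IsCentral F A where
  out z hz := by
    rw [Subalgebra.mem_center_iff] at hz
    have hsum : ∑ g, D.b.repr z g • D.b g = z := D.b.sum_repr z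
    have hY : ∀ i g, D.b.repr z g ≠ 0 → (g i).1.val = 0 := by
      intro i g hg
      have h2 : ∑ g, ((ω ^ (g i).1.val - 1) * D.b.repr z g) • D.b g = 0 := by
        obtain ⟨u, hu⟩ := D.uY i
        have h3 : (∑ g, ((ω ^ (g i).1.val - 1) * D.b.repr z g) • D.b g) * D.Y i = 0 := by
          rw [Finset.sum_mul]
          have h4 : ∀ g : Fin m → Fin p × Fin p,
              ((ω ^ (g i).1.val - 1) * D.b.repr z g) • D.b g * D.Y i =
              D.Y i * (D.b.repr z g • D.b g) - (D.b.repr z g • D.b g) * D.Y i := by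
            intro g
            rw [mul_smul_comm, D.Yb, smul_mul_assoc, smul_mul_assoc, smul_smul, ← sub_smul]
            congr 1
            ring
          rw [Finset.sum_congr rfl (fun g _ => h4 g), Finset.sum_sub_distrib, ← Finset.mul_sum,
            ← Finset.sum_mul, hsum, hz (D.Y i), sub_self]
        rw [← hu] at h3
        exact (Units.mul_left_eq_zero u).mp h3
      rcases mul_eq_zero.mp (D.li _ h2 g) with h6 | h6
      · have h7 : ω ^ (g i).1.val = ω ^ 0 := by rw [pow_zero]; exact sub_eq_zero.mp h6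
        exact hω.pow_inj (g i).1.isLt hp h7
      · exact absurd h6 hg
    have hX : ∀ i g, D.b.repr z g ≠ 0 → (g i).2.val = 0 := by
      intro i g hg
      have h2 : ∑ g, ((ω ^ (g i).2.val - 1) * D.b.repr z g) • D.b g = 0 := by
        obtain ⟨u, hu⟩ := D.uX i
        have h3 : D.X i * (∑ g, ((ω ^ (g i).2.val - 1) * D.b.repr z g) • D.b g) = 0 := by
          rw [Finset.mul_sum]
          have h4 : ∀ g : Fin m → Fin p × Fin p,
              D.X i * ((ω ^ (g i).2.val - 1) * D.b.repr z g) • D.b g =
              (D.b.repr z g • D.b g) * D.X i - D.X i * (D.b.repr z g • D.b g) := by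
            intro g
            rw [smul_mul_assoc, D.bX, mul_smul_comm, mul_smul_comm, smul_smul, ← sub_smul]
            congr 1
            ring
          rw [Finset.sum_congr rfl (fun g _ => h4 g), Finset.sum_sub_distrib, ← Finset.mul_sum,
            ← Finset.sum_mul, hsum, ← hz (D.X i), sub_self]
        rw [← hu] at h3
        exact (Units.mul_right_eq_zero u).mp h3
      rcases mul_eq_zero.mp (D.li _ h2 g) with h6 | h6
      · have h7 : ω ^ (g i).2.val = ω ^ 0 := by rw [pow_zero]; exact sub_eq_zero.mp h6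
        exact hω.pow_inj (g i).2.isLt hp h7
      · exact absurd h6 hg
    rw [← hsum, Finset.sum_eq_single (fun _ => (⟨0, hp⟩, ⟨0, hp⟩)), D.one]
    · exact Algebra.mem_bot.2 ⟨_, Algebra.algebraMap_eq_smul_one _⟩
    · intro g _ hg
      by_contra hne
      apply hg
      have h0 : D.b.repr z g ≠ 0 := by
        intro h0
        apply hne
        rw [h0, zero_smul]
      funext i
      exact Prod.ext (Fin.ext (hY i g h0)) (Fin.ext (hX i g h0))
    · intro h
      exact absurd (Finset.mem_univ _) h

include D in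
theorem finrank_eq : Module.finrank F A = (p ^ m) ^ 2 := by
  rw [Module.finrank_eq_card_basis D.b]
  simp only [Fintype.card_pi, Fintype.card_prod, Fintype.card_fin, Finset.prod_const,
    Finset.card_univ]
  rw [← pow_two, ← pow_mul, ← pow_mul, mul_comm]

include D in
theorem finite : Module.Finite F A := Module.Finite.of_basis D.b

include D in
/-- the algebra is a domain if the base field embeds suitably in a field of Hahn series. -/
theorem mul_ne_zero {Γ : Type} [AddCommGroup Γ] [LinearOrder Γ] [IsOrderedAddMonoid Γ]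
    {k : Type} [Field k] (hω : IsPrimitiveRoot ω p) (hal : ∀ i, al i ≠ 0) (hbe : ∀ i, be i ≠ 0)
    (φ : F →+* HahnSeries Γ k) (π : Fin m × Fin 2 → Γ →+ ℤ)
    (h1 : ∀ s i, π s (φ (al i)).order = if s = (i, 0) then 1 else 0)
    (h2 : ∀ s i, π s (φ (be i)).order = if s = (i, 1) then 1 else 0)
    (a b : A) (ha : a ≠ 0) (hb : b ≠ 0) : a * b ≠ 0 := by
  classical
  have hω0 : ω ≠ 0 := hω.ne_zero hp.ne'
  have hφ : Function.Injective φ := φ.injective
  have hφ0 : ∀ {c : F}, c ≠ 0 → φ c ≠ 0 := fun hc h => hc (hφ (by rw [h, map_zero]))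
  have hq0 : (φ ω).order = 0 := order_inv_root hp (by rw [← map_pow, hω.pow_eq_one, map_one])
  let t := twPi (p := p) (m := m) hp (φ ω) (fun i => φ (al i)) (fun i => φ (be i)) (hφ0 hω0)
    (fun i => hφ0 (hal i)) (fun i => hφ0 (hbe i)) hq0
  have cancel1 : ∀ (i j : Fin p) (A B : ℤ), (p : ℤ) * A + (i.val : ℤ) = p * B + (j.val : ℤ) →
      i = j := by
    intro i j A B h
    have h1 : ((i.val : ℤ)) % p = (j.val : ℤ) % p := by
      have := congrArg (· % (p : ℤ)) h
      simpa [Int.add_emod, Int.mul_emod_right] using this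
    rw [Int.emod_eq_of_lt (by positivity) (by exact_mod_cast i.isLt),
      Int.emod_eq_of_lt (by positivity) (by exact_mod_cast j.isLt)] at h1
    exact Fin.ext (by exact_mod_cast h1)
  have hW : ∀ (g : Fin m → Fin p × Fin p) (i : Fin m), π (i, 0) (t.W g) = (g i).1.val ∧
      π (i, 1) (t.W g) = (g i).2.val := by
    intro g i
    constructor
    · show π (i, 0) (∑ j, ((g j).1.val • (φ (al j)).order + (g j).2.val • (φ (be j)).order)) = _
      rw [map_sum]
      simp only [map_add, map_nsmul, h1, h2]
      rw [Finset.sum_eq_single i]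
      · simp
      · intro j _ hj
        simp [Ne.symm hj]
      · simp
    · show π (i, 1) (∑ j, ((g j).1.val • (φ (al j)).order + (g j).2.val • (φ (be j)).order)) = _
      rw [map_sum]
      simp only [map_add, map_nsmul, h1, h2]
      rw [Finset.sum_eq_single i]
      · simp
      · intro j _ hj
        simp [Ne.symm hj]
      · simp
  have hsep : t.Sep := by
    intro A B g h heq
    funext i
    have e0 := congrArg (π (i, 0)) heq
    have e1 := congrArg (π (i, 1)) heq
    simp only [map_add, map_nsmul, (hW g i).1, (hW g i).2, (hW h i).1, (hW h i).2,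
      nsmul_eq_mul] at e0 e1
    exact Prod.ext (cancel1 _ _ _ _ e0) (cancel1 _ _ _ _ e1)
  have hsum : ∀ z, ∑ g, D.b.repr z g • D.b g = z := fun z => D.b.sum_repr z
  have hne : ∀ z : A, z ≠ 0 → (fun g => φ (D.b.repr z g)) ≠ 0 := by
    intro z hz hc
    apply hz
    rw [← hsum z]
    apply Finset.sum_eq_zero
    intro g _
    have h3 : φ (D.b.repr z g) = 0 := congrFun hc g
    rw [hφ (by rw [h3, map_zero] : φ (D.b.repr z g) = φ 0), zero_smul]
  obtain ⟨k0, hk0⟩ := t.conv_ne_zero hsep _ _ (hne a ha) (hne b hb)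
  intro hab
  apply hk0
  have h3 : a * b = ∑ k0, (∑ q ∈ univ.filter (fun q : (Fin m → Fin p × Fin p) ×
      (Fin m → Fin p × Fin p) => mulIdx hp q.1 q.2 = k0),
      cf al be ω q.1 q.2 * D.b.repr a q.1 * D.b.repr b q.2) • D.b k0 := by
    conv_lhs => rw [← hsum a, ← hsum b, Finset.sum_mul_sum, ← Finset.sum_product']
    rw [← Finset.sum_fiberwise_of_maps_to (g := fun q : (Fin m → Fin p × Fin p) ×
      (Fin m → Fin p × Fin p) => mulIdx hp q.1 q.2) (t := univ) (fun _ _ => Finset.mem_univ _)]
    apply Finset.sum_congr rfl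
    intro k1 _
    rw [Finset.sum_smul]
    apply Finset.sum_congr (by simp)
    intro q hq
    simp only [Finset.mem_filter] at hq
    rw [smul_mul_smul_comm, D.hmul, smul_smul, hq.2]
    congr 1
    ring
  rw [hab] at h3
  have h5 := congrArg φ (D.li _ h3.symm k0)
  rw [map_sum, map_zero] at h5
  rw [← h5]
  apply Finset.sum_congr rfl
  intro q _
  rw [map_mul, map_mul]
  congr 2
  show (∏ i : Fin m, _) = φ (cf al be ω q.1 q.2)
  rw [cf, map_prod]
  apply Finset.prod_congr rfl
  intro i _
  simp only [map_mul, map_pow]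

end SymData

end Pool.Agent.R692.TV
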