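import Mathlib
import Pool.Agent.R692.TVAbs
import Pool.Agent.R692.TVDefs
import Pool.Agent.Helper18.Br.TensorCSA

set_option autoImplicit false

open Finset
open scoped TensorProduct

noncomputable section

namespace Pool.Agent.R692.TV

/-- the span of the elements `a` with `y a = ω ^ (c + t) a y` for some `t ≤ M` -/
def BS (F : Type) {A : Type} [Field F] [Ring A] [Algebra F A] (ω : F) (y : A) (c M : ℕ) :
    Submodule F A :=
  Submodule.span F {a | ∃ t ≤ M, y * a = ω ^ (c + t) • (a * y)}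

section

variable {F A : Type} [Field F] [Ring A] [Algebra F A] {ω : F} {y : A}

theorem BS_mul {c M c' M' : ℕ} {a b : A} (ha : a ∈ BS F ω y c M) (hb : b ∈ BS F ω y c' M') :
    a * b ∈ BS F ω y (c + c') (M + M') := by
  rw [BS] at ha hb
  induction ha using Submodule.span_induction with
  | mem a ha =>
    induction hb using Submodule.span_induction with
    | mem b hb =>
      obtain ⟨t, ht, h1⟩ := ha
      obtain ⟨s, hs, h2⟩ := hb
      refine Submodule.subset_span ⟨t + s, by omega, ?_⟩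
      rw [← mul_assoc, h1, smul_mul_assoc, mul_assoc, h2, mul_smul_comm, smul_smul, ← mul_assoc,
        ← pow_add]
      congr 2
      ring
    | zero => rw [mul_zero]; exact Submodule.zero_mem _
    | add b b' _ _ h1 h2 => rw [mul_add]; exact Submodule.add_mem _ h1 h2
    | smul r b _ h1 => rw [mul_smul_comm]; exact Submodule.smul_mem _ _ h1
  | zero => rw [zero_mul]; exact Submodule.zero_mem _
  | add a a' _ _ h1 h2 => rw [add_mul]; exact Submodule.add_mem _ h1 h2
  | smul r a _ h1 => rw [smul_mul_assoc]; exact Submodule.smul_mem _ _ h1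

theorem BS_pow {c M : ℕ} {a : A} (ha : a ∈ BS F ω y c M) (n : ℕ) :
    a ^ n ∈ BS F ω y (n * c) (n * M) := by
  induction n with
  | zero =>
    refine Submodule.subset_span ⟨0, by omega, ?_⟩
    simp
  | succ n ih =>
    rw [pow_succ, Nat.succ_mul, Nat.succ_mul]
    exact BS_mul ih ha

/-- cyclic functionals vanish on `BS` when no exponent is divisible by `p` -/
theorem BS_functional {K : Type} [Field K] [Algebra F K] {p : ℕ} (hω : IsPrimitiveRoot ω p)
    (hy : IsUnit y) {c M : ℕ} (hcM : ∀ t ≤ M, ¬ p ∣ c + t) (T : A →ₗ[F] K)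
    (hT : ∀ a b, T (a * b) = T (b * a)) {a : A} (ha : a ∈ BS F ω y c M) : T a = 0 := by
  rw [BS] at ha
  induction ha using Submodule.span_induction with
  | mem a ha =>
    obtain ⟨t, ht, h1⟩ := ha
    obtain ⟨u, rfl⟩ := hy
    have h2 : T ((u : A) * (a * (↑u⁻¹ : A))) = T a := by
      rw [hT, mul_assoc, Units.inv_mul, mul_one]
    have h3 : (u : A) * (a * (↑u⁻¹ : A)) = ω ^ (c + t) • a := by
      rw [← mul_assoc, h1, smul_mul_assoc, mul_assoc, Units.mul_inv, mul_one]
    rw [h3, map_smul] at h2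
    have h4 : (ω ^ (c + t) - 1) • T a = 0 := by
      rw [sub_smul, h2, one_smul, sub_self]
    rcases smul_eq_zero.mp h4 with h5 | h5
    · exact absurd ((hω.pow_eq_one_iff_dvd _).1 (sub_eq_zero.1 h5)) (hcM t ht)
    · exact h5
  | zero => exact map_zero _
  | add a a' _ _ h1 h2 => rw [map_add, h1, h2, add_zero]
  | smul r a _ h1 => rw [map_smul, h1, smul_zero]

end

/-- A finite-dimensional central simple algebra, an element on which all cyclic functionals
vanish: its reduced trace is `0`. -/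
theorem isReducedTrace_zero (F A : Type) [Field F] [Ring A] [Algebra F A] [Algebra.IsCentral F A]
    [IsSimpleRing A] [FiniteDimensional F A] (a : A)
    (h : ∀ T : A →ₗ[F] AlgebraicClosure F, (∀ a b, T (a * b) = T (b * a)) → T a = 0) :
    IsReducedTrace F A a 0 := by
  have h1 : IsSimpleRing (A ⊗[F] AlgebraicClosure F) := Pool.Agent.Helper18.Br.isSimple_tensor
  have h2 : IsSimpleRing (AlgebraicClosure F ⊗[F] A) :=
    IsSimpleRing.of_ringEquiv (Algebra.TensorProduct.comm F A (AlgebraicClosure F)).toRingEquiv h1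
  obtain ⟨n, _, ⟨φ⟩⟩ :=
    IsSimpleRing.exists_algEquiv_matrix_of_isAlgClosed (AlgebraicClosure F) (AlgebraicClosure F ⊗[F] A)
  refine ⟨n, φ, ?_⟩
  rw [map_zero]
  let T : A →ₗ[F] AlgebraicClosure F :=
    { toFun := fun b => Matrix.trace (φ ((1 : AlgebraicClosure F) ⊗ₜ[F] b))
      map_add' := by
        intro b c
        rw [TensorProduct.tmul_add, map_add, Matrix.trace_add]
      map_smul' := by
        intro r b
        rw [RingHom.id_apply, TensorProduct.tmul_smul, ← algebraMap_smul (AlgebraicClosure F) r,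
          map_smul, Matrix.trace_smul, algebraMap_smul] }
  refine h T ?_
  intro b c
  show Matrix.trace (φ ((1 : AlgebraicClosure F) ⊗ₜ[F] (b * c))) =
    Matrix.trace (φ ((1 : AlgebraicClosure F) ⊗ₜ[F] (c * b)))
  have e : ∀ b c : A, (1 : AlgebraicClosure F) ⊗ₜ[F] (b * c) =
      ((1 : AlgebraicClosure F) ⊗ₜ[F] b) * ((1 : AlgebraicClosure F) ⊗ₜ[F] c) := by
    intro b c
    rw [Algebra.TensorProduct.tmul_mul_tmul, one_mul]
  rw [e, e, map_mul, map_mul, Matrix.trace_mul_comm]

/-! ### numerology -/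

theorem num1 {p r : ℕ} (hr : 2 ≤ r) (_hrp : r ≤ p - 1) (hdiv : ¬ r ∣ p - 1) :
    p ≤ ((p - 2) / r + 1) * r := by
  have h1 := Nat.div_add_mod (p - 2) r
  have h2 := Nat.mod_lt (p - 2) (show 0 < r by omega)
  have h3 : (p - 2) % r ≠ r - 1 := by
    intro h
    apply hdiv
    refine ⟨(p - 2) / r + 1, ?_⟩
    rw [mul_add, mul_one]
    omega
  rw [add_mul, one_mul, mul_comm ((p - 2) / r)]
  omega

theorem exists_c {p r : ℕ} (hp : p.Prime) (hr : 2 ≤ r) (hrp : r ≤ p - 1) :
    ∃ c : ℕ, (r * c) % p = 1 := by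
  have hcop : Nat.Coprime r p :=
    ((Nat.Prime.coprime_iff_not_dvd hp).2 (Nat.not_dvd_of_pos_of_lt (by omega)
      (by have := hp.two_le; omega))).symm
  obtain ⟨c, _, hc⟩ := Nat.exists_mul_mod_eq_one_of_coprime hcop hp.one_lt
  exact ⟨c, hc⟩

namespace SymData

variable {F A : Type} [Field F] [Ring A] [Algebra F A] {p m : ℕ} {ω : F} {al be : Fin m → F}
  {hp : 0 < p} (D : SymData F A p m ω al be hp)

/-- the exponents `c, c + 1, …, c + L - 1` modulo `p` -/
def expo (hp : 0 < p) (c L : ℕ) : Finset (Fin p) :=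
  (Finset.range L).image fun t => ⟨(c + t) % p, Nat.mod_lt _ hp⟩

theorem card_expo (hp : 0 < p) (c L : ℕ) (hL : L ≤ p) : (expo hp c L).card = L := by
  rw [expo, Finset.card_image_of_injOn, Finset.card_range]
  intro s hs t ht hst
  have hs' : s < L := by simpa using hs
  have ht' : t < L := by simpa using ht
  have h1 : (c + s) % p = (c + t) % p := congrArg Fin.val hst
  have h2 : c + s ≡ c + t [MOD p] := h1
  have h3 : s ≡ t [MOD p] := Nat.ModEq.add_left_cancel' c h2
  exact Nat.ModEq.eq_of_lt_of_lt h3 (by omega) (by omega)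

/-- the monomials whose exponent of `x_i` lies in `expo` -/
def mons (hp : 0 < p) (i0 : Fin m) (c L : ℕ) : Finset (Fin m → Fin p × Fin p) :=
  Fintype.piFinset fun i => if i = i0 then expo hp c L ×ˢ Finset.univ else Finset.univ

theorem card_mons (hp : 0 < p) (i0 : Fin m) (c L : ℕ) (hL : L ≤ p) :
    (mons hp i0 c L).card = L * p * (p * p) ^ (m - 1) := by
  rw [mons, Fintype.card_piFinset, ← Finset.mul_prod_erase Finset.univ _ (Finset.mem_univ i0),
    if_pos rfl, Finset.card_product, card_expo hp c L hL, Finset.card_univ, Fintype.card_fin]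
  congr 1
  rw [Finset.prod_congr rfl (g := fun _ => p * p)]
  · rw [Finset.prod_const, Finset.card_erase_of_mem (Finset.mem_univ _), Finset.card_univ,
      Fintype.card_fin]
  · intro i hi
    rw [if_neg (Finset.ne_of_mem_erase hi), Finset.card_univ, Fintype.card_prod, Fintype.card_fin]

/-- the subspace spanned by these monomials -/
def V (i0 : Fin m) (c L : ℕ) : Submodule F A :=
  Submodule.span F (Set.range fun g : mons hp i0 c L => D.b g.1)

theorem finrank_V (i0 : Fin m) (c L : ℕ) (hL : L ≤ p) :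
    Module.finrank F (D.V i0 c L) = L * p * (p * p) ^ (m - 1) := by
  have h1 : Module.finrank F (D.V i0 c L) = Fintype.card (mons hp i0 c L) :=
    finrank_span_eq_card (D.b.linearIndependent.comp (fun g : mons hp i0 c L => g.1)
      Subtype.val_injective)
  rw [h1, Fintype.card_coe, card_mons hp i0 c L hL]

theorem V_le (hω : IsPrimitiveRoot ω p) (i0 : Fin m) (c L : ℕ) :
    D.V i0 c L ≤ BS F ω (D.Y i0) c (L - 1) := by
  rw [V, Submodule.span_le]
  rintro _ ⟨⟨g, hg⟩, rfl⟩
  rw [mons, Fintype.mem_piFinset] at hg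
  have h1 := hg i0
  rw [if_pos rfl, Finset.mem_product] at h1
  obtain ⟨t, ht, h2⟩ := Finset.mem_image.1 h1.1
  rw [Finset.mem_range] at ht
  refine Submodule.subset_span ⟨t, by omega, ?_⟩
  show D.Y i0 * D.b g = ω ^ (c + t) • (D.b g * D.Y i0)
  rw [D.Yb, ← h2]
  congr 1
  exact (pow_eq_pow_mod _ hω.pow_eq_one).symm

include D in
/-- main construction -/
theorem exists_V [IsSimpleRing A] (hpp : p.Prime) (hω : IsPrimitiveRoot ω p) (hm : 1 ≤ m) {r : ℕ}
    (hr : 2 ≤ r) (hrp : r ≤ p - 1) (hdiv : ¬ r ∣ p - 1) :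
    ∃ V : Submodule F A, (p ^ (2 * m) - 1) / r < Module.finrank F V ∧
      ∀ v ∈ V, IsReducedTrace F A (v ^ r) 0 := by
  obtain ⟨c, hc⟩ := exists_c hpp hr hrp
  have hp2 := hpp.two_le
  have hL : (p - 2) / r + 1 ≤ p := by
    have := Nat.div_le_self (p - 2) r
    omega
  have hcen := D.central hω
  have hfin := D.finite
  refine ⟨D.V ⟨0, by omega⟩ c ((p - 2) / r + 1), ?_, ?_⟩
  · rw [D.finrank_V _ _ _ hL, Nat.div_lt_iff_lt_mul (by omega)]
    have h1 := num1 hr hrp hdiv
    have h2 : p ^ (2 * m) = p * (p * (p * p) ^ (m - 1)) := by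
      obtain ⟨n, rfl⟩ : ∃ n, m = n + 1 := ⟨m - 1, by omega⟩
      rw [Nat.add_sub_cancel, mul_add, pow_add, pow_mul]
      ring
    have h3 : 0 < p ^ (2 * m) := Nat.pow_pos (by omega)
    calc p ^ (2 * m) - 1 < p ^ (2 * m) := by omega
      _ = p * (p * (p * p) ^ (m - 1)) := h2
      _ ≤ (((p - 2) / r + 1) * r) * (p * (p * p) ^ (m - 1)) := Nat.mul_le_mul_right _ h1
      _ = ((p - 2) / r + 1) * p * (p * p) ^ (m - 1) * r := by ring
  · intro v hv
    apply isReducedTrace_zero
    intro T hT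
    refine BS_functional hω (D.uY ⟨0, by omega⟩) ?_ T hT (BS_pow (D.V_le hω _ _ _ hv) r)
    intro t ht hdvd
    rw [Nat.add_sub_cancel] at ht
    have h1 := Nat.mul_div_le (p - 2) r
    have h2 : (r * c + t) % p = 0 := Nat.mod_eq_zero_of_dvd hdvd
    rw [Nat.add_mod, hc] at h2
    have h3 : t % p = t := Nat.mod_eq_of_lt (by omega)
    rw [h3, Nat.mod_eq_of_lt (by omega)] at h2
    omega

end SymData

end Pool.Agent.R692.TV
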