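import Mathlib
import Pool.Agent.R692.TVSpace

set_option autoImplicit false

open Finset
open scoped TensorProduct

noncomputable section

namespace Pool.Agent.R692.TV

open Pool.Agent.Helper51.CompositeDegree

section Tensor

variable {F : Type} [Field F] {p m : ℕ} {ω : F}


variable (al be : Fin m → F)

/-- monomials of the tensor product -/
def E (ω : F) (g : Fin m → Fin p × Fin p) : SymTensor F p m ω al be :=
  PiTensorProduct.tprod F (fun i => gmon F p ω (al i) (be i) (g i))

theorem E_mul (hp : 0 < p) (g h : Fin m → Fin p × Fin p) :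
    E al be ω g * E al be ω h = cf al be ω g h • E al be ω (mulIdx hp g h) := by
  rw [E, E, PiTensorProduct.tprod_mul_tprod, cf, E, ← MultilinearMap.map_smul_univ]
  congr 1
  funext i
  exact mono_mul' _ _ gx_pow gy_pow gy_gx _ _ _ _

/-- the generators of the tensor product -/
def X (ω : F) (i : Fin m) : SymTensor F p m ω al be :=
  PiTensorProduct.singleAlgHom (R := F) (A := fun i => SymAlg F p ω (al i) (be i)) i
    (gx F p ω (al i) (be i))

def Y (ω : F) (i : Fin m) : SymTensor F p m ω al be :=
  PiTensorProduct.singleAlgHom (R := F) (A := fun i => SymAlg F p ω (al i) (be i)) i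
    (gy F p ω (al i) (be i))

theorem isUnit_X (hp : 0 < p) {i : Fin m} (h : al i ≠ 0) : IsUnit (X (p := p) al be ω i) :=
  (isUnit_gx hp h).map (PiTensorProduct.singleAlgHom (R := F)
    (A := fun i => SymAlg F p ω (al i) (be i)) i)

theorem isUnit_Y (hp : 0 < p) {i : Fin m} (h : be i ≠ 0) : IsUnit (Y (p := p) al be ω i) :=
  (isUnit_gy hp h).map (PiTensorProduct.singleAlgHom (R := F)
    (A := fun i => SymAlg F p ω (al i) (be i)) i)

theorem Y_E (i : Fin m) (g : Fin m → Fin p × Fin p) :
    Y al be ω i * E al be ω g = ω ^ (g i).1.val • (E al be ω g * Y al be ω i) := by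
  have e1 : Y (p := p) al be ω i = PiTensorProduct.tprod F
      (Pi.mulSingle i (gy F p ω (al i) (be i)) : ∀ i, SymAlg F p ω (al i) (be i)) := rfl
  rw [e1, E, PiTensorProduct.tprod_mul_tprod, PiTensorProduct.tprod_mul_tprod]
  set G : ∀ i, SymAlg F p ω (al i) (be i) := fun i => gmon F p ω (al i) (be i) (g i) with hG
  have e2 : (Pi.mulSingle i (gy F p ω (al i) (be i)) : ∀ i, SymAlg F p ω (al i) (be i)) * G =
      Function.update G i (gy F p ω (al i) (be i) * G i) := by
    funext j
    by_cases h : j = i
    · subst h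
      simp
    · simp [Function.update_of_ne h, Pi.mulSingle_eq_of_ne h]
  have e3 : G * (Pi.mulSingle i (gy F p ω (al i) (be i)) : ∀ i, SymAlg F p ω (al i) (be i)) =
      Function.update G i (G i * gy F p ω (al i) (be i)) := by
    funext j
    by_cases h : j = i
    · subst h
      simp
    · simp [Function.update_of_ne h, Pi.mulSingle_eq_of_ne h]
  rw [e2, e3, ← MultilinearMap.map_update_smul]
  congr 2
  exact gy_gmon _

theorem E_X (i : Fin m) (g : Fin m → Fin p × Fin p) :
    E al be ω g * X al be ω i = ω ^ (g i).2.val • (X al be ω i * E al be ω g) := by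
  have e1 : X (p := p) al be ω i = PiTensorProduct.tprod F
      (Pi.mulSingle i (gx F p ω (al i) (be i)) : ∀ i, SymAlg F p ω (al i) (be i)) := rfl
  rw [e1, E, PiTensorProduct.tprod_mul_tprod, PiTensorProduct.tprod_mul_tprod]
  set G : ∀ i, SymAlg F p ω (al i) (be i) := fun i => gmon F p ω (al i) (be i) (g i) with hG
  have e2 : (Pi.mulSingle i (gx F p ω (al i) (be i)) : ∀ i, SymAlg F p ω (al i) (be i)) * G =
      Function.update G i (gx F p ω (al i) (be i) * G i) := by
    funext j
    by_cases h : j = i
    · subst h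
      simp
    · simp [Function.update_of_ne h, Pi.mulSingle_eq_of_ne h]
  have e3 : G * (Pi.mulSingle i (gx F p ω (al i) (be i)) : ∀ i, SymAlg F p ω (al i) (be i)) =
      Function.update G i (G i * gx F p ω (al i) (be i)) := by
    funext j
    by_cases h : j = i
    · subst h
      simp
    · simp [Function.update_of_ne h, Pi.mulSingle_eq_of_ne h]
  rw [e2, e3, ← MultilinearMap.map_update_smul]
  congr 2
  exact gx_gmon _

/-- the monomial basis of the tensor product -/
def tsBasis (hp : 2 ≤ p) (hω : IsPrimitiveRoot ω p) (hal : ∀ i, al i ≠ 0) (hbe : ∀ i, be i ≠ 0) :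
    Module.Basis (Fin m → Fin p × Fin p) F (SymTensor F p m ω al be) :=
  Basis.piTensorProduct (fun i => symBasis hp hω (hal i) (hbe i))

theorem tsBasis_apply (hp : 2 ≤ p) (hω : IsPrimitiveRoot ω p) (hal : ∀ i, al i ≠ 0)
    (hbe : ∀ i, be i ≠ 0) (g : Fin m → Fin p × Fin p) :
    tsBasis al be hp hω hal hbe g = E al be ω g := by
  rw [tsBasis, Basis.piTensorProduct_apply, E]
  congr 1
  funext i
  exact symBasis_apply _ _ _ _ _

/-- the tensor product has the required data -/
def tsData (hp : 2 ≤ p) (hω : IsPrimitiveRoot ω p) (hal : ∀ i, al i ≠ 0) (hbe : ∀ i, be i ≠ 0) :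
    SymData F (SymTensor F p m ω al be) p m ω al be (by omega) where
  b := tsBasis al be hp hω hal hbe
  X := X al be ω
  Y := Y al be ω
  hmul g h := by
    have h1 := E_mul (ω := ω) al be (show 0 < p by omega) g h
    rw [← tsBasis_apply al be hp hω hal hbe, ← tsBasis_apply al be hp hω hal hbe,
      ← tsBasis_apply al be hp hω hal hbe] at h1
    exact h1
  one := by
    refine (tsBasis_apply al be hp hω hal hbe _).trans ?_
    rw [E, PiTensorProduct.one_def]
    congr 1
    funext i
    simp [gmon]
  uX i := isUnit_X al be (by omega) (hal i)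
  uY i := isUnit_Y al be (by omega) (hbe i)
  Yb i g := by
    have h1 := Y_E (ω := ω) al be i g
    rw [← tsBasis_apply al be hp hω hal hbe] at h1
    exact h1
  bX i g := by
    have h1 := E_X (ω := ω) al be i g
    rw [← tsBasis_apply al be hp hω hal hbe] at h1
    exact h1

end Tensor

end Pool.Agent.R692.TV
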