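import Mathlib
import Pool.Agent.R692.TVMain

set_option autoImplicit false

open Finset
open scoped TensorProduct

noncomputable section

namespace Pool.Agent.R692.TV

/-- exponents of Laurent monomials in `2m` variables, ordered lexicographically -/
abbrev Ga (m : ℕ) : Type := Lex (Lex (Fin m × Fin 2) → ℤ)

/-- the exponent of an indeterminate -/
def ex (m : ℕ) (s : Fin m × Fin 2) : Ga m := toLex (Pi.single (toLex s) (1 : ℤ))

/-- coordinates of an exponent -/
def pr (m : ℕ) (s : Fin m × Fin 2) : Ga m →+ ℤ where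
  toFun γ := ofLex γ (toLex s)
  map_zero' := rfl
  map_add' _ _ := rfl

theorem pr_ex (m : ℕ) (s t : Fin m × Fin 2) : pr m s (ex m t) = if s = t then 1 else 0 := by
  show (Pi.single (toLex t) (1 : ℤ) : Lex (Fin m × Fin 2) → ℤ) (toLex s) = _
  rw [Pi.single_apply]
  simp

/-- the exponent of a monomial -/
def exm (m : ℕ) (d : Fin m × Fin 2 →₀ ℕ) : Ga m := ∑ s, d s • ex m s

theorem pr_exm (m : ℕ) (d : Fin m × Fin 2 →₀ ℕ) (s : Fin m × Fin 2) : pr m s (exm m d) = d s := by
  rw [exm, map_sum]
  simp only [map_nsmul, pr_ex]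
  simp

theorem exm_inj (m : ℕ) : Function.Injective (exm m) := by
  intro d d' h
  ext s
  have h1 := pr_exm m d s
  rw [h, pr_exm] at h1
  exact_mod_cast h1.symm

variable (k : Type) [Field k] (m : ℕ)

theorem prod_single (d : Fin m × Fin 2 →₀ ℕ) :
    ∏ s, (HahnSeries.single (ex m s) (1 : k)) ^ (d s) = HahnSeries.single (exm m d) 1 := by
  classical
  have h : ∀ S : Finset (Fin m × Fin 2), ∏ s ∈ S, (HahnSeries.single (ex m s) (1 : k)) ^ (d s) =
      HahnSeries.single (∑ s ∈ S, d s • ex m s) 1 := by
    intro S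
    induction S using Finset.induction_on with
    | empty => simp
    | insert a S ha ih =>
      rw [Finset.prod_insert ha, Finset.sum_insert ha, ih, HahnSeries.single_pow, one_pow,
        HahnSeries.single_mul_single, one_mul]
  exact h Finset.univ

/-- the embedding of the polynomial ring in the field of Hahn series -/
def polyHahn : MvPolynomial (Fin m × Fin 2) k →+* HahnSeries (Ga m) k :=
  (MvPolynomial.eval₂Hom HahnSeries.C fun s => HahnSeries.single (ex m s) 1)

theorem polyHahn_coeff (P : MvPolynomial (Fin m × Fin 2) k) (d : Fin m × Fin 2 →₀ ℕ) :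
    (polyHahn k m P).coeff (exm m d) = P.coeff d := by
  classical
  rw [polyHahn, MvPolynomial.coe_eval₂Hom, MvPolynomial.eval₂_eq', HahnSeries.coeff_sum]
  have h1 : ∀ e : Fin m × Fin 2 →₀ ℕ, HahnSeries.C (MvPolynomial.coeff e P) *
      ∏ i, (HahnSeries.single (ex m i) (1 : k)) ^ (e i) =
      HahnSeries.single (exm m e) (MvPolynomial.coeff e P) := by
    intro e
    rw [prod_single, HahnSeries.C_apply, HahnSeries.single_mul_single, zero_add, mul_one]
  rw [Finset.sum_congr rfl fun e _ => by rw [h1]]
  by_cases hd : d ∈ P.support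
  · rw [Finset.sum_eq_single d]
    · exact HahnSeries.coeff_single_same _ _
    · intro e _ he
      exact HahnSeries.coeff_single_of_ne fun h => he (exm_inj m h).symm
    · intro h
      exact absurd hd h
  · rw [MvPolynomial.notMem_support_iff.1 hd]
    apply Finset.sum_eq_zero
    intro e he
    apply HahnSeries.coeff_single_of_ne
    intro h
    apply hd
    rw [exm_inj m h]
    exact he

theorem polyHahn_inj : Function.Injective (polyHahn k m) := by
  rw [injective_iff_map_eq_zero]
  intro P hP
  ext d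
  rw [← polyHahn_coeff k m P d, hP]
  simp

variable (F : Type) [Field F] [Algebra (MvPolynomial (Fin m × Fin 2) k) F]
  [IsFractionRing (MvPolynomial (Fin m × Fin 2) k) F]

/-- the embedding of the rational function field in the field of Hahn series -/
def ratHahn : F →+* HahnSeries (Ga m) k := IsFractionRing.lift (polyHahn_inj k m)

theorem ratHahn_indet (s : Fin m × Fin 2) :
    ratHahn k m F (algebraMap (MvPolynomial (Fin m × Fin 2) k) F (MvPolynomial.X s)) =
      HahnSeries.single (ex m s) 1 := by
  rw [ratHahn, IsFractionRing.lift_algebraMap, polyHahn, MvPolynomial.coe_eval₂Hom,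
    MvPolynomial.eval₂_X]

theorem indet_ne_zero (s : Fin m × Fin 2) :
    algebraMap (MvPolynomial (Fin m × Fin 2) k) F (MvPolynomial.X s) ≠ 0 := by
  intro h
  have h1 := ratHahn_indet k m F s
  rw [h, map_zero] at h1
  have h2 := congrArg (fun f => HahnSeries.coeff f (ex m s)) h1
  simp at h2

variable {k m}

/-- all results together, abstractly -/
theorem SymData.all {F A : Type} [Field F] [Ring A] [Algebra F A] {p m : ℕ} {ω : F}
    {al be : Fin m → F} {hp0 : 0 < p} (D : SymData F A p m ω al be hp0)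
    (hmul : ∀ a b : A, a ≠ 0 → b ≠ 0 → a * b ≠ 0) {r : ℕ} (hp : p.Prime) (hm : 1 ≤ m)
    (hr : 2 ≤ r) (hrp : r ≤ p - 1) (hdiv : ¬ r ∣ p - 1) (hω : IsPrimitiveRoot ω p) :
    IsCentralDivisionAlgebra F A (p ^ m) ∧
      HasTraceVanishingSubspace F A r ((p ^ (2 * m) - 1) / r) := by
  have hcen := D.central hω
  have hfr := D.finrank_eq
  have hfin := D.finite
  have hpos : 0 < Module.finrank F A := by
    rw [hfr]
    exact Nat.pow_pos (Nat.pow_pos hp.pos)
  have hnt : Nontrivial A := Module.nontrivial_of_finrank_pos hpos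
  have hnz : NoZeroDivisors A :=
    ⟨fun {a b} h => by
      by_contra hc
      push Not at hc
      exact hmul a b hc.1 hc.2 h⟩
  have hdom : IsDomain A := NoZeroDivisors.to_isDomain _
  have hunit : ∀ a : A, a ≠ 0 → IsUnit a := fun a ha => FiniteDimensional.isUnit F ha
  have hsimple : IsSimpleRing A := by
    apply IsSimpleRing.of_eq_bot_or_eq_top
    intro I
    by_cases hI : I = ⊥
    · exact Or.inl hI
    · right
      obtain ⟨x, hx, hx0⟩ : ∃ x ∈ I, x ≠ 0 := by
        by_contra hcon
        push Not at hcon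
        apply hI
        rw [eq_bot_iff]
        intro x hx
        rw [TwoSidedIdeal.mem_bot]
        exact hcon x hx
      obtain ⟨u, rfl⟩ := hunit x hx0
      rw [← TwoSidedIdeal.one_mem_iff, ← Units.inv_mul u]
      exact I.mul_mem_left _ _ hx
  exact ⟨⟨⟨hnt, hunit⟩, hcen, hfr⟩, D.exists_V hp hω hm hr hrp hdiv⟩

/-- all results together -/
theorem main (p r : ℕ) (hp : p.Prime) (hm : 1 ≤ m) (hr : 2 ≤ r) (hrp : r ≤ p - 1)
    (hdiv : ¬ r ∣ p - 1) (ω : k) (hω : IsPrimitiveRoot ω p) (ω' : F) (al be : Fin m → F)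
    (hω' : ω' = algebraMap (MvPolynomial (Fin m × Fin 2) k) F (MvPolynomial.C ω))
    (hal : ∀ i, al i = algebraMap (MvPolynomial (Fin m × Fin 2) k) F (MvPolynomial.X (i, 0)))
    (hbe : ∀ i, be i = algebraMap (MvPolynomial (Fin m × Fin 2) k) F (MvPolynomial.X (i, 1))) :
    IsCentralDivisionAlgebra F (SymTensor F p m ω' al be) (p ^ m) ∧
      HasTraceVanishingSubspace F (SymTensor F p m ω' al be) r ((p ^ (2 * m) - 1) / r) := by
  have h1 : IsPrimitiveRoot ω' p := by
    rw [hω']
    have h2 : IsPrimitiveRoot (MvPolynomial.C ω : MvPolynomial (Fin m × Fin 2) k) p :=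
      hω.map_of_injective (f := MvPolynomial.C) (MvPolynomial.C_injective _ _)
    exact h2.map_of_injective (IsFractionRing.injective (MvPolynomial (Fin m × Fin 2) k) F)
  have ha : ∀ i, al i ≠ 0 := fun i => by
    rw [hal]
    exact indet_ne_zero k m F (i, 0)
  have hb : ∀ i, be i ≠ 0 := fun i => by
    rw [hbe]
    exact indet_ne_zero k m F (i, 1)
  let D := tsData al be hp.two_le h1 ha hb
  refine D.all ?_ hp hm hr hrp hdiv h1
  refine D.mul_ne_zero h1 ha hb (ratHahn k m F) (pr m) ?_ ?_
  · intro s i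
    rw [hal, ratHahn_indet, HahnSeries.order_single one_ne_zero, pr_ex]
  · intro s i
    rw [hbe, ratHahn_indet, HahnSeries.order_single one_ne_zero, pr_ex]

end Pool.Agent.R692.TV
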